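import Pool.Agent.Lib.MP_cf50d6_gt.Main

/-!
# Amalgams and HNN extensions with light edge groups are locally indicable

(helper70, problem MP_cf50d6_gt, module PUSH)
-/

set_option autoImplicit false

open scoped Classical

namespace Pool.Agent.LIA

universe u

theorem LocallyIndicable.of_injective {G G' : Type*} [Group G] [Group G'] (f : G →* G')
    (hf : Function.Injective f) (h : LocallyIndicable G') : LocallyIndicable G := by
  intro H hH hne
  have h1 : (H.map f).FG := by
    obtain ⟨s, hs⟩ := hH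
    refine ⟨s.image f, ?_⟩
    rw [Finset.coe_image, ← MonoidHom.map_closure, hs]
  have h2 : H.map f ≠ ⊥ := by
    intro h0
    exact hne ((Subgroup.map_eq_bot_iff_of_injective H hf).1 h0)
  obtain ⟨g, hg⟩ := h (H.map f) h1 h2
  refine ⟨g.comp (H.equivMapOfInjective f hf).toMonoidHom, ?_⟩
  exact hg.comp (H.equivMapOfInjective f hf).surjective

theorem GFG.rel (A : GFG.{u}) (j : A.J) (z : Fin (A.r j)) :
    PresentedGroup.mk A.rels (FreeGroup.of (Sum.inr j)) *
      PresentedGroup.mk A.rels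
        (FreeGroup.map (fun x => Sum.inl ⟨A.t j, x⟩) (A.β j (FreeGroup.of z))) *
      (PresentedGroup.mk A.rels (FreeGroup.of (Sum.inr j)))⁻¹ =
    PresentedGroup.mk A.rels
        (FreeGroup.map (fun x => Sum.inl ⟨A.s j, x⟩) (A.α j (FreeGroup.of z))) := by
  have h1 : PresentedGroup.mk A.rels
      (FreeGroup.of (Sum.inr j) *
      FreeGroup.map (fun x => Sum.inl ⟨A.t j, x⟩) (A.β j (FreeGroup.of z)) *
      (FreeGroup.of (Sum.inr j))⁻¹ *
      (FreeGroup.map (fun x => Sum.inl ⟨A.s j, x⟩) (A.α j (FreeGroup.of z)))⁻¹) = 1 :=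
    PresentedGroup.one_of_mem ⟨⟨j, z⟩, rfl⟩
  rw [map_mul, map_mul, map_mul, map_inv, map_inv, mul_inv_eq_one] at h1
  exact h1

section pushout

variable {G : Bool → Type u} [∀ i, Group (G i)] [∀ i, IsFreeGroup (G i)] {r : ℕ}

/-- the graph of groups of an amalgam -/
noncomputable def amA (φ : ∀ i, FreeGroup (Fin r) →* G i) (hφ : ∀ i, Function.Injective (φ i)) :
    GFG.{u} where
  I := ULift.{u} Bool
  J := PUnit.{u + 1}
  X i := IsFreeGroup.Generators (G i.down)
  s _ := ⟨false⟩
  t _ := ⟨true⟩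
  r _ := r
  α _ := (IsFreeGroup.toFreeGroup (G false)).toMonoidHom.comp (φ false)
  β _ := (IsFreeGroup.toFreeGroup (G true)).toMonoidHom.comp (φ true)
  hα _ := (IsFreeGroup.toFreeGroup (G false)).injective.comp (hφ false)
  hβ _ := (IsFreeGroup.toFreeGroup (G true)).injective.comp (hφ true)

variable (φ : ∀ i, FreeGroup (Fin r) →* G i) (hφ : ∀ i, Function.Injective (φ i))

/-- a vertex group in the fundamental group -/
noncomputable def amEmb (i : Bool) : G i →* (amA φ hφ).Grp :=
  (PresentedGroup.mk (amA φ hφ).rels).comp ((FreeGroup.map fun x =>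
    Sum.inl ⟨(ULift.up i : (amA φ hφ).I), x⟩).comp (IsFreeGroup.toFreeGroup (G i)).toMonoidHom)

/-- the edge letter -/
noncomputable def amJ : (amA φ hφ).Grp :=
  PresentedGroup.mk (amA φ hφ).rels (FreeGroup.of (Sum.inr PUnit.unit))

theorem am_rel (z : Fin r) :
    amJ φ hφ * amEmb φ hφ true (φ true (FreeGroup.of z)) * (amJ φ hφ)⁻¹ =
      amEmb φ hφ false (φ false (FreeGroup.of z)) :=
  GFG.rel (amA φ hφ) PUnit.unit z

/-- the two maps to the fundamental group -/
noncomputable def amF : ∀ i, G i →* (amA φ hφ).Grp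
  | false => amEmb φ hφ false
  | true => (MulAut.conj (amJ φ hφ)).toMonoidHom.comp (amEmb φ hφ true)

/-- the map of the amalgam to the fundamental group -/
noncomputable def amLift : Monoid.PushoutI φ →* (amA φ hφ).Grp :=
  Monoid.PushoutI.lift (amF φ hφ) ((amEmb φ hφ false).comp (φ false)) (by
    intro i
    cases i
    · rfl
    · apply FreeGroup.ext_hom
      intro z
      exact am_rel φ hφ z)

/-- values of the generators for the retraction -/
noncomputable def amVal : ((Σ i, (amA φ hφ).X i) ⊕ (amA φ hφ).J) → Monoid.PushoutI φ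
  | Sum.inl p => Monoid.PushoutI.of (φ := φ) p.1.down (IsFreeGroup.of p.2)
  | Sum.inr _ => 1

theorem am_val (i : Bool) (w : FreeGroup (IsFreeGroup.Generators (G i))) :
    FreeGroup.lift (amVal φ hφ)
      (FreeGroup.map (fun x => Sum.inl ⟨(ULift.up i : (amA φ hφ).I), x⟩) w) =
      Monoid.PushoutI.of (φ := φ) i ((IsFreeGroup.toFreeGroup (G i)).symm w) := by
  have h1 : (FreeGroup.lift (amVal φ hφ)).comp
      (FreeGroup.map (fun x => Sum.inl ⟨(ULift.up i : (amA φ hφ).I), x⟩)) =
      (Monoid.PushoutI.of (φ := φ) i).comp (IsFreeGroup.toFreeGroup (G i)).symm.toMonoidHom := by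
    apply FreeGroup.ext_hom
    intro x
    simp only [MonoidHom.comp_apply, FreeGroup.map.of, FreeGroup.lift_apply_of]
    rfl
  exact DFunLike.congr_fun h1 w

/-- the retraction -/
noncomputable def amBack : (amA φ hφ).Grp →* Monoid.PushoutI φ :=
  PresentedGroup.toGroup (f := amVal φ hφ) (by
    rintro _ ⟨⟨j, z⟩, rfl⟩
    rw [map_mul, map_mul, map_mul, map_inv, map_inv, FreeGroup.lift_apply_of]
    have h1 : amVal φ hφ (Sum.inr j) = 1 := rfl
    simp only [h1]
    rw [one_mul, inv_one, mul_one, mul_inv_eq_one]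
    have h2 := am_val φ hφ true ((IsFreeGroup.toFreeGroup (G true)) (φ true (FreeGroup.of z)))
    have h3 := am_val φ hφ false ((IsFreeGroup.toFreeGroup (G false)) (φ false (FreeGroup.of z)))
    rw [MulEquiv.symm_apply_apply, Monoid.PushoutI.of_apply_eq_base] at h2 h3
    exact h2.trans h3.symm)

theorem amBack_mk (w : FreeGroup ((Σ i, (amA φ hφ).X i) ⊕ (amA φ hφ).J)) :
    amBack φ hφ (PresentedGroup.mk (amA φ hφ).rels w) = FreeGroup.lift (amVal φ hφ) w := rfl

theorem amBack_emb (i : Bool) (g : G i) :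
    amBack φ hφ (amEmb φ hφ i g) = Monoid.PushoutI.of (φ := φ) i g := by
  have h2 := am_val φ hφ i ((IsFreeGroup.toFreeGroup (G i)) g)
  rw [MulEquiv.symm_apply_apply] at h2
  exact h2

theorem amBack_J : amBack φ hφ (amJ φ hφ) = 1 := by
  rw [amJ, amBack_mk, FreeGroup.lift_apply_of]
  rfl

theorem amBack_lift (x : Monoid.PushoutI φ) : amBack φ hφ (amLift φ hφ x) = x := by
  have h1 : (amBack φ hφ).comp (amLift φ hφ) = MonoidHom.id _ := by
    apply Monoid.PushoutI.hom_ext_nonempty
    intro i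
    ext g
    simp only [MonoidHom.comp_apply, MonoidHom.id_apply]
    rw [amLift, Monoid.PushoutI.lift_of]
    cases i
    · exact amBack_emb φ hφ false g
    · have h2 : amF φ hφ true g = amJ φ hφ * amEmb φ hφ true g * (amJ φ hφ)⁻¹ := rfl
      rw [h2, map_mul, map_mul, map_inv, amBack_J, amBack_emb, one_mul, inv_one, mul_one]
  exact DFunLike.congr_fun h1 x

end pushout

theorem amalgam_li {G : Bool → Type u} [∀ i, Group (G i)] [∀ i, IsFreeGroup (G i)] {r : ℕ}
    (hr : r ≤ 3) (φ : ∀ i, FreeGroup (Fin r) →* G i) (hφ : ∀ i, Function.Injective (φ i)) :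
    LocallyIndicable (Monoid.PushoutI φ) := by
  refine LocallyIndicable.of_injective (amLift φ hφ)
    (Function.LeftInverse.injective (amBack_lift φ hφ)) (GFG.li _ ?_)
  refine ⟨fun _ => 1 / 2, fun _ => ⟨by norm_num, by norm_num⟩, ?_⟩
  have key : ∀ (B : Finset (amA φ hφ).J) (p q : (amA φ hφ).J → Prop),
      (∀ j, ¬ (p j ∧ q j)) →
      ∑ j ∈ B with p j, (1 / 2 : ℚ) * (((amA φ hφ).r j - 1 : ℕ) : ℚ) +
      ∑ j ∈ B with q j, (1 - 1 / 2 : ℚ) * (((amA φ hφ).r j - 1 : ℕ) : ℚ) ≤ 1 := by
    intro B p q hpq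
    have hc : B.card ≤ 1 := by
      refine Finset.card_le_one.2 fun a _ b _ => ?_
      exact (rfl : (a : PUnit) = b)
    have hval : ∀ j, (((amA φ hφ).r j - 1 : ℕ) : ℚ) = ((r - 1 : ℕ) : ℚ) := fun _ => rfl
    have hr2 : ((r - 1 : ℕ) : ℚ) ≤ 2 := by
      have : r - 1 ≤ 2 := by omega
      exact_mod_cast this
    have hr0 : (0 : ℚ) ≤ ((r - 1 : ℕ) : ℚ) := Nat.cast_nonneg _
    simp only [hval, Finset.sum_const, nsmul_eq_mul]
    have h2 : (B.filter p).card + (B.filter q).card ≤ 1 := by
      rw [← Finset.card_union_of_disjoint]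
      · refine le_trans (Finset.card_le_card ?_) hc
        exact Finset.union_subset (Finset.filter_subset _ _) (Finset.filter_subset _ _)
      · rw [Finset.disjoint_filter]
        intro j _ hp hq
        exact hpq j ⟨hp, hq⟩
    have h3 : (((B.filter p).card : ℚ) + ((B.filter q).card : ℚ)) ≤ 1 := by exact_mod_cast h2
    have h4 : (0 : ℚ) ≤ ((B.filter p).card : ℚ) := Nat.cast_nonneg _
    have h5 : (0 : ℚ) ≤ ((B.filter q).card : ℚ) := Nat.cast_nonneg _
    nlinarith [mul_nonneg (add_nonneg h4 h5) hr0]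
  intro i B
  refine key B _ _ ?_
  rintro j ⟨h1, h2⟩
  have h3 : (ULift.up false : ULift.{u} Bool) = ULift.up true := h1.trans h2.symm
  exact Bool.false_ne_true (ULift.up_injective h3)

section hnn

variable {G : Type u} [Group G] [IsFreeGroup G] {A B : Subgroup G} {r : ℕ}

/-- the graph of groups of an HNN extension -/
noncomputable def hnA (e : A ≃* B) (f : FreeGroup (Fin r) ≃* A) : GFG.{u} where
  I := PUnit.{u + 1}
  J := PUnit.{u + 1}
  X _ := IsFreeGroup.Generators G
  s _ := PUnit.unit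
  t _ := PUnit.unit
  r _ := r
  α _ := (IsFreeGroup.toFreeGroup G).toMonoidHom.comp
    (B.subtype.comp (e.toMonoidHom.comp f.toMonoidHom))
  β _ := (IsFreeGroup.toFreeGroup G).toMonoidHom.comp (A.subtype.comp f.toMonoidHom)
  hα _ := (IsFreeGroup.toFreeGroup G).injective.comp
    (B.subtype_injective.comp (e.injective.comp f.injective))
  hβ _ := (IsFreeGroup.toFreeGroup G).injective.comp (A.subtype_injective.comp f.injective)

variable (e : A ≃* B) (f : FreeGroup (Fin r) ≃* A)

/-- the vertex group in the fundamental group -/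
noncomputable def hnEmb : G →* (hnA e f).Grp :=
  (PresentedGroup.mk (hnA e f).rels).comp ((FreeGroup.map fun x =>
    Sum.inl ⟨(PUnit.unit : (hnA e f).I), x⟩).comp (IsFreeGroup.toFreeGroup G).toMonoidHom)

/-- the edge letter -/
noncomputable def hnJ : (hnA e f).Grp :=
  PresentedGroup.mk (hnA e f).rels (FreeGroup.of (Sum.inr PUnit.unit))

theorem hn_rel (z : Fin r) :
    hnJ e f * hnEmb e f (f (FreeGroup.of z)) * (hnJ e f)⁻¹ =
      hnEmb e f (e (f (FreeGroup.of z))) :=
  GFG.rel (hnA e f) PUnit.unit z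

theorem hn_rel' (a : A) :
    hnJ e f * hnEmb e f a * (hnJ e f)⁻¹ = hnEmb e f (e a) := by
  have h1 : ((MulAut.conj (hnJ e f)).toMonoidHom.comp
      ((hnEmb e f).comp (A.subtype.comp f.toMonoidHom))) =
      (hnEmb e f).comp (B.subtype.comp (e.toMonoidHom.comp f.toMonoidHom)) := by
    apply FreeGroup.ext_hom
    intro z
    exact hn_rel e f z
  have h2 := DFunLike.congr_fun h1 (f.symm a)
  have h3 : f (f.symm a) = a := f.apply_symm_apply a
  have h4 : hnJ e f * hnEmb e f (f (f.symm a)) * (hnJ e f)⁻¹ =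
    hnEmb e f (e (f (f.symm a))) := h2
  rw [h3] at h4
  exact h4

/-- the map of the HNN extension to the fundamental group -/
noncomputable def hnLift : HNNExtension G A B e →* (hnA e f).Grp :=
  HNNExtension.lift (hnEmb e f) (hnJ e f) (by
    intro a
    have h1 := hn_rel' e f a
    rw [mul_inv_eq_iff_eq_mul] at h1
    exact h1)

/-- values of the generators for the retraction -/
noncomputable def hnVal : ((Σ i, (hnA e f).X i) ⊕ (hnA e f).J) → HNNExtension G A B e
  | Sum.inl p => HNNExtension.of (IsFreeGroup.of p.2)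
  | Sum.inr _ => HNNExtension.t

theorem hn_val (w : FreeGroup (IsFreeGroup.Generators G)) :
    FreeGroup.lift (hnVal e f)
      (FreeGroup.map (fun x => Sum.inl ⟨(PUnit.unit : (hnA e f).I), x⟩) w) =
      HNNExtension.of ((IsFreeGroup.toFreeGroup G).symm w) := by
  have h1 : (FreeGroup.lift (hnVal e f)).comp
      (FreeGroup.map (fun x => Sum.inl ⟨(PUnit.unit : (hnA e f).I), x⟩)) =
      (HNNExtension.of (φ := e)).comp (IsFreeGroup.toFreeGroup G).symm.toMonoidHom := by
    apply FreeGroup.ext_hom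
    intro x
    simp only [MonoidHom.comp_apply, FreeGroup.map.of, FreeGroup.lift_apply_of]
    rfl
  exact DFunLike.congr_fun h1 w

/-- the retraction -/
noncomputable def hnBack : (hnA e f).Grp →* HNNExtension G A B e :=
  PresentedGroup.toGroup (f := hnVal e f) (by
    rintro _ ⟨⟨j, z⟩, rfl⟩
    rw [map_mul, map_mul, map_mul, map_inv, map_inv, FreeGroup.lift_apply_of]
    have h1 : hnVal e f (Sum.inr j) = HNNExtension.t := rfl
    simp only [h1]
    rw [mul_inv_eq_one]
    have h2 := hn_val e f ((IsFreeGroup.toFreeGroup G) (f (FreeGroup.of z)))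
    have h3 := hn_val e f ((IsFreeGroup.toFreeGroup G) (e (f (FreeGroup.of z))))
    rw [MulEquiv.symm_apply_apply] at h2 h3
    have h4 := HNNExtension.t_mul_of (φ := e) (f (FreeGroup.of z))
    rw [← mul_inv_eq_iff_eq_mul, ← h2, ← h3] at h4
    exact h4)

theorem hnBack_mk (w : FreeGroup ((Σ i, (hnA e f).X i) ⊕ (hnA e f).J)) :
    hnBack e f (PresentedGroup.mk (hnA e f).rels w) = FreeGroup.lift (hnVal e f) w := rfl

theorem hnBack_lift (x : HNNExtension G A B e) : hnBack e f (hnLift e f x) = x := by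
  have h1 : (hnBack e f).comp (hnLift e f) = MonoidHom.id _ := by
    apply HNNExtension.hom_ext
    · ext g
      simp only [MonoidHom.comp_apply, MonoidHom.id_apply]
      rw [hnLift, HNNExtension.lift_of]
      have h2 := hn_val e f ((IsFreeGroup.toFreeGroup G) g)
      rw [MulEquiv.symm_apply_apply] at h2
      exact h2
    · simp only [MonoidHom.comp_apply, MonoidHom.id_apply]
      rw [hnLift, HNNExtension.lift_t, hnJ, hnBack_mk, FreeGroup.lift_apply_of]
      rfl
  exact DFunLike.congr_fun h1 x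

end hnn

theorem hnn_li {G : Type u} [Group G] [IsFreeGroup G] (A B : Subgroup G) (e : A ≃* B) {r : ℕ}
    (hr : r ≤ 2) (f : FreeGroup (Fin r) ≃* A) : LocallyIndicable (HNNExtension G A B e) := by
  refine LocallyIndicable.of_injective (hnLift e f)
    (Function.LeftInverse.injective (hnBack_lift e f)) (GFG.li _ ?_)
  refine ⟨fun _ => 1 / 2, fun _ => ⟨by norm_num, by norm_num⟩, ?_⟩
  have key : ∀ (C : Finset (hnA e f).J) (p q : (hnA e f).J → Prop),
      ∑ j ∈ C with p j, (1 / 2 : ℚ) * (((hnA e f).r j - 1 : ℕ) : ℚ) +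
      ∑ j ∈ C with q j, (1 - 1 / 2 : ℚ) * (((hnA e f).r j - 1 : ℕ) : ℚ) ≤ 1 := by
    intro C p q
    have hc : ∀ C : Finset (hnA e f).J, C.card ≤ 1 := by
      intro C
      refine Finset.card_le_one.2 fun a _ b _ => ?_
      exact (rfl : (a : PUnit) = b)
    have hval : ∀ j, (((hnA e f).r j - 1 : ℕ) : ℚ) = ((r - 1 : ℕ) : ℚ) := fun _ => rfl
    have hr2 : ((r - 1 : ℕ) : ℚ) ≤ 1 := by
      have : r - 1 ≤ 1 := by omega
      exact_mod_cast this
    have hr0 : (0 : ℚ) ≤ ((r - 1 : ℕ) : ℚ) := Nat.cast_nonneg _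
    simp only [hval, Finset.sum_const, nsmul_eq_mul]
    have h2 : ((C.filter p).card : ℚ) ≤ 1 := by exact_mod_cast hc _
    have h3 : ((C.filter q).card : ℚ) ≤ 1 := by exact_mod_cast hc _
    nlinarith [mul_le_mul_of_nonneg_right h2 hr0, mul_le_mul_of_nonneg_right h3 hr0]
  intro i C
  exact key C _ _

end Pool.Agent.LIA
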