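import Pool.Agent.Lib.MP_cf50d6_gt.Defs

/-!
# Finite connected multigraphs

(helper79, problem MP_cf50d6_gt)
-/

set_option autoImplicit false

open scoped Classical

namespace Pool.Agent.LIA

/-- adjacency in the multigraph with edges `E` from `s e` to `t e` -/
def MAdj {Q E : Type*} (s t : E → Q) (x y : Q) : Prop := ∃ e, s e = x ∧ t e = y

/-- there is a chain of `n` adjacent steps from the point to `U` -/
private def glReach {Q E : Type*} (s t : E → Q) (U : Finset Q) : ℕ → Q → Prop
  | 0, q => q ∈ U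
  | n + 1, q => ∃ y, (MAdj s t q y ∨ MAdj s t y q) ∧ glReach s t U n y

private theorem glReach_of_eqvGen {Q E : Type*} (s t : E → Q) (U : Finset Q) {x y : Q}
    (h : Relation.EqvGen (MAdj s t) x y) :
    (∃ n, glReach s t U n x) ↔ ∃ n, glReach s t U n y := by
  induction h with
  | rel x y h =>
    constructor
    · rintro ⟨n, hn⟩
      exact ⟨n + 1, x, Or.inr h, hn⟩
    · rintro ⟨n, hn⟩
      exact ⟨n + 1, y, Or.inl h, hn⟩
  | refl x => exact Iff.rfl
  | symm x y _ ih => exact ih.symm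
  | trans x y z _ _ ih1 ih2 => exact ih1.trans ih2

theorem exists_parent {Q E : Type*} [Fintype Q] (s t : E → Q) (U : Finset Q)
    (hconn : ∀ q, ∃ u ∈ U, Relation.EqvGen (MAdj s t) u q) :
    ∃ (d : Q → ℕ) (par : {q // q ∉ U} → E), Function.Injective par ∧
      ∀ q : {q // q ∉ U}, (s (par q) = q ∧ d (t (par q)) < d q) ∨
        (t (par q) = q ∧ d (s (par q)) < d q) := by
  have hreach : ∀ q, ∃ n, glReach s t U n q := by
    intro q
    obtain ⟨u, hu, h⟩ := hconn q
    exact (glReach_of_eqvGen s t U h).1 ⟨0, hu⟩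
  let d : Q → ℕ := fun q => Nat.find (hreach q)
  have hd : ∀ q, glReach s t U (d q) q := fun q => Nat.find_spec (hreach q)
  have hdle : ∀ q n, glReach s t U n q → d q ≤ n := fun q n h => Nat.find_min' (hreach q) h
  have hex : ∀ q : {q // q ∉ U}, ∃ e : E, (s e = q ∧ d (t e) < d q) ∨
      (t e = q ∧ d (s e) < d q) := by
    rintro ⟨q, hq⟩
    have h1 := hd q
    cases hn : d q with
    | zero =>
      rw [hn] at h1
      exact absurd h1 hq
    | succ m =>
      rw [hn] at h1
      obtain ⟨y, hy, hm⟩ := h1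
      have hlt : d y < m + 1 := Nat.lt_succ_of_le (hdle y m hm)
      rcases hy with ⟨e, he1, he2⟩ | ⟨e, he1, he2⟩
      · refine ⟨e, Or.inl ⟨he1, ?_⟩⟩
        rw [he2]
        simpa [hn] using hlt
      · refine ⟨e, Or.inr ⟨he2, ?_⟩⟩
        rw [he1]
        simpa [hn] using hlt
  choose par hpar using hex
  refine ⟨d, par, ?_, hpar⟩
  intro q q' hqq
  apply Subtype.ext
  rcases hpar q with ⟨h1, h2⟩ | ⟨h1, h2⟩ <;> rcases hpar q' with ⟨h3, h4⟩ | ⟨h3, h4⟩ <;>
    rw [← hqq] at h3 h4
  · exact h1.symm.trans h3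
  · rw [h1] at h4
    rw [h3] at h2
    omega
  · rw [h1] at h4
    rw [h3] at h2
    omega
  · exact h1.symm.trans h3

private theorem gl_card_compl {Q : Type*} [Fintype Q] (q0 : Q) :
    Fintype.card {q // q ∉ ({q0} : Finset Q)} + 1 = Fintype.card Q := by
  rw [Fintype.card_subtype_compl, Fintype.card_coe, Finset.card_singleton]
  have : 0 < Fintype.card Q := Fintype.card_pos_iff.2 ⟨q0⟩
  omega

theorem gl_card {Q E : Type*} [Fintype Q] [Fintype E] (s t : E → Q)
    (hconn : ∀ q q', Relation.EqvGen (MAdj s t) q q') :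
    Fintype.card Q ≤ Fintype.card E + 1 := by
  rcases isEmpty_or_nonempty Q with h | ⟨⟨q0⟩⟩
  · simp
  · obtain ⟨d, par, hinj, _⟩ := exists_parent s t {q0}
      (fun q => ⟨q0, Finset.mem_singleton_self _, hconn _ _⟩)
    have h1 := Fintype.card_le_of_injective par hinj
    have h2 := gl_card_compl q0
    omega

theorem gl_boundary {Q E : Type*} [Fintype Q] [Fintype E] (s t : E → Q)
    (hconn : ∀ q q', Relation.EqvGen (MAdj s t) q q') (T : Finset Q) (hT : T ≠ Finset.univ) :
    T.card ≤ (Finset.univ.filter fun e => s e ∈ T ∨ t e ∈ T).card := by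
  obtain ⟨q0, hq0⟩ : ∃ q0, q0 ∉ T := by
    by_contra h
    push Not at h
    exact hT (Finset.eq_univ_iff_forall.2 h)
  obtain ⟨d, par, hinj, hpar⟩ := exists_parent s t Tᶜ
    (fun q => ⟨q0, Finset.mem_compl.2 hq0, hconn _ _⟩)
  have hm : ∀ q : {q // q ∈ T}, q.1 ∉ Tᶜ := fun q => by simp
  have h1 : T.card = (T.attach.image fun q => par ⟨q.1, hm q⟩).card := by
    rw [Finset.card_image_of_injective _ ?_, Finset.card_attach]
    intro a b hab
    have h2 := hinj hab
    exact Subtype.ext (Subtype.mk.inj h2)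
  rw [h1]
  apply Finset.card_le_card
  intro e he
  obtain ⟨q, _, rfl⟩ := Finset.mem_image.1 he
  rw [Finset.mem_filter]
  refine ⟨Finset.mem_univ _, ?_⟩
  rcases hpar ⟨q.1, hm q⟩ with ⟨h2, _⟩ | ⟨h2, _⟩
  · left
    rw [h2]
    exact q.2
  · right
    rw [h2]
    exact q.2

theorem gl_potential {Q E : Type*} [Fintype Q] [Fintype E] (s t : E → Q)
    (hconn : ∀ q q', Relation.EqvGen (MAdj s t) q q')
    (hcard : Fintype.card E + 1 ≤ Fintype.card Q) {G : Type*} [Group G] (g : E → G) :
    ∃ h : Q → G, ∀ e, h (t e) = h (s e) * g e := by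
  obtain ⟨q0⟩ : Nonempty Q := Fintype.card_pos_iff.1 (by omega)
  obtain ⟨d, par, hinj, hpar⟩ := exists_parent s t {q0}
    (fun q => ⟨q0, Finset.mem_singleton_self _, hconn _ _⟩)
  have hbij : Function.Bijective par := by
    rw [Fintype.bijective_iff_injective_and_card]
    have h1 := Fintype.card_le_of_injective par hinj
    have h2 := gl_card_compl q0
    exact ⟨hinj, by omega⟩
  have key : ∀ n : ℕ, ∃ h : Q → G, ∀ q : {q // q ∉ ({q0} : Finset Q)}, d q ≤ n →
      h (t (par q)) = h (s (par q)) * g (par q) := by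
    intro n
    induction n with
    | zero =>
      refine ⟨fun _ => 1, fun q hq => ?_⟩
      rcases hpar q with ⟨_, h2⟩ | ⟨_, h2⟩ <;> omega
    | succ n ih =>
      obtain ⟨h, hh⟩ := ih
      let h' : Q → G := fun q =>
        if hq : q ∉ ({q0} : Finset Q) ∧ d q = n + 1 then
          (if s (par ⟨q, hq.1⟩) = q then h (t (par ⟨q, hq.1⟩)) * (g (par ⟨q, hq.1⟩))⁻¹
            else h (s (par ⟨q, hq.1⟩)) * g (par ⟨q, hq.1⟩))
        else h q
      have hlow : ∀ x : Q, d x < n + 1 → h' x = h x := by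
        intro x hx
        have h1 : ¬ (x ∉ ({q0} : Finset Q) ∧ d x = n + 1) := fun h2 => by omega
        simp only [h', dif_neg h1]
      refine ⟨h', ?_⟩
      rintro ⟨q, hq0⟩ hq
      rcases Nat.lt_or_ge (d q) (n + 1) with hlt | hge
      · rcases hpar ⟨q, hq0⟩ with ⟨h1, h2⟩ | ⟨h1, h2⟩
        · rw [hlow _ (lt_trans h2 hlt), h1, hlow _ hlt]
          have := hh ⟨q, hq0⟩ (Nat.le_of_lt_succ hlt)
          rw [h1] at this
          exact this
        · rw [hlow _ (lt_trans h2 hlt), h1, hlow _ hlt]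
          have := hh ⟨q, hq0⟩ (Nat.le_of_lt_succ hlt)
          rw [h1] at this
          exact this
      · have hdq : d q = n + 1 := le_antisymm hq hge
        rcases hpar ⟨q, hq0⟩ with ⟨h1, h2⟩ | ⟨h1, h2⟩
        · have h3 : h' q = h (t (par ⟨q, hq0⟩)) * (g (par ⟨q, hq0⟩))⁻¹ := by
            simp only [h']
            rw [dif_pos ⟨hq0, hdq⟩, if_pos h1]
          have h2' : d (t (par ⟨q, hq0⟩)) < n + 1 := by
            have : d (t (par ⟨q, hq0⟩)) < d q := h2
            omega
          rw [hlow _ h2']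
          have h4 : h' (s (par ⟨q, hq0⟩)) = h' q := congrArg h' h1
          rw [h4, h3]
          simp
        · have h5 : s (par ⟨q, hq0⟩) ≠ q := by
            intro h6
            have h7 : d (s (par ⟨q, hq0⟩)) < d q := h2
            rw [h6] at h7
            exact lt_irrefl _ h7
          have h3 : h' q = h (s (par ⟨q, hq0⟩)) * g (par ⟨q, hq0⟩) := by
            simp only [h']
            rw [dif_pos ⟨hq0, hdq⟩, if_neg h5]
          have h2' : d (s (par ⟨q, hq0⟩)) < n + 1 := by
            have : d (s (par ⟨q, hq0⟩)) < d q := h2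
            omega
          rw [hlow _ h2']
          have h4 : h' (t (par ⟨q, hq0⟩)) = h' q := congrArg h' h1
          rw [h4, h3]
  obtain ⟨h, hh⟩ := key (Finset.univ.sup d)
  refine ⟨h, fun e => ?_⟩
  obtain ⟨q, rfl⟩ := hbij.2 e
  exact hh q (Finset.le_sup (f := d) (Finset.mem_univ q.1))

end Pool.Agent.LIA
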