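import Pool.Agent.Lib.MP_cf50d6_gt.Basic
import Pool.Agent.Lib.MP_cf50d6_gt.Gl

/-!
# Counting vertices and edges in the components of a folded graph

(helper79, problem MP_cf50d6_gt)
-/

set_option autoImplicit false

open scoped Classical

namespace Pool.Agent.LIA

namespace LG

variable {V W S : Type*}

/-- the initial vertex of an edge of a component -/
private def cntS [Fintype V] (Γ : LG V S) (C : Finset V) (e : {e // e ∈ Γ.edges C}) :
    {v // v ∈ C} :=
  ⟨e.1.1, by
    obtain ⟨⟨u, s, v⟩, he⟩ := e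
    exact (mem_edges.1 he).2⟩

/-- the terminal vertex of an edge of a component -/
private def cntT [Fintype V] (Γ : LG V S) {C : Finset V} (hC : C ∈ Γ.comps)
    (e : {e // e ∈ Γ.edges C}) : {v // v ∈ C} :=
  ⟨e.1.2.2, by
    obtain ⟨⟨u, s, v⟩, he⟩ := e
    exact (mem_of_edge hC (mem_edges.1 he).1).1 (mem_edges.1 he).2⟩

private theorem cnt_conn [Fintype V] (Γ : LG V S) {C : Finset V} (hC : C ∈ Γ.comps)
    (q q' : {v // v ∈ C}) : Relation.EqvGen (MAdj (cntS Γ C) (cntT Γ hC)) q q' := by
  have h : Γ.Conn q.1 q'.1 := conn_of_mem_comps hC q.2 q'.2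
  have key : ∃ hx : q'.1 ∈ C,
      Relation.EqvGen (MAdj (cntS Γ C) (cntT Γ hC)) q ⟨q'.1, hx⟩ := by
    refine Conn.induction (p := fun x => ∃ hx : x ∈ C,
      Relation.EqvGen (MAdj (cntS Γ C) (cntT Γ hC)) q ⟨x, hx⟩) ⟨q.2, Relation.EqvGen.refl _⟩
      ?_ h
    rintro a ⟨s, b⟩ c ⟨ha, h1⟩ hs
    have hc : c ∈ C := mem_of_step hC ha hs
    refine ⟨hc, h1.trans _ _ _ ?_⟩
    cases b
    · rw [step_false] at hs
      exact Relation.EqvGen.symm _ _ (Relation.EqvGen.rel _ _
        ⟨⟨(c, s, a), mem_edges.2 ⟨hs, hc⟩⟩, rfl, rfl⟩)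
    · rw [step_true] at hs
      exact Relation.EqvGen.rel _ _ ⟨⟨(a, s, c), mem_edges.2 ⟨hs, ha⟩⟩, rfl, rfl⟩
  exact key.2

/-- a potential computes the value of a walk -/
private theorem cnt_walk [Fintype V] (Γ : LG V S) {C : Finset V} (hC : C ∈ Γ.comps)
    {φ : V → FreeGroup S}
    (hφ : ∀ u s v, (u, s, v) ∈ Γ.F → u ∈ C → φ v = φ u * FreeGroup.of s)
    {u v : V} {L : List (S × Bool)} (hu : u ∈ C) (h : Γ.Walk u L v) :
    φ v = φ u * FreeGroup.mk L := by
  induction L generalizing u with
  | nil =>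
    obtain rfl := h
    simp [← FreeGroup.one_eq_mk]
  | cons l L ih =>
    obtain ⟨a, ha, ha'⟩ := h
    have ha1 : a ∈ C := mem_of_step hC hu ha
    rw [ih ha1 ha', mk_cons, ← mul_assoc]
    congr 1
    obtain ⟨s, b⟩ := l
    cases b
    · rw [step_false] at ha
      rw [hφ a s u ha ha1]
      simp
    · rw [step_true] at ha
      rw [hφ u s a ha hu]
      simp

private theorem cnt_inj [Fintype V] (Γ : LG V S) {C : Finset V} (hC : C ∈ Γ.comps)
    {φ : V → FreeGroup S}
    (hφ : ∀ u s v, (u, s, v) ∈ Γ.F → u ∈ C → φ v = φ u * FreeGroup.of s)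
    {u v : V} (hu : u ∈ C) (hv : v ∈ C) (h : φ u = φ v) : u = v := by
  obtain ⟨L, hL⟩ := conn_of_mem_comps hC hu hv
  have h1 := cnt_walk Γ hC hφ hu hL
  rw [← h] at h1
  have h2 : FreeGroup.mk ([] : List (S × Bool)) = FreeGroup.mk L := by
    rw [← FreeGroup.one_eq_mk]
    exact (mul_eq_left.1 h1.symm).symm
  exact walk_eq_of_mk (walk_nil.2 rfl) hL h2

/-- multiplication by a letter changes the length; if the length decreases then the letter is the
inverse of the last letter -/
private theorem cnt_norm (g : FreeGroup S) (l : S × Bool) :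
    (g * lv l).norm = g.norm + 1 ∨
      (g.norm = (g * lv l).norm + 1 ∧ g.toWord.getLast? = some (linv l)) := by
  have hred : FreeGroup.IsReduced g.toWord := FreeGroup.isReduced_toWord
  rcases List.eq_nil_or_concat' g.toWord with h0 | ⟨L, m, h0⟩
  · left
    have h1 : g = 1 := FreeGroup.toWord_eq_nil_iff.1 h0
    subst h1
    obtain ⟨s, b⟩ := l
    cases b <;> simp
  · have hg : g = FreeGroup.mk (L ++ [m]) := by rw [← h0, FreeGroup.mk_toWord]
    by_cases hm : m = linv l
    · right
      have hL : FreeGroup.IsReduced L := List.IsChain.left_of_append (l₂ := [m]) (h0 ▸ hred)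
      have h2 : g * lv l = FreeGroup.mk L := by
        rw [hg, mk_append, mul_assoc]
        have : FreeGroup.mk [m] * lv l = 1 := by
          rw [hm]
          change lv (linv l) * lv l = 1
          simp
        rw [this, mul_one]
      constructor
      · unfold FreeGroup.norm
        rw [h2, FreeGroup.toWord_mk, hL.reduce_eq, h0]
        simp
      · rw [h0, hm]
        simp
    · left
      have h3 : FreeGroup.IsReduced (L ++ [m] ++ [l]) := by
        refine FreeGroup.IsReduced.append_overlap (h0 ▸ hred) ?_ (by simp)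
        change FreeGroup.IsReduced [m, l]
        rw [FreeGroup.isReduced_cons_cons]
        refine ⟨(red_iff m l).2 ?_, FreeGroup.IsReduced.singleton⟩
        rintro rfl
        exact hm (by simp)
      unfold FreeGroup.norm
      have h4 : g * lv l = FreeGroup.mk (L ++ [m] ++ [l]) := by
        rw [mk_append (L ++ [m]), hg]
        rfl
      rw [h4, FreeGroup.toWord_mk, h3.reduce_eq, h0]
      simp

/-- the end of an edge which has the longer potential -/
private noncomputable def cntBig (φ : V → FreeGroup S) (e : V × S × V) : V :=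
  if (φ e.1).norm < (φ e.2.2).norm then e.2.2 else e.1

theorem pot_card [Fintype V] (Γ : LG V S) {C : Finset V} (hC : C ∈ Γ.comps) (h : Γ.Pot C) :
    (Γ.edges C).card + 1 = C.card := by
  apply le_antisymm
  · obtain ⟨φ, hφ⟩ := h
    obtain ⟨v0, hv0, hmin⟩ := Finset.exists_min_image C (fun v => (φ v).norm)
      (nonempty_of_mem_comps hC)
    -- the larger end is at a larger length
    have hbig : ∀ e ∈ Γ.edges C, ∃ (l : S × Bool) (w : V), cntBig φ e ∈ C ∧ w ∈ C ∧
        Γ.Step (cntBig φ e) l w ∧ (φ (cntBig φ e)).norm = (φ w).norm + 1 ∧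
        (φ (cntBig φ e)).toWord.getLast? = some (linv l) ∧
        ((l = (e.2.1, true) ∧ cntBig φ e = e.1 ∧ w = e.2.2) ∨
          (l = (e.2.1, false) ∧ cntBig φ e = e.2.2 ∧ w = e.1)) := by
      rintro ⟨u, s, v⟩ he
      obtain ⟨heF, hu⟩ := mem_edges.1 he
      have hv : v ∈ C := (mem_of_edge hC heF).1 hu
      have hφe : φ v = φ u * FreeGroup.of s := hφ u s v heF hu
      have hφe' : φ v = φ u * lv (s, true) := by rw [hφe, lv_true]
      have hφe'' : φ u = φ v * lv (s, false) := by rw [hφe, lv_false]; simp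
      rcases cnt_norm (φ u) (s, true) with h1 | ⟨h1, h2⟩
      · rw [← hφe'] at h1
        have hb : cntBig φ (u, s, v) = v := by
          simp only [cntBig]
          rw [if_pos (by omega)]
        rw [hb]
        refine ⟨(s, false), u, hv, hu, step_false.2 heF, h1, ?_, Or.inr ⟨rfl, rfl, rfl⟩⟩
        rcases cnt_norm (φ v) (s, false) with h3 | ⟨h3, h4⟩
        · rw [← hφe''] at h3
          omega
        · exact h4
      · rw [← hφe'] at h1
        have hb : cntBig φ (u, s, v) = u := by
          simp only [cntBig]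
          rw [if_neg (by omega)]
        rw [hb]
        exact ⟨(s, true), v, hu, hv, step_true.2 heF, h1, h2, Or.inl ⟨rfl, rfl, rfl⟩⟩
    have hle : (Γ.edges C).card ≤ (C.erase v0).card := by
      refine Finset.card_le_card_of_injOn (cntBig φ) ?_ ?_
      · intro e he
        obtain ⟨l, w, h1, h2, h3, h4, h5, h6⟩ := hbig e he
        rw [Finset.mem_coe, Finset.mem_erase]
        refine ⟨?_, h1⟩
        intro h7
        have := hmin w h2
        rw [h7] at h4
        omega
      · intro e he e' he' hee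
        obtain ⟨l, w, h1, h2, h3, h4, h5, h6⟩ := hbig e he
        obtain ⟨l', w', h1', h2', h3', h4', h5', h6'⟩ := hbig e' he'
        rw [hee] at h3 h5 h6
        rw [h5] at h5'
        have hll : l = l' := by
          have := Option.some.inj h5'
          have h8 := congrArg linv this
          simpa using h8
        subst hll
        obtain rfl := step_det h3 h3'
        obtain ⟨u, s, v⟩ := e
        obtain ⟨u', s', v'⟩ := e'
        rcases h6 with ⟨a1, a2, a3⟩ | ⟨a1, a2, a3⟩ <;>
          rcases h6' with ⟨b1, b2, b3⟩ | ⟨b1, b2, b3⟩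
        · simp only at a1 a2 a3 b1 b2 b3
          rw [a1] at b1
          simp only [Prod.mk.injEq, and_true] at b1
          rw [Prod.mk.injEq, Prod.mk.injEq]
          exact ⟨a2.symm.trans b2, b1, a3.symm.trans b3⟩
        · rw [a1] at b1
          simp at b1
        · rw [a1] at b1
          simp at b1
        · simp only at a1 a2 a3 b1 b2 b3
          rw [a1] at b1
          simp only [Prod.mk.injEq, and_true] at b1
          rw [Prod.mk.injEq, Prod.mk.injEq]
          exact ⟨a3.symm.trans b3, b1, a2.symm.trans b2⟩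
    rw [Finset.card_erase_of_mem hv0] at hle
    have hpos : 0 < C.card := Finset.card_pos.2 ⟨v0, hv0⟩
    omega
  · have := gl_card (cntS Γ C) (cntT Γ hC) (cnt_conn Γ hC)
    simpa using this

theorem pot_of_card [Fintype V] (Γ : LG V S) {C : Finset V} (hC : C ∈ Γ.comps)
    (h : (Γ.edges C).card < C.card) : Γ.Pot C := by
  obtain ⟨φ, hφ⟩ := gl_potential (cntS Γ C) (cntT Γ hC) (cnt_conn Γ hC)
    (by simpa using h) (fun e => FreeGroup.of e.1.2.1)
  refine ⟨fun v => if hv : v ∈ C then φ ⟨v, hv⟩ else 1, ?_⟩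
  intro u s v he hu
  have hv : v ∈ C := (mem_of_edge hC he).1 hu
  simp only [hu, hv, dif_pos]
  exact hφ ⟨(u, s, v), mem_edges.2 ⟨he, hu⟩⟩

theorem card_eq [Fintype V] (Γ : LG V S) : Γ.F.card + Γ.tr = Fintype.card V + Γ.rr := by
  rw [← sum_card_edges (Γ := Γ), ← sum_card_comps (Γ := Γ), tr, rr, Finset.card_filter,
    ← Finset.sum_add_distrib, ← Finset.sum_add_distrib]
  refine Finset.sum_congr rfl fun C hC => ?_
  by_cases h : Γ.Pot C
  · have := pot_card Γ hC h
    rw [if_pos h]
    omega
  · have h1 : ¬ (Γ.edges C).card < C.card := fun h2 => h (pot_of_card Γ hC h2)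
    rw [if_neg h]
    omega

theorem exists_tree [Fintype V] (Γ : LG V S) {C : Finset V} (hC : C ∈ Γ.comps) :
    ∃ T : LG V S, T.F ⊆ Γ.edges C ∧ T.F.card + 1 = C.card ∧ C ∈ T.comps ∧ T.Pot C := by
  obtain ⟨v0, hv0⟩ := nonempty_of_mem_comps hC
  obtain ⟨d, par, hinj, hpar⟩ := exists_parent (cntS Γ C) (cntT Γ hC)
    {(⟨v0, hv0⟩ : {v // v ∈ C})}
    (fun q => ⟨⟨v0, hv0⟩, Finset.mem_singleton_self _, cnt_conn Γ hC _ _⟩)
  have hsub : (Finset.univ.image fun q => (par q).1) ⊆ Γ.edges C := by
    intro e he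
    obtain ⟨q, _, rfl⟩ := Finset.mem_image.1 he
    exact (par q).2
  have hsubF : (Finset.univ.image fun q => (par q).1) ⊆ Γ.F :=
    hsub.trans (Finset.filter_subset _ _)
  let T : LG V S :=
    { F := Finset.univ.image fun q => (par q).1
      det := fun h h' => Γ.det (hsubF h) (hsubF h')
      cod := fun h h' => Γ.cod (hsubF h) (hsubF h') }
  have hTF : T.F ⊆ Γ.F := hsubF
  have hcard : T.F.card + 1 = C.card := by
    have h1 : T.F.card = Fintype.card {q : {v // v ∈ C} // q ∉ ({⟨v0, hv0⟩} : Finset _)} := by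
      change (Finset.univ.image fun q => (par q).1).card = _
      rw [Finset.card_image_of_injective _ (fun a b hab => hinj (Subtype.ext hab)),
        Finset.card_univ]
    rw [h1]
    have h2 : Fintype.card {q : {v // v ∈ C} // q ∉ ({⟨v0, hv0⟩} : Finset _)} =
        Fintype.card {v // v ∈ C} - 1 := by
      rw [Fintype.card_subtype_compl, Fintype.card_coe, Fintype.card_coe, Finset.card_singleton]
    rw [h2, Fintype.card_coe]
    have : 0 < C.card := Finset.card_pos.2 ⟨v0, hv0⟩
    omega
  have hconn : ∀ (n : ℕ) (q : {v // v ∈ C}), d q = n → T.Conn v0 q.1 := by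
    intro n
    induction n using Nat.strong_induction_on with
    | _ n ih =>
      intro q hq
      by_cases h0 : q = ⟨v0, hv0⟩
      · rw [h0]
        exact conn_refl _
      · have h0' : q ∉ ({⟨v0, hv0⟩} : Finset {v // v ∈ C}) := by
          rw [Finset.mem_singleton]
          exact h0
        have hmem : (par ⟨q, h0'⟩).1 ∈ T.F := Finset.mem_image_of_mem _ (Finset.mem_univ _)
        rcases hpar ⟨q, h0'⟩ with ⟨h1, h2⟩ | ⟨h1, h2⟩
        · have h3 := ih _ (hq ▸ h2) _ rfl
          have h4 : T.Conn q.1 (cntT Γ hC (par ⟨q, h0'⟩)).1 := by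
            have h5 : (cntS Γ C (par ⟨q, h0'⟩)).1 = q.1 := congrArg Subtype.val h1
            rw [← h5]
            exact conn_of_mem (s := (par ⟨q, h0'⟩).1.2.1) hmem
          exact h3.trans h4.symm
        · have h3 := ih _ (hq ▸ h2) _ rfl
          have h4 : T.Conn (cntS Γ C (par ⟨q, h0'⟩)).1 q.1 := by
            have h5 : (cntT Γ hC (par ⟨q, h0'⟩)).1 = q.1 := congrArg Subtype.val h1
            rw [← h5]
            exact conn_of_mem (s := (par ⟨q, h0'⟩).1.2.1) hmem
          exact h3.trans h4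
  have hCT : C ∈ T.comps := by
    refine mem_comps.2 ⟨v0, ?_⟩
    ext v
    rw [mem_comp]
    constructor
    · intro hv
      exact hconn _ ⟨v, hv⟩ rfl
    · intro hv
      have h1 : Γ.Conn v0 v := Conn.mono hTF hv
      rw [eq_comp_of_mem hC hv0]
      exact mem_comp.2 h1
  refine ⟨T, hsub, hcard, hCT, pot_of_card T hCT ?_⟩
  have h1 : (T.edges C).card ≤ T.F.card := Finset.card_le_card (Finset.filter_subset _ _)
  omega

end LG

end Pool.Agent.LIA
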