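import Pool.Agent.Lib.MP_cf50d6_gt.Defs

/-!
# Basic facts on folded graphs, words and components

(helper98, problem MP_cf50d6_gt)
-/

set_option autoImplicit false

open scoped Classical

namespace Pool.Agent.LIA

section words

variable {S : Type*}

@[simp] theorem linv_linv (l : S × Bool) : linv (linv l) = l := by
  simp [linv]

theorem linv_ne (l : S × Bool) : linv l ≠ l := by
  obtain ⟨s, b⟩ := l
  intro h
  have := congrArg Prod.snd h
  cases b <;> simp [linv] at this

@[simp] theorem lv_linv (l : S × Bool) : lv (linv l) = (lv l)⁻¹ := by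
  obtain ⟨s, b⟩ := l
  simp [lv, linv, FreeGroup.inv_mk, FreeGroup.invRev]

@[simp] theorem lv_true (s : S) : lv (s, true) = FreeGroup.of s := rfl

@[simp] theorem lv_false (s : S) : lv (s, false) = (FreeGroup.of s)⁻¹ := by
  simp [lv, FreeGroup.of, FreeGroup.inv_mk, FreeGroup.invRev]

theorem mk_cons (l : S × Bool) (L : List (S × Bool)) :
    FreeGroup.mk (l :: L) = lv l * FreeGroup.mk L := by
  simp [lv, FreeGroup.mul_mk]

theorem mk_append (L M : List (S × Bool)) :
    FreeGroup.mk (L ++ M) = FreeGroup.mk L * FreeGroup.mk M := by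
  simp [FreeGroup.mul_mk]

theorem eg_linv (g : FreeGroup S) (l : S × Bool) : eg (g * lv l) (linv l) = eg g l := by
  obtain ⟨s, b⟩ := l
  cases b <;> simp [eg, linv]

theorem eg_mul (h g : FreeGroup S) (l : S × Bool) : eg (h * g) l = (h * (eg g l).1, (eg g l).2) := by
  obtain ⟨s, b⟩ := l
  cases b <;> simp [eg, mul_assoc]

/-- left invariance for edges -/
theorem EOrd.le_eg (O : EOrd S) (h a b : FreeGroup S) (l m : S × Bool) :
    O.lo.le (eg (h * a) l) (eg (h * b) m) ↔ O.lo.le (eg a l) (eg b m) := by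
  rw [eg_mul, eg_mul]
  exact O.inv h _ _ _ _

/-- two letters determine the same edge iff they are equal or inverse to each other -/
theorem eg_eq_iff (a b : FreeGroup S) (l m : S × Bool) :
    eg a l = eg b m ↔ (a = b ∧ l = m) ∨ (b = a * lv l ∧ m = linv l) := by
  obtain ⟨s, x⟩ := l
  obtain ⟨t, y⟩ := m
  by_cases hst : s = t
  · subst hst
    cases x <;> cases y <;>
      simp only [eg, linv, lv_true, lv_false, Prod.mk.injEq, and_true, if_true, if_false,
        Bool.not_true, Bool.not_false, reduceCtorEq, and_false, or_false, false_or,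
        Bool.false_eq_true, mul_left_inj]
    · exact eq_comm
    · constructor
      · rintro rfl
        simp
      · rintro rfl
        simp
  · have hts : t ≠ s := fun h => hst h.symm
    cases x <;> cases y <;> simp [eg, linv, hst, hts]

/-- a word is reduced iff its consecutive letters are not inverse to each other -/
theorem red_iff (l m : S × Bool) : (l.1 = m.1 → l.2 = m.2) ↔ m ≠ linv l := by
  obtain ⟨s, x⟩ := l
  obtain ⟨t, y⟩ := m
  cases x <;> cases y <;> simp [linv, eq_comm]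

theorem redW_iff (w : ℕ → S × Bool) : RedW w ↔ ∀ n, w (n + 1) ≠ linv (w n) :=
  forall_congr' fun _ => red_iff _ _

/-- a nonempty reduced word is not trivial -/
theorem mk_ne_one {L : List (S × Bool)} (h : FreeGroup.IsReduced L) (h0 : L ≠ []) :
    FreeGroup.mk L ≠ 1 := by
  intro h1
  have h2 := congrArg FreeGroup.toWord h1
  rw [FreeGroup.toWord_mk, FreeGroup.toWord_one, h.reduce_eq] at h2
  exact h0 h2

theorem pre_add (w : ℕ → S × Bool) (m n : ℕ) :
    pre w (m + n) = pre w m * pre (fun i => w (m + i)) n := by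
  induction n with
  | zero => simp [pre]
  | succ n ih =>
    rw [← add_assoc]
    simp only [pre]
    rw [ih, mul_assoc]

theorem pre_one (w : ℕ → S × Bool) : pre w 1 = lv (w 0) := by simp [pre]

theorem pre_eq_mk (w : ℕ → S × Bool) (n : ℕ) :
    pre w n = FreeGroup.mk ((List.range n).map w) := by
  induction n with
  | zero => rfl
  | succ n ih =>
    rw [List.range_succ, List.map_append, mk_append, ← ih]
    rfl

theorem RedW.shift {w : ℕ → S × Bool} (h : RedW w) (m : ℕ) : RedW fun i => w (m + i) :=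
  fun n => h (m + n)

theorem RedW.isReduced {w : ℕ → S × Bool} (h : RedW w) (n : ℕ) :
    FreeGroup.IsReduced ((List.range n).map w) := by
  unfold FreeGroup.IsReduced
  rw [List.isChain_iff_getElem]
  intro i hi
  simp only [List.getElem_map, List.getElem_range]
  exact h i

theorem RedW.pre_ne_one {w : ℕ → S × Bool} (h : RedW w) {n : ℕ} (hn : 0 < n) : pre w n ≠ 1 := by
  rw [pre_eq_mk]
  refine mk_ne_one (h.isReduced n) ?_
  intro h0
  have := congrArg List.length h0
  simp at this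
  omega

theorem RedW.pre_ne {w : ℕ → S × Bool} (h : RedW w) {m n : ℕ} (hn : m < n) :
    pre w m ≠ pre w n := by
  obtain ⟨k, rfl⟩ := Nat.exists_eq_add_of_lt hn
  rw [add_assoc, pre_add]
  intro h1
  have h2 : pre (fun i => w (m + i)) (k + 1) = 1 := by
    have := congrArg (fun x => (pre w m)⁻¹ * x) h1
    simpa using this.symm
  exact (h.shift m).pre_ne_one (Nat.succ_pos k) h2

end words

namespace LG

variable {V W S : Type*} {Γ : LG V S}

theorem step_true {u v : V} {s : S} : Γ.Step u (s, true) v ↔ (u, s, v) ∈ Γ.F := by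
  simp [Step]

theorem step_false {u v : V} {s : S} : Γ.Step u (s, false) v ↔ (v, s, u) ∈ Γ.F := by
  simp [Step]

theorem step_symm {u v : V} {l : S × Bool} : Γ.Step v (linv l) u ↔ Γ.Step u l v := by
  obtain ⟨s, b⟩ := l
  cases b <;> simp [Step, linv]

theorem step_det {u v v' : V} {l : S × Bool} (h : Γ.Step u l v) (h' : Γ.Step u l v') : v = v' := by
  obtain ⟨s, b⟩ := l
  cases b
  · rw [step_false] at h h'
    exact Γ.cod h h'
  · rw [step_true] at h h'
    exact Γ.det h h'

@[simp] theorem walk_nil {u v : V} : Γ.Walk u [] v ↔ u = v := Iff.rfl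

theorem walk_cons {u w : V} {l : S × Bool} {L : List (S × Bool)} :
    Γ.Walk u (l :: L) w ↔ ∃ v, Γ.Step u l v ∧ Γ.Walk v L w := Iff.rfl

theorem walk_append {u w : V} {L M : List (S × Bool)} :
    Γ.Walk u (L ++ M) w ↔ ∃ v, Γ.Walk u L v ∧ Γ.Walk v M w := by
  induction L generalizing u with
  | nil => simp
  | cons l L ih =>
    simp only [List.cons_append, walk_cons, ih]
    constructor
    · rintro ⟨v, h, v', h', h''⟩
      exact ⟨v', ⟨v, h, h'⟩, h''⟩
    · rintro ⟨v', ⟨v, h, h'⟩, h''⟩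
      exact ⟨v, h, v', h', h''⟩

theorem walk_singleton {u v : V} {l : S × Bool} : Γ.Walk u [l] v ↔ Γ.Step u l v := by
  simp [walk_cons]

theorem walk_det {u v v' : V} {L : List (S × Bool)} (h : Γ.Walk u L v) (h' : Γ.Walk u L v') :
    v = v' := by
  induction L generalizing u with
  | nil => exact h.symm.trans h'
  | cons l L ih =>
    obtain ⟨a, ha, ha'⟩ := h
    obtain ⟨b, hb, hb'⟩ := h'
    obtain rfl := step_det ha hb
    exact ih ha' hb'

theorem walk_symm {u v : V} {L : List (S × Bool)} (h : Γ.Walk u L v) :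
    Γ.Walk v (FreeGroup.invRev L) u := by
  induction L generalizing u with
  | nil => exact h.symm
  | cons l L ih =>
    obtain ⟨a, ha, ha'⟩ := h
    have h1 : FreeGroup.invRev (l :: L) = FreeGroup.invRev L ++ [linv l] := by
      simp [FreeGroup.invRev, linv]
    rw [h1, walk_append]
    exact ⟨a, ih ha', walk_singleton.2 (step_symm.2 ha)⟩

/-- reduction of a word preserves readability -/
theorem walk_step {u v : V} {L M : List (S × Bool)} (h : Γ.Walk u L v)
    (hr : FreeGroup.Red.Step L M) : Γ.Walk u M v := by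
  cases hr with
  | @not L₁ L₂ x b =>
    rw [walk_append] at h ⊢
    obtain ⟨a, ha, c, hc, d, hd, hd'⟩ := h
    have h1 : Γ.Step c (x, !b) a := step_symm (l := (x, b)).2 hc
    obtain rfl := step_det h1 hd
    exact ⟨a, ha, hd'⟩

theorem walk_red {u v : V} {L M : List (S × Bool)} (h : Γ.Walk u L v) (hr : FreeGroup.Red L M) :
    Γ.Walk u M v := by
  induction hr with
  | refl => exact h
  | tail _ h1 ih => exact walk_step ih h1

theorem walk_toWord {u v : V} {L : List (S × Bool)} (h : Γ.Walk u L v) :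
    Γ.Walk u (FreeGroup.mk L).toWord v := by
  rw [FreeGroup.toWord_mk]
  exact walk_red h FreeGroup.reduce.red

/-- a closed word with trivial value is closed from every vertex where it can be read -/
theorem walk_eq_of_mk {u v v' : V} {L M : List (S × Bool)} (h : Γ.Walk u L v) (h' : Γ.Walk u M v')
    (he : FreeGroup.mk L = FreeGroup.mk M) : v = v' := by
  have h1 := walk_toWord h
  have h2 := walk_toWord h'
  rw [he] at h1
  exact walk_det h1 h2

theorem conn_refl (u : V) : Γ.Conn u u := ⟨[], rfl⟩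

theorem Conn.symm {u v : V} (h : Γ.Conn u v) : Γ.Conn v u := by
  obtain ⟨L, hL⟩ := h
  exact ⟨_, walk_symm hL⟩

theorem Conn.trans {u v w : V} (h : Γ.Conn u v) (h' : Γ.Conn v w) : Γ.Conn u w := by
  obtain ⟨L, hL⟩ := h
  obtain ⟨M, hM⟩ := h'
  exact ⟨L ++ M, walk_append.2 ⟨v, hL, hM⟩⟩

theorem Step.conn {u v : V} {l : S × Bool} (h : Γ.Step u l v) : Γ.Conn u v :=
  ⟨[l], walk_singleton.2 h⟩

theorem conn_of_mem {u v : V} {s : S} (h : (u, s, v) ∈ Γ.F) : Γ.Conn u v :=
  (step_true.2 h).conn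

theorem Walk.mono {Γ' : LG V S} (hF : Γ.F ⊆ Γ'.F) {u v : V} {L : List (S × Bool)}
    (h : Γ.Walk u L v) : Γ'.Walk u L v := by
  induction L generalizing u with
  | nil => exact h
  | cons l L ih =>
    obtain ⟨a, ha, ha'⟩ := h
    refine ⟨a, ?_, ih ha'⟩
    obtain ⟨s, b⟩ := l
    cases b
    · rw [step_false] at ha ⊢
      exact hF ha
    · rw [step_true] at ha ⊢
      exact hF ha

theorem Conn.mono {Γ' : LG V S} (hF : Γ.F ⊆ Γ'.F) {u v : V} (h : Γ.Conn u v) : Γ'.Conn u v := by
  obtain ⟨L, hL⟩ := h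
  exact ⟨L, hL.mono hF⟩

/-- induction along the connectedness relation -/
theorem Conn.induction {p : V → Prop} {u : V} (h0 : p u)
    (h1 : ∀ a l b, p a → Γ.Step a l b → p b) {v : V} (h : Γ.Conn u v) : p v := by
  obtain ⟨L, hL⟩ := h
  induction L generalizing u with
  | nil => exact hL ▸ h0
  | cons l L ih =>
    obtain ⟨a, ha, ha'⟩ := hL
    exact ih (h1 u l a h0 ha) ha'

theorem mem_prod {Δ : LG W S} {u v : V × W} {s : S} :
    (u, s, v) ∈ (Γ.prod Δ).F ↔ (u.1, s, v.1) ∈ Γ.F ∧ (u.2, s, v.2) ∈ Δ.F := by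
  obtain ⟨u₁, u₂⟩ := u
  obtain ⟨v₁, v₂⟩ := v
  simp only [prod, Finset.mem_image, Finset.mem_filter, Finset.mem_product, Prod.exists,
    Prod.mk.injEq]
  constructor
  · rintro ⟨a, b, c, d, e, f, ⟨⟨h1, h2⟩, h3⟩, ⟨rfl, rfl⟩, rfl, rfl, rfl⟩
    subst h3
    exact ⟨h1, h2⟩
  · rintro ⟨h1, h2⟩
    exact ⟨_, _, _, _, _, _, ⟨⟨h1, h2⟩, rfl⟩, ⟨rfl, rfl⟩, rfl, rfl, rfl⟩

theorem prod_step {Δ : LG W S} {u v : V × W} {l : S × Bool} :
    (Γ.prod Δ).Step u l v ↔ Γ.Step u.1 l v.1 ∧ Δ.Step u.2 l v.2 := by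
  obtain ⟨s, b⟩ := l
  cases b
  · simp only [step_false, mem_prod]
  · simp only [step_true, mem_prod]

theorem prod_walk {Δ : LG W S} {u v : V × W} {L : List (S × Bool)} :
    (Γ.prod Δ).Walk u L v ↔ Γ.Walk u.1 L v.1 ∧ Δ.Walk u.2 L v.2 := by
  induction L generalizing u with
  | nil => simp [Prod.ext_iff]
  | cons l L ih =>
    simp only [walk_cons, prod_step, ih]
    constructor
    · rintro ⟨a, ⟨h1, h2⟩, h3, h4⟩
      exact ⟨⟨_, h1, h3⟩, ⟨_, h2, h4⟩⟩
    · rintro ⟨⟨a, h1, h3⟩, ⟨b, h2, h4⟩⟩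
      exact ⟨(a, b), ⟨h1, h2⟩, h3, h4⟩

theorem cut_sub (O : EOrd S) : (Γ.cut O).F ⊆ Γ.F := Finset.sdiff_subset

theorem mem_cut {O : EOrd S} {e : V × S × V} : e ∈ (Γ.cut O).F ↔ e ∈ Γ.F ∧ e ∉ Γ.br O :=
  Finset.mem_sdiff

theorem mem_br {O : EOrd S} {u v : V} {s : S} :
    (u, s, v) ∈ Γ.br O ↔ (u, s, v) ∈ Γ.F ∧ Γ.Good O u (s, true) ∧ Γ.Good O v (s, false) := by
  simp [br]

theorem br_sub (O : EOrd S) : Γ.br O ⊆ Γ.F := Finset.filter_subset _ _

section comps

variable [Fintype V]

theorem mem_comp {u v : V} : u ∈ Γ.comp v ↔ Γ.Conn v u := by simp [comp]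

theorem self_mem_comp (v : V) : v ∈ Γ.comp v := mem_comp.2 (conn_refl v)

theorem comp_eq_iff {u v : V} : Γ.comp u = Γ.comp v ↔ Γ.Conn u v := by
  constructor
  · intro h
    have : v ∈ Γ.comp u := h ▸ self_mem_comp v
    exact mem_comp.1 this
  · intro h
    ext w
    rw [mem_comp, mem_comp]
    exact ⟨fun h' => h.symm.trans h', fun h' => h.trans h'⟩

theorem comp_mem_comps (v : V) : Γ.comp v ∈ Γ.comps := Finset.mem_image_of_mem _ (Finset.mem_univ v)

theorem mem_comps {C : Finset V} : C ∈ Γ.comps ↔ ∃ v, C = Γ.comp v := by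
  simp [comps, eq_comm]

theorem eq_comp_of_mem {C : Finset V} (hC : C ∈ Γ.comps) {v : V} (hv : v ∈ C) : C = Γ.comp v := by
  obtain ⟨u, rfl⟩ := mem_comps.1 hC
  exact comp_eq_iff.2 (mem_comp.1 hv)

theorem nonempty_of_mem_comps {C : Finset V} (hC : C ∈ Γ.comps) : C.Nonempty := by
  obtain ⟨u, rfl⟩ := mem_comps.1 hC
  exact ⟨u, self_mem_comp u⟩

theorem conn_of_mem_comps {C : Finset V} (hC : C ∈ Γ.comps) {u v : V} (hu : u ∈ C) (hv : v ∈ C) :
    Γ.Conn u v := by
  rw [eq_comp_of_mem hC hu] at hv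
  exact mem_comp.1 hv

theorem mem_of_step {C : Finset V} (hC : C ∈ Γ.comps) {u v : V} {l : S × Bool} (hu : u ∈ C)
    (h : Γ.Step u l v) : v ∈ C := by
  rw [eq_comp_of_mem hC hu]
  exact mem_comp.2 h.conn

theorem mem_of_edge {C : Finset V} (hC : C ∈ Γ.comps) {u v : V} {s : S}
    (h : (u, s, v) ∈ Γ.F) : u ∈ C ↔ v ∈ C := by
  constructor
  · intro hu
    exact mem_of_step hC hu (step_true.2 h)
  · intro hv
    exact mem_of_step hC hv (step_false.2 h)

omit [Fintype V] in
theorem mem_edges {C : Finset V} {u v : V} {s : S} :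
    (u, s, v) ∈ Γ.edges C ↔ (u, s, v) ∈ Γ.F ∧ u ∈ C := by
  simp [edges]

theorem sum_card_comps : ∑ C ∈ Γ.comps, C.card = Fintype.card V := by
  have h1 : (Finset.univ : Finset V).card = ∑ C ∈ Γ.comps,
      ((Finset.univ : Finset V).filter fun v => Γ.comp v = C).card :=
    Finset.card_eq_sum_card_fiberwise fun v _ => comp_mem_comps v
  rw [← Finset.card_univ, h1]
  refine Finset.sum_congr rfl fun C hC => ?_
  congr 1
  ext v
  simp only [Finset.mem_filter, Finset.mem_univ, true_and]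
  constructor
  · intro hv
    exact (eq_comp_of_mem hC hv).symm
  · rintro rfl
    exact self_mem_comp v

theorem sum_card_edges : ∑ C ∈ Γ.comps, (Γ.edges C).card = Γ.F.card := by
  have h1 : Γ.F.card = ∑ C ∈ Γ.comps, (Γ.F.filter fun e => Γ.comp e.1 = C).card :=
    Finset.card_eq_sum_card_fiberwise fun e _ => comp_mem_comps e.1
  rw [h1]
  refine Finset.sum_congr rfl fun C hC => ?_
  congr 1
  ext e
  simp only [edges, Finset.mem_filter, and_congr_right_iff]
  intro _
  constructor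
  · intro hv
    exact (eq_comp_of_mem hC hv).symm
  · rintro rfl
    exact self_mem_comp _

end comps

end LG

end Pool.Agent.LIA
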