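import Pool.Agent.Lib.MP_cf50d6_gt.Basic

/-!
# Cocycles of free groups

(helper79, problem MP_cf50d6_gt)
-/

set_option autoImplicit false

open scoped Classical

namespace Pool.Agent.LIA

/-- the action of a generator on `Ω × ℚ` -/
private def cocT {S Ω : Type*} (Φ : FreeGroup S →* Equiv.Perm Ω) (c : Ω → S → ℚ) (s : S) :
    Equiv.Perm (Ω × ℚ) where
  toFun p := (Φ (FreeGroup.of s) p.1, p.2 + c (Φ (FreeGroup.of s) p.1) s)
  invFun p := (Φ (FreeGroup.of s)⁻¹ p.1, p.2 - c p.1 s)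
  left_inv := by
    rintro ⟨x, a⟩
    simp
  right_inv := by
    rintro ⟨x, a⟩
    simp

private theorem coc_form {S Ω : Type*} (Φ : FreeGroup S →* Equiv.Perm Ω) (c : Ω → S → ℚ)
    (g : FreeGroup S) : ∀ y a, FreeGroup.lift (cocT Φ c) g (y, a) =
      (Φ g y, a + (FreeGroup.lift (cocT Φ c) g (y, 0)).2) := by
  have hinv : ∀ g : FreeGroup S, (∀ y a, FreeGroup.lift (cocT Φ c) g (y, a) =
      (Φ g y, a + (FreeGroup.lift (cocT Φ c) g (y, 0)).2)) →
      ∀ y a, FreeGroup.lift (cocT Φ c) g⁻¹ (y, a) =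
      (Φ g⁻¹ y, a + (FreeGroup.lift (cocT Φ c) g⁻¹ (y, 0)).2) := by
    intro g hg
    have h1 : ∀ y a, FreeGroup.lift (cocT Φ c) g⁻¹ (y, a) =
        (Φ g⁻¹ y, a - (FreeGroup.lift (cocT Φ c) g (Φ g⁻¹ y, 0)).2) := by
      intro y a
      rw [map_inv, Equiv.Perm.inv_eq_iff_eq, hg]
      simp
    intro y a
    rw [h1, h1]
    simp [sub_eq_add_neg]
  induction g using FreeGroup.induction_on with
  | C1 =>
    intro y a
    simp
  | of s =>
    intro y a
    simp [cocT]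
  | inv_of s h => exact hinv _ h
  | mul g h hg hh =>
    intro y a
    rw [map_mul, Equiv.Perm.mul_apply, Equiv.Perm.mul_apply, hh y a, hh y 0, hg, hg (Φ h y)
      (0 + _)]
    simp [add_assoc]

theorem exists_coc {S Ω : Type*} (Φ : FreeGroup S →* Equiv.Perm Ω) (c : Ω → S → ℚ) :
    ∃ κ : FreeGroup S → Ω → ℚ, (∀ g h x, κ (g * h) x = κ g x + κ h (Φ g⁻¹ x)) ∧
      ∀ s x, κ (FreeGroup.of s) x = c x s := by
  refine ⟨fun g x => (FreeGroup.lift (cocT Φ c) g (Φ g⁻¹ x, 0)).2, ?_, ?_⟩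
  · intro g h x
    simp only
    rw [map_mul (FreeGroup.lift (cocT Φ c)), Equiv.Perm.mul_apply, coc_form Φ c h,
      coc_form Φ c g]
    have h1 : Φ (g * h)⁻¹ x = Φ h⁻¹ (Φ g⁻¹ x) := by
      rw [mul_inv_rev, map_mul, Equiv.Perm.mul_apply]
    have h2 : Φ h (Φ (g * h)⁻¹ x) = Φ g⁻¹ x := by
      rw [h1]
      simp
    rw [h2, h1]
    simp [add_comm]
  · intro s x
    simp [cocT]

private theorem coc_perm {V S : Type*} [Fintype V] (Γ : LG V S) (s : S) :
    ∃ σ : Equiv.Perm V, ∀ u v, (u, s, v) ∈ Γ.F → σ u = v := by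
  let p : V → Prop := fun x => ∃ v, (x, s, v) ∈ Γ.F
  let q : V → Prop := fun y => ∃ u, (u, s, y) ∈ Γ.F
  let e : {x // p x} → {y // q y} := fun x => ⟨x.2.choose, ⟨x.1, x.2.choose_spec⟩⟩
  have he : Function.Bijective e := by
    constructor
    · intro x y hxy
      have h1 : x.2.choose = y.2.choose := congrArg Subtype.val hxy
      have h2 := x.2.choose_spec
      rw [h1] at h2
      exact Subtype.ext (Γ.cod h2 y.2.choose_spec)
    · rintro ⟨y, u, hu⟩
      refine ⟨⟨u, y, hu⟩, Subtype.ext ?_⟩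
      have hp : p u := ⟨y, hu⟩
      exact Γ.det hp.choose_spec hu
  refine ⟨(Equiv.ofBijective e he).extendSubtype, ?_⟩
  intro u v huv
  have hp : p u := ⟨v, huv⟩
  rw [Equiv.extendSubtype_apply_of_mem _ u hp]
  exact Γ.det hp.choose_spec huv

/-- the value of a cochain along a word, for the graph of the permutations `Φ` -/
theorem exists_perm {V S : Type*} [Fintype V] (Γ : LG V S) :
    ∃ Φ : FreeGroup S →* Equiv.Perm V, ∀ u L v, Γ.Walk u L v → v = Φ (FreeGroup.mk L)⁻¹ u := by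
  choose σ hσ using coc_perm Γ
  refine ⟨FreeGroup.lift fun s => (σ s)⁻¹, ?_⟩
  intro u L v h
  induction L generalizing u with
  | nil =>
    obtain rfl : u = v := h
    simp [← FreeGroup.one_eq_mk]
  | cons l L ih =>
    obtain ⟨a, ha, ha'⟩ := h
    rw [ih a ha', mk_cons, mul_inv_rev, map_mul, Equiv.Perm.mul_apply]
    congr 1
    obtain ⟨s, b⟩ := l
    cases b
    · rw [LG.step_false] at ha
      have h1 := hσ s _ _ ha
      rw [lv_false, inv_inv, FreeGroup.lift_apply_of, Equiv.Perm.eq_inv_iff_eq]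
      exact h1
    · rw [LG.step_true] at ha
      have h1 := hσ s _ _ ha
      rw [lv_true, map_inv, FreeGroup.lift_apply_of, inv_inv]
      exact h1.symm

end Pool.Agent.LIA
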