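import Pool.Agent.Lib.MP_cf50d6_gt.Coc

/-!
# Finite graphs carrying finitely many words (module CORE, helper2)

`core_gen` : a finite folded graph which carries finitely many closed words and has few edges,
`exists_core` : the Stallings graph of a finitely generated subgroup.
-/

set_option autoImplicit false

open scoped Classical

namespace Pool.Agent.LIA

universe u

section cocsum

variable {S X : Type*} [MulAction (FreeGroup S) X]

/-- evaluation of a cochain at an edge -/
private def cev (x : X) (s : S) : (X → S → ℚ) →ₗ[ℚ] ℚ :=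
  (LinearMap.proj s : (S → ℚ) →ₗ[ℚ] ℚ).comp
    (LinearMap.proj x : (X → S → ℚ) →ₗ[ℚ] (S → ℚ))

omit [MulAction (FreeGroup S) X] in
private theorem cev_apply (x : X) (s : S) (c : X → S → ℚ) : cev x s c = c x s := rfl

/-- the sum of a cochain along a word -/
private noncomputable def cwl : List (S × Bool) → X → ((X → S → ℚ) →ₗ[ℚ] ℚ)
  | [], _ => 0
  | l :: L, x => (if l.2 then cev x l.1 else -cev (FreeGroup.of l.1 • x) l.1) +
      cwl L ((lv l)⁻¹ • x)

variable (κ : FreeGroup S → X → ℚ)
  (hκ : ∀ g h x, κ (g * h) x = κ g x + κ h (MulAction.toPermHom (FreeGroup S) X g⁻¹ x))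

include hκ

private theorem coc_mul (g h : FreeGroup S) (x : X) : κ (g * h) x = κ g x + κ h (g⁻¹ • x) :=
  hκ g h x

private theorem coc_one (x : X) : κ 1 x = 0 := by
  have h := coc_mul κ hκ 1 1 x
  rw [one_mul, inv_one, one_smul] at h
  linarith

private theorem coc_inv (g : FreeGroup S) (x : X) : κ g⁻¹ x = -κ g (g • x) := by
  have h := coc_mul κ hκ g⁻¹ g x
  rw [inv_mul_cancel, coc_one κ hκ, inv_inv] at h
  linarith

private theorem coc_eq_cwl (c : X → S → ℚ) (hc : ∀ s x, κ (FreeGroup.of s) x = c x s)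
    (L : List (S × Bool)) (x : X) : κ (FreeGroup.mk L) x = cwl L x c := by
  induction L generalizing x with
  | nil =>
    rw [← FreeGroup.one_eq_mk, coc_one κ hκ]
    simp [cwl]
  | cons l L ih =>
    rw [mk_cons, coc_mul κ hκ, ih]
    obtain ⟨s, b⟩ := l
    cases b
    · rw [lv_false, coc_inv κ hκ, hc]
      simp [cwl, cev_apply]
    · rw [lv_true, hc]
      simp [cwl, cev_apply]

end cocsum

section dim

variable {S : Type*} (J : Subgroup (FreeGroup S)) {V : Type*} [Fintype V]

/-- dimension count -/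
private theorem dim_count {E P : Type*} [Fintype E] [Fintype P]
    (R : (E → ℚ) →ₗ[ℚ] (P → ℚ)) (s t : E → V) (o : V)
    (h : ∀ c, R c = 0 → ∃ f : V → ℚ, ∀ e, c e = f (t e) - f (s e)) :
    Fintype.card E + 1 ≤ Fintype.card V + Fintype.card P := by
  let δ : (V → ℚ) →ₗ[ℚ] (E → ℚ) :=
    { toFun := fun f e => f (t e) - f (s e)
      map_add' := by
        intro f g
        ext e
        simp only [Pi.add_apply]
        ring
      map_smul' := by
        intro a f
        ext e
        simp only [Pi.smul_apply, smul_eq_mul, RingHom.id_apply]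
        ring }
  have h1 := LinearMap.finrank_range_add_finrank_ker R
  have h2 := LinearMap.finrank_range_add_finrank_ker δ
  rw [Module.finrank_pi] at h1 h2
  have h3 : Module.finrank ℚ (LinearMap.range R) ≤ Fintype.card P := by
    have := Submodule.finrank_le (LinearMap.range R)
    rwa [Module.finrank_pi] at this
  have h4 : Module.finrank ℚ (LinearMap.ker R) ≤ Module.finrank ℚ (LinearMap.range δ) := by
    apply Submodule.finrank_mono
    intro c hc
    obtain ⟨f, hf⟩ := h c (LinearMap.mem_ker.1 hc)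
    refine ⟨f, ?_⟩
    ext e
    exact (hf e).symm
  have h5 : 0 < Module.finrank ℚ (LinearMap.ker δ) := by
    rw [Module.finrank_pos_iff]
    refine ⟨⟨⟨fun _ => 1, ?_⟩, 0, ?_⟩⟩
    · rw [LinearMap.mem_ker]
      ext e
      simp [δ]
    · intro h0
      have h6 := congrArg (fun z : LinearMap.ker δ => z.1 o) h0
      simp at h6
  omega

end dim

section graph

variable {S : Type u} (J : Subgroup (FreeGroup S)) (P : Set (List (S × Bool)))

/-- the coset reached after the word with value `g` -/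
private def cpt (g : FreeGroup S) : FreeGroup S ⧸ J := QuotientGroup.mk g⁻¹

private theorem cpt_mul (g h : FreeGroup S) : cpt J (g * h) = h⁻¹ • cpt J g := by
  unfold cpt
  rw [mul_inv_rev]
  rfl

private theorem cpt_one : cpt J 1 = QuotientGroup.mk 1 := by
  unfold cpt
  rw [inv_one]

private theorem cpt_eq (g h : FreeGroup S) : cpt J g = cpt J h ↔ g * h⁻¹ ∈ J := by
  unfold cpt
  rw [QuotientGroup.eq, inv_inv]

/-- the vertices -/
private abbrev CV : Type u := ↥((fun L => cpt J (FreeGroup.mk L)) '' insert [] P)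

/-- the vertex of a word -/
private noncomputable def cvt (L : List (S × Bool)) : CV J P :=
  if h : L ∈ P then ⟨cpt J (FreeGroup.mk L), L, Or.inr h, rfl⟩
  else ⟨cpt J (FreeGroup.mk []), [], Or.inl rfl, rfl⟩

private theorem cvt_val {L : List (S × Bool)} (h : L ∈ insert [] P) :
    (cvt J P L).1 = cpt J (FreeGroup.mk L) := by
  unfold cvt
  split_ifs with h1
  · rfl
  · rcases h with rfl | h
    · rfl
    · exact absurd h h1

/-- the set of the edges -/
private def CE : Set (CV J P × S × CV J P) :=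
  {e | ∃ L l, L ++ [l] ∈ P ∧ e.2.1 = l.1 ∧
    ((l.2 = true ∧ e.1.1 = cpt J (FreeGroup.mk L) ∧ e.2.2.1 = cpt J (FreeGroup.mk (L ++ [l]))) ∨
    (l.2 = false ∧ e.2.2.1 = cpt J (FreeGroup.mk L) ∧ e.1.1 = cpt J (FreeGroup.mk (L ++ [l]))))}

private theorem CE_rel {x y : CV J P} {s : S} (h : (x, s, y) ∈ CE J P) :
    y.1 = (FreeGroup.of s)⁻¹ • x.1 := by
  obtain ⟨L, ⟨a, b⟩, -, h1, h2 | h2⟩ := h
  · obtain ⟨h3, h4, h5⟩ := h2
    simp only at h1 h3 h4 h5
    subst h1 h3
    rw [h5, h4, mk_append, cpt_mul]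
    rfl
  · obtain ⟨h3, h4, h5⟩ := h2
    simp only at h1 h3 h4 h5
    subst h1 h3
    rw [h5, h4, mk_append, cpt_mul]
    have h6 : FreeGroup.mk [(s, false)] = (FreeGroup.of s)⁻¹ := lv_false s
    rw [h6, inv_inv, inv_smul_smul]

private theorem CE_finite (hP : P.Finite) : (CE J P).Finite := by
  have h1 : (insert [] P).Finite := hP.insert []
  have h2 : Finite (CV J P) := (h1.image _).to_subtype
  have h3 : ((fun L : List (S × Bool) => L.getLast?.map Prod.fst) '' P).Finite := hP.image _
  have h4 := h3.preimage (Option.some_injective S).injOn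
  refine ((Set.finite_univ (α := CV J P)).prod (h4.prod (Set.finite_univ (α := CV J P)))).subset ?_
  rintro ⟨x, s, y⟩ ⟨L, l, hL, h5, -⟩
  refine ⟨Set.mem_univ _, ?_, Set.mem_univ _⟩
  refine ⟨_, hL, ?_⟩
  simp only at h5
  simp [h5]

/-- the graph -/
private noncomputable def CG (hP : P.Finite) : LG (CV J P) S where
  F := (CE_finite J P hP).toFinset
  det := by
    intro x s y y' h h'
    rw [Set.Finite.mem_toFinset] at h h'
    apply Subtype.ext
    rw [CE_rel J P h, CE_rel J P h']
  cod := by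
    intro x x' s y h h'
    rw [Set.Finite.mem_toFinset] at h h'
    apply Subtype.ext
    have h1 := CE_rel J P h
    rw [CE_rel J P h', smul_left_cancel_iff] at h1
    exact h1.symm

variable (hP : P.Finite)

private theorem mem_CG {e : CV J P × S × CV J P} : e ∈ (CG J P hP).F ↔ e ∈ CE J P :=
  Set.Finite.mem_toFinset _

private theorem CG_step_val {x y : CV J P} {l : S × Bool} (h : (CG J P hP).Step x l y) :
    y.1 = (lv l)⁻¹ • x.1 := by
  obtain ⟨s, b⟩ := l
  cases b
  · rw [LG.step_false, mem_CG] at h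
    rw [CE_rel J P h, lv_false, inv_inv, smul_inv_smul]
  · rw [LG.step_true, mem_CG] at h
    rw [CE_rel J P h, lv_true]

private theorem CG_walk_val {x y : CV J P} {L : List (S × Bool)} (h : (CG J P hP).Walk x L y) :
    y.1 = (FreeGroup.mk L)⁻¹ • x.1 := by
  induction L generalizing x with
  | nil =>
    obtain rfl := LG.walk_nil.1 h
    rw [← FreeGroup.one_eq_mk, inv_one, one_smul]
  | cons l L ih =>
    obtain ⟨z, h1, h2⟩ := LG.walk_cons.1 h
    rw [ih h2, CG_step_val J P hP h1, mk_cons, mul_inv_rev, mul_smul]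

variable (hpre : ∀ L M, L ++ M ∈ P → L ∈ P)

include hpre

private theorem CG_step {L : List (S × Bool)} {l : S × Bool} (h : L ++ [l] ∈ P) :
    (CG J P hP).Step (cvt J P L) l (cvt J P (L ++ [l])) := by
  have h1 : (cvt J P L).1 = cpt J (FreeGroup.mk L) := cvt_val J P (Or.inr (hpre _ _ h))
  have h2 : (cvt J P (L ++ [l])).1 = cpt J (FreeGroup.mk (L ++ [l])) := cvt_val J P (Or.inr h)
  obtain ⟨s, b⟩ := l
  cases b
  · rw [LG.step_false, mem_CG]
    exact ⟨L, _, h, rfl, Or.inr ⟨rfl, h1, h2⟩⟩
  · rw [LG.step_true, mem_CG]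
    exact ⟨L, _, h, rfl, Or.inl ⟨rfl, h1, h2⟩⟩

private theorem CG_walk {M : List (S × Bool)} : ∀ {L : List (S × Bool)}, L ++ M ∈ P →
    (CG J P hP).Walk (cvt J P L) M (cvt J P (L ++ M)) := by
  induction M with
  | nil =>
    intro L _
    rw [LG.walk_nil, List.append_nil]
  | cons l M ih =>
    intro L h
    have h1 : L ++ [l] ++ M ∈ P := by simpa using h
    refine ⟨cvt J P (L ++ [l]), CG_step J P hP hpre (hpre _ _ h1), ?_⟩
    have h2 := ih h1
    simpa using h2

private theorem CG_walk_nil {M : List (S × Bool)} (h : M ∈ insert [] P) :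
    (CG J P hP).Walk (cvt J P []) M (cvt J P M) := by
  rcases h with rfl | h
  · exact rfl
  · exact CG_walk J P hP hpre (L := []) h

private theorem CG_conn (x : CV J P) : (CG J P hP).Conn (cvt J P []) x := by
  obtain ⟨x, L, hL, rfl⟩ := x
  refine ⟨L, ?_⟩
  have h1 := CG_walk_nil J P hP hpre hL
  have h2 : (⟨cpt J (FreeGroup.mk L), L, hL, rfl⟩ : CV J P) = cvt J P L :=
    Subtype.ext (cvt_val J P hL).symm
  exact h2 ▸ h1

omit hpre

private theorem CG_val_nil : (cvt J P []).1 = QuotientGroup.mk 1 := by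
  rw [cvt_val J P (Or.inl rfl), ← FreeGroup.one_eq_mk, cpt_one]

private theorem CG_closed {L : List (S × Bool)}
    (h : (CG J P hP).Walk (cvt J P []) L (cvt J P [])) : FreeGroup.mk L ∈ J := by
  have h1 := CG_walk_val J P hP h
  rw [CG_val_nil] at h1
  have h2 : (QuotientGroup.mk 1 : FreeGroup S ⧸ J) = QuotientGroup.mk (FreeGroup.mk L)⁻¹ := by
    rw [h1]
    show (QuotientGroup.mk ((FreeGroup.mk L)⁻¹ * 1) : FreeGroup S ⧸ J) = _
    rw [mul_one]
  rw [QuotientGroup.eq, inv_one, one_mul] at h2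
  exact (Subgroup.inv_mem_iff _).1 h2

/-- extension of a cochain of the graph by zero -/
private noncomputable def CX : (↥(CG J P hP).F → ℚ) →ₗ[ℚ] (FreeGroup S ⧸ J → S → ℚ) :=
  LinearMap.pi fun x => LinearMap.pi fun s =>
    ∑ e : ↥(CG J P hP).F, if e.1.1.1 = x ∧ e.1.2.1 = s then LinearMap.proj e else 0

private theorem CX_apply (c : ↥(CG J P hP).F → ℚ) (e : ↥(CG J P hP).F) :
    CX J P hP c e.1.1.1 e.1.2.1 = c e := by
  unfold CX
  simp only [LinearMap.pi_apply, LinearMap.sum_apply]
  rw [Finset.sum_eq_single e]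
  · simp
  · intro e' _ hne
    rw [if_neg]
    · rfl
    · rintro ⟨h1, h2⟩
      apply hne
      obtain ⟨⟨x, s, y⟩, he⟩ := e
      obtain ⟨⟨x', s', y'⟩, he'⟩ := e'
      simp only at h1 h2
      obtain rfl : x' = x := Subtype.ext h1
      subst h2
      obtain rfl := (CG J P hP).det he he'
      rfl
  · intro h
    exact absurd (Finset.mem_univ _) h

end graph

/-- a finite graph which carries finitely many words and has few edges -/
theorem core_gen {S : Type u} {ι κ : Type*} [Finite ι] [Finite κ] (J : Subgroup (FreeGroup S))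
    (u r : ι → List (S × Bool)) (h : κ → List (S × Bool))
    (hr : ∀ i, FreeGroup.mk (u i ++ r i ++ FreeGroup.invRev (u i)) ∈ J)
    (hh : ∀ k, FreeGroup.mk (h k) ∈ J)
    (H : ∀ ψ : FreeGroup S → ℚ, (∀ a ∈ J, ∀ b ∈ J, ψ (a * b) = ψ a + ψ b) →
      (∀ i, ψ (FreeGroup.mk (u i ++ r i ++ FreeGroup.invRev (u i))) = 0) → ∀ a ∈ J, ψ a = 0) :
    ∃ (V : Type u) (_ : Fintype V) (Γ : LG V S) (o : V) (v : ι → V),
      (∀ x, Γ.Conn o x) ∧ (∀ i, Γ.Walk o (u i) (v i)) ∧ (∀ i, Γ.Walk (v i) (r i) (v i)) ∧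
      (∀ k, Γ.Walk o (h k) o) ∧ (∀ L, Γ.Walk o L o → FreeGroup.mk L ∈ J) ∧
      Γ.F.card + 1 ≤ Fintype.card V + (Set.range fun i => (v i, r i)).ncard := by
  set P : Set (List (S × Bool)) := (⋃ i, {L | L <+: u i ++ r i}) ∪ ⋃ k, {L | L <+: h k} with hPdef
  have hinit : ∀ W : List (S × Bool), {L | L <+: W}.Finite := by
    intro W
    refine (List.finite_toSet W.inits).subset ?_
    intro L hL
    exact (List.mem_inits _ _).2 hL
  have hP : P.Finite :=
    (Set.finite_iUnion fun i => hinit _).union (Set.finite_iUnion fun k => hinit _)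
  have hpre : ∀ L M, L ++ M ∈ P → L ∈ P := by
    intro L M hLM
    rcases hLM with hLM | hLM
    · left
      obtain ⟨i, hi⟩ := Set.mem_iUnion.1 hLM
      exact Set.mem_iUnion.2 ⟨i, (List.prefix_append L M).trans hi⟩
    · right
      obtain ⟨i, hi⟩ := Set.mem_iUnion.1 hLM
      exact Set.mem_iUnion.2 ⟨i, (List.prefix_append L M).trans hi⟩
  have hur : ∀ i, u i ++ r i ∈ P := fun i => Or.inl (Set.mem_iUnion.2 ⟨i, List.prefix_refl _⟩)
  have hu : ∀ i, u i ∈ P := fun i => hpre _ _ (hur i)
  have hhk : ∀ k, h k ∈ P := fun k => Or.inr (Set.mem_iUnion.2 ⟨k, List.prefix_refl _⟩)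
  have hfin : Finite (CV J P) := ((hP.insert []).image _).to_subtype
  let hft : Fintype (CV J P) := Fintype.ofFinite _
  have hmk : ∀ i, FreeGroup.mk (u i ++ r i ++ FreeGroup.invRev (u i)) =
      FreeGroup.mk (u i) * FreeGroup.mk (r i) * (FreeGroup.mk (u i))⁻¹ := by
    intro i
    rw [mk_append, mk_append, FreeGroup.inv_mk]
  have hclose : ∀ i, cvt J P (u i ++ r i) = cvt J P (u i) := by
    intro i
    apply Subtype.ext
    rw [cvt_val J P (Or.inr (hur i)), cvt_val J P (Or.inr (hu i)), cpt_eq, mk_append]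
    have h1 := hr i
    rwa [hmk] at h1
  refine ⟨CV J P, hft, CG J P hP, cvt J P [], fun i => cvt J P (u i), CG_conn J P hP hpre,
    fun i => CG_walk_nil J P hP hpre (Or.inr (hu i)), ?_, ?_, fun L hL => CG_closed J P hP hL, ?_⟩
  · intro i
    have h1 := CG_walk J P hP hpre (hur i)
    rwa [hclose i] at h1
  · intro k
    have h1 := CG_walk_nil J P hP hpre (M := h k) (Or.inr (hhk k))
    have h2 : cvt J P (h k) = cvt J P [] := by
      apply Subtype.ext
      rw [cvt_val J P (Or.inr (hhk k)), cvt_val J P (Or.inl rfl), cpt_eq, ← FreeGroup.one_eq_mk,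
        inv_one, mul_one]
      exact hh k
    rwa [h2] at h1
  · -- counting
    have hfr : (Set.range fun i => (cvt J P (u i), r i)).Finite := Set.finite_range _
    let _ : Fintype ↥(Set.range fun i => (cvt J P (u i), r i)) := hfr.fintype
    let R : (↥(CG J P hP).F → ℚ) →ₗ[ℚ] (↥(Set.range fun i => (cvt J P (u i), r i)) → ℚ) :=
      LinearMap.pi fun p => (cwl p.1.2 p.1.1.1).comp (CX J P hP)
    have h1 := dim_count (V := CV J P) R (fun e => e.1.1) (fun e => e.1.2.2) (cvt J P []) ?_
    · rw [Fintype.card_coe] at h1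
      rwa [Set.ncard_eq_toFinset_card' , Set.toFinset_card]
    · intro c hc
      obtain ⟨κ', hκ, hκc⟩ := exists_coc
        (MulAction.toPermHom (FreeGroup S) (FreeGroup S ⧸ J)) (CX J P hP c)
      set o : FreeGroup S ⧸ J := QuotientGroup.mk 1 with ho
      have hJ : ∀ a ∈ J, a⁻¹ • o = o := by
        intro a ha
        show (QuotientGroup.mk (a⁻¹ * 1) : FreeGroup S ⧸ J) = _
        rw [QuotientGroup.eq]
        simpa using ha
      have hadd : ∀ a ∈ J, ∀ b, κ' (a * b) o = κ' a o + κ' b o := by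
        intro a ha b
        rw [coc_mul κ' hκ, hJ a ha]
      have hzero := H (fun g => κ' g o) (fun a ha b _ => hadd a ha b) ?_
      · refine ⟨fun x => κ' (Quotient.out x.1)⁻¹ o, ?_⟩
        have key : ∀ (g : FreeGroup S) (x : FreeGroup S ⧸ J), x = cpt J g →
            κ' (Quotient.out x)⁻¹ o = κ' g o := by
          intro g x hx
          have h2 : (QuotientGroup.mk (Quotient.out x) : FreeGroup S ⧸ J) =
            QuotientGroup.mk g⁻¹ := by
            rw [QuotientGroup.out_eq']
            exact hx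
          rw [QuotientGroup.eq] at h2
          have h3 : (Quotient.out x)⁻¹ = ((Quotient.out x)⁻¹ * g⁻¹) * g := by simp
          rw [h3, hadd _ h2, hzero _ h2, zero_add]
        intro e
        obtain ⟨⟨x, s, y⟩, he⟩ := e
        have h2 := CX_apply J P hP c ⟨(x, s, y), he⟩
        simp only at h2 ⊢
        rw [← h2, ← hκc]
        have h3 : y.1 = (FreeGroup.of s)⁻¹ • x.1 := CE_rel J P ((mem_CG J P hP).1 he)
        have h4 : x.1 = cpt J (Quotient.out x.1)⁻¹ := by
          unfold cpt
          rw [inv_inv, QuotientGroup.out_eq']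
        have h5 : y.1 = cpt J ((Quotient.out x.1)⁻¹ * FreeGroup.of s) := by
          rw [cpt_mul, ← h4, h3]
        rw [key _ _ h5, coc_mul κ' hκ]
        have h6 : (Quotient.out x.1)⁻¹⁻¹ • o = x.1 := by
          rw [inv_inv]
          show (QuotientGroup.mk (Quotient.out x.1 * 1) : FreeGroup S ⧸ J) = _
          rw [mul_one, QuotientGroup.out_eq']
        rw [h6]
        ring
      · intro i
        show κ' (FreeGroup.mk (u i ++ r i ++ FreeGroup.invRev (u i))) o = 0
        rw [hmk, mul_assoc, coc_mul κ' hκ, coc_mul κ' hκ, coc_inv κ' hκ]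
        have h2 : cpt J (FreeGroup.mk (u i)) = (FreeGroup.mk (u i))⁻¹ • o := by
          show _ = (QuotientGroup.mk ((FreeGroup.mk (u i))⁻¹ * 1) : FreeGroup S ⧸ J)
          rw [mul_one]
          rfl
        have h3 : (cvt J P (u i)).1 = (FreeGroup.mk (u i))⁻¹ • o := by
          rw [cvt_val J P (Or.inr (hu i)), h2]
        have h4 := congrFun hc ⟨(cvt J P (u i), r i), i, rfl⟩
        have h5 : κ' (FreeGroup.mk (r i)) ((FreeGroup.mk (u i))⁻¹ • o) = 0 := by
          rw [coc_eq_cwl κ' hκ _ hκc, ← h3]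
          exact h4
        have h6 : FreeGroup.mk (u i) • (FreeGroup.mk (r i))⁻¹ • (FreeGroup.mk (u i))⁻¹ • o = o := by
          have h7 := hJ _ (hr i)
          rw [hmk] at h7
          rw [mul_inv_rev, mul_inv_rev, inv_inv, mul_smul, mul_smul] at h7
          exact h7
        rw [h5, h6]
        ring

/-- the Stallings graph of a finitely generated subgroup -/
theorem exists_core {X : Type u} {Z : Type*} [Fintype Z]
    (α : FreeGroup Z →* FreeGroup X) :
    ∃ (W : Type u) (_ : Fintype W) (Δ : LG W X) (o : W), (∀ w, Δ.Conn o w) ∧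
      (∀ z, Δ.Walk o (α (FreeGroup.of z)).toWord o) ∧
      (∀ L, Δ.Walk o L o → FreeGroup.mk L ∈ α.range) ∧ Δ.rr ≤ Fintype.card Z - 1 := by
  have hr : ∀ z : Z, FreeGroup.mk ([] ++ (α (FreeGroup.of z)).toWord ++
      FreeGroup.invRev ([] : List (X × Bool))) ∈ α.range := by
    intro z
    rw [List.nil_append, mk_append]
    have : FreeGroup.mk (FreeGroup.invRev ([] : List (X × Bool))) = 1 := by
      rw [FreeGroup.one_eq_mk]
      rfl
    rw [this, mul_one, FreeGroup.mk_toWord]
    exact ⟨_, rfl⟩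
  have H : ∀ ψ : FreeGroup X → ℚ, (∀ a ∈ α.range, ∀ b ∈ α.range, ψ (a * b) = ψ a + ψ b) →
      (∀ z : Z, ψ (FreeGroup.mk ([] ++ (α (FreeGroup.of z)).toWord ++
        FreeGroup.invRev ([] : List (X × Bool)))) = 0) → ∀ a ∈ α.range, ψ a = 0 := by
    intro ψ hψ h0 a ha
    obtain ⟨g, rfl⟩ := ha
    have hmem : ∀ g, α g ∈ α.range := fun g => ⟨g, rfl⟩
    have hone : ψ (α 1) = 0 := by
      have := hψ (α 1) (hmem 1) (α 1) (hmem 1)
      rw [← map_mul, one_mul] at this
      linarith
    have hof : ∀ z, ψ (α (FreeGroup.of z)) = 0 := by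
      intro z
      have h1 := h0 z
      have : FreeGroup.mk (FreeGroup.invRev ([] : List (X × Bool))) = 1 := by
        rw [FreeGroup.one_eq_mk]
        rfl
      rwa [List.nil_append, mk_append, this, mul_one, FreeGroup.mk_toWord] at h1
    have hinv : ∀ g, ψ (α g) = 0 → ψ (α g⁻¹) = 0 := by
      intro g hg
      have := hψ (α g) (hmem g) (α g⁻¹) (hmem _)
      rw [← map_mul, mul_inv_cancel, hone, hg] at this
      linarith
    induction g using FreeGroup.induction_on with
    | C1 => exact hone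
    | of z => exact hof z
    | inv_of z hz => exact hinv _ (hof z)
    | mul x y hx hy => rw [map_mul, hψ _ (hmem x) _ (hmem y), hx, hy, add_zero]

  obtain ⟨W, hW, Δ, o, v, h1, h2, h3, -, h5, h6⟩ := core_gen (ι := Z) (κ := Empty) α.range
    (fun _ => []) (fun z => (α (FreeGroup.of z)).toWord) (fun k => k.elim) hr (fun k => k.elim) H
  have hv : ∀ z, v z = o := fun z => (LG.walk_nil.1 (h2 z)).symm
  refine ⟨W, hW, Δ, o, h1, fun z => ?_, h5, ?_⟩
  · have := h3 z
    rwa [hv z] at this
  · have h7 : (Set.range fun z => (v z, (α (FreeGroup.of z)).toWord)).ncard ≤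
        Fintype.card Z := by
      rw [← Set.image_univ]
      refine (Set.ncard_image_le (Set.finite_univ)).trans ?_
      rw [Set.ncard_univ, Nat.card_eq_fintype_card]
    have h8 : Δ.comps = {Finset.univ} := by
      ext C
      rw [LG.mem_comps, Finset.mem_singleton]
      have huniv : ∀ w, Δ.comp w = Finset.univ := by
        intro w
        ext w'
        simp only [Finset.mem_univ, iff_true]
        exact LG.mem_comp.2 ((h1 w).symm.trans (h1 w'))
      constructor
      · rintro ⟨w, rfl⟩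
        exact huniv w
      · rintro rfl
        exact ⟨o, (huniv o).symm⟩
    have h9 : Δ.edges Finset.univ = Δ.F := by
      ext ⟨x, s, y⟩
      simp [LG.edges]
    rw [LG.rr, h8, Finset.sum_singleton, h9, Finset.card_univ]
    omega

end Pool.Agent.LIA
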