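import Mathlib

/-!
# Local indicability of amalgams of free groups : definitions

(helper98, problem MP_cf50d6_gt)

Finite folded labelled graphs, their reduced rank, edge orders of free groups, bridges.
Letters are pairs `(s, true)` (the generator `s`) and `(s, false)` (its inverse) as in `FreeGroup`;
words are read from left to right.
-/

set_option autoImplicit false

open scoped Classical

namespace Pool.Agent.LIA

/-- a folded labelled graph with finitely many edges `(u, s, v)` (from `u` to `v`, with label `s`):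
at most one edge with a given label leaves (enters) a given vertex -/
structure LG (V S : Type*) where
  F : Finset (V × S × V)
  det : ∀ {u s v v'}, (u, s, v) ∈ F → (u, s, v') ∈ F → v = v'
  cod : ∀ {u u' s v}, (u, s, v) ∈ F → (u', s, v) ∈ F → u = u'

/-- the inverse letter -/
def linv {S : Type*} (l : S × Bool) : S × Bool := (l.1, !l.2)

/-- the element of the free group given by a letter -/
def lv {S : Type*} (l : S × Bool) : FreeGroup S := FreeGroup.mk [l]

/-- the (unoriented) edge of the Cayley tree which leaves `g` along the letter `l` -/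
def eg {S : Type*} (g : FreeGroup S) (l : S × Bool) : FreeGroup S × S :=
  if l.2 then (g, l.1) else (g * (FreeGroup.of l.1)⁻¹, l.1)

/-- the value of the first `n` letters of an infinite word -/
def pre {S : Type*} (w : ℕ → S × Bool) : ℕ → FreeGroup S
  | 0 => 1
  | n + 1 => pre w n * lv (w n)

/-- an infinite word is reduced -/
def RedW {S : Type*} (w : ℕ → S × Bool) : Prop :=
  ∀ n, (w n).1 = (w (n + 1)).1 → (w n).2 = (w (n + 1)).2

/-- a total order of the edges `(g, s)` of the Cayley tree, invariant under left multiplication,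
such that left multiplication by `g ≠ 1` moves all edges down or all edges up -/
structure EOrd (S : Type*) where
  lo : LinearOrder (FreeGroup S × S)
  inv : ∀ (g a b : FreeGroup S) (s t : S), lo.le (g * a, s) (g * b, t) ↔ lo.le (a, s) (b, t)
  mono : ∀ g : FreeGroup S, g ≠ 1 →
    (∀ a s, lo.lt (g * a, s) (a, s)) ∨ (∀ a s, lo.lt (a, s) (g * a, s))

namespace LG

variable {V W S : Type*}

/-- one step of the graph along the letter `l` -/
def Step (Γ : LG V S) (u : V) (l : S × Bool) (v : V) : Prop :=
  if l.2 then (u, l.1, v) ∈ Γ.F else (v, l.1, u) ∈ Γ.F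

/-- the word `L` can be read from `u` to `v` -/
def Walk (Γ : LG V S) : V → List (S × Bool) → V → Prop
  | u, [], w => u = w
  | u, l :: L, w => ∃ v, Γ.Step u l v ∧ Γ.Walk v L w

/-- `u` and `v` are in the same component -/
def Conn (Γ : LG V S) (u v : V) : Prop := ∃ L, Γ.Walk u L v

/-- the infinite word `w` can be read along the vertices `p` -/
def Ray (Γ : LG V S) (p : ℕ → V) (w : ℕ → S × Bool) : Prop :=
  RedW w ∧ ∀ n, Γ.Step (p n) (w n) (p (n + 1))

/-- there is a reduced infinite word, readable from `v`, with first letter `l`, all of whose edges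
are at most the first one -/
def Good (O : EOrd S) (Γ : LG V S) (v : V) (l : S × Bool) : Prop :=
  ∃ (w : ℕ → S × Bool) (p : ℕ → V), w 0 = l ∧ p 0 = v ∧ Γ.Ray p w ∧
    ∀ n, O.lo.le (eg (pre w n) (w n)) (eg 1 l)

/-- the bridges: edges which are maximal on some line -/
noncomputable def br (O : EOrd S) (Γ : LG V S) : Finset (V × S × V) :=
  Γ.F.filter fun e => Γ.Good O e.1 (e.2.1, true) ∧ Γ.Good O e.2.2 (e.2.1, false)

/-- the graph without the bridges -/
noncomputable def cut (O : EOrd S) (Γ : LG V S) : LG V S where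
  F := Γ.F \ Γ.br O
  det h h' := Γ.det (Finset.mem_sdiff.1 h).1 (Finset.mem_sdiff.1 h').1
  cod h h' := Γ.cod (Finset.mem_sdiff.1 h).1 (Finset.mem_sdiff.1 h').1

/-- the fibre product -/
noncomputable def prod (Γ : LG V S) (Δ : LG W S) : LG (V × W) S where
  F := ((Γ.F ×ˢ Δ.F).filter fun e => e.1.2.1 = e.2.2.1).image
    fun e => ((e.1.1, e.2.1), e.1.2.1, (e.1.2.2, e.2.2.2))
  det := by
    rintro ⟨u₁, u₂⟩ s ⟨v₁, v₂⟩ ⟨v₁', v₂'⟩ h h'
    simp only [Finset.mem_image, Finset.mem_filter, Finset.mem_product, Prod.exists,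
      Prod.mk.injEq] at h h'
    obtain ⟨a, b, c, d, e, f, ⟨⟨h1, h2⟩, h3⟩, ⟨rfl, rfl⟩, rfl, rfl, rfl⟩ := h
    obtain ⟨a', b', c', d', e', f', ⟨⟨h1', h2'⟩, h3'⟩, ⟨rfl, rfl⟩, rfl, rfl, rfl⟩ := h'
    subst h3 h3'
    rw [Γ.det h1 h1', Δ.det h2 h2']
  cod := by
    rintro ⟨u₁, u₂⟩ ⟨u₁', u₂'⟩ s ⟨v₁, v₂⟩ h h'
    simp only [Finset.mem_image, Finset.mem_filter, Finset.mem_product, Prod.exists,
      Prod.mk.injEq] at h h'
    obtain ⟨a, b, c, d, e, f, ⟨⟨h1, h2⟩, h3⟩, ⟨rfl, rfl⟩, rfl, rfl, rfl⟩ := h
    obtain ⟨a', b', c', d', e', f', ⟨⟨h1', h2'⟩, h3'⟩, ⟨rfl, rfl⟩, rfl, rfl, rfl⟩ := h'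
    subst h3 h3'
    rw [Γ.cod h1 h1', Δ.cod h2 h2']

variable [Fintype V]

/-- the component of `v` -/
noncomputable def comp (Γ : LG V S) (v : V) : Finset V := Finset.univ.filter fun u => Γ.Conn v u

/-- the set of the components -/
noncomputable def comps (Γ : LG V S) : Finset (Finset V) := Finset.univ.image Γ.comp

/-- the edges in a component -/
noncomputable def edges (Γ : LG V S) (C : Finset V) : Finset (V × S × V) :=
  Γ.F.filter fun e => e.1 ∈ C

/-- the reduced rank: sum over the components of `max (-χ) 0` -/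
noncomputable def rr (Γ : LG V S) : ℕ := ∑ C ∈ Γ.comps, ((Γ.edges C).card - C.card)

/-- the component `C` has a potential (equivalently it is a tree) -/
def Pot (Γ : LG V S) (C : Finset V) : Prop :=
  ∃ φ : V → FreeGroup S, ∀ u s v, (u, s, v) ∈ Γ.F → u ∈ C → φ v = φ u * FreeGroup.of s

/-- the number of components with a potential -/
noncomputable def tr (Γ : LG V S) : ℕ := (Γ.comps.filter fun C => Γ.Pot C).card

end LG

/-- a group is locally indicable if each nontrivial finitely generated subgroup maps onto `ℤ` -/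
def LocallyIndicable (G : Type*) [Group G] : Prop :=
  ∀ H : Subgroup G, H.FG → H ≠ ⊥ → ∃ f : H →* Multiplicative ℤ, Function.Surjective f

end Pool.Agent.LIA
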