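import Pool.Agent.Lib.MP_cf50d6_gt.Core

/-!
# The finite model of a finitely generated group without homomorphisms onto the integers

(helper36, problem MP_cf50d6_gt, module EX)
-/

set_option autoImplicit false

open scoped Classical

namespace Pool.Agent.LIA

universe u

/-- a homomorphism to the rationals from a finitely generated group without homomorphisms onto the
integers is trivial -/
private theorem ex_hom_rat {H : Type*} [Group H] (hH : Group.FG H)
    (hno : ¬ ∃ f : H →* Multiplicative ℤ, Function.Surjective f)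
    (f : H →* Multiplicative ℚ) : ∀ h, f h = 1 := by
  by_contra hcon
  push Not at hcon
  obtain ⟨h1, hh1⟩ := hcon
  obtain ⟨T, hT⟩ := Group.fg_def.1 hH
  set D : ℤ := ∏ t ∈ T, ((f t).toAdd.den : ℤ) with hD
  have hD0 : D ≠ 0 := by
    rw [hD]
    exact Finset.prod_ne_zero_iff.2 fun t _ => by exact_mod_cast (f t).toAdd.den_nz
  have hint : ∀ h : H, ∃ m : ℤ, (D : ℚ) * (f h).toAdd = m := by
    intro h
    have hmem : h ∈ Subgroup.closure (T : Set H) := by rw [hT]; trivial
    induction hmem using Subgroup.closure_induction with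
    | mem x hx =>
      have h1 : ((f x).toAdd.den : ℤ) ∣ D := Finset.dvd_prod_of_mem _ hx
      obtain ⟨c, hc⟩ := h1
      refine ⟨c * (f x).toAdd.num, ?_⟩
      rw [hc]
      push_cast
      have h2 : ((f x).toAdd.den : ℚ) * (f x).toAdd = (f x).toAdd.num := by
        rw [mul_comm]
        exact Rat.mul_den_eq_num _
      calc ((f x).toAdd.den : ℚ) * (c : ℚ) * (f x).toAdd
          = c * (((f x).toAdd.den : ℚ) * (f x).toAdd) := by ring
        _ = c * ((f x).toAdd.num : ℚ) := by rw [h2]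
    | one => exact ⟨0, by simp⟩
    | mul x y _ _ hx hy =>
      obtain ⟨a, ha⟩ := hx
      obtain ⟨b, hb⟩ := hy
      refine ⟨a + b, ?_⟩
      rw [map_mul, toAdd_mul, mul_add, ha, hb]
      push_cast
      rfl
    | inv x _ hx =>
      obtain ⟨a, ha⟩ := hx
      refine ⟨-a, ?_⟩
      rw [map_inv, toAdd_inv, mul_neg, ha]
      push_cast
      rfl
  -- the subgroup of all values
  let K : AddSubgroup ℤ :=
    { carrier := {m | ∃ h : H, (D : ℚ) * (f h).toAdd = m}
      zero_mem' := ⟨1, by simp⟩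
      add_mem' := by
        rintro a b ⟨x, hx⟩ ⟨y, hy⟩
        refine ⟨x * y, ?_⟩
        rw [map_mul, toAdd_mul, mul_add, hx, hy]
        push_cast
        rfl
      neg_mem' := by
        rintro a ⟨x, hx⟩
        refine ⟨x⁻¹, ?_⟩
        rw [map_inv, toAdd_inv, mul_neg, hx]
        push_cast
        rfl }
  obtain ⟨a, ha⟩ := Int.subgroup_cyclic K
  have ha' : K = AddSubgroup.zmultiples a := by
    rw [ha, AddSubgroup.zmultiples_eq_closure]
  have haK : a ∈ K := by
    rw [ha']
    exact AddSubgroup.mem_zmultiples a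
  have hk : ∀ h : H, ∃ k : ℤ, (D : ℚ) * (f h).toAdd = k * a := by
    intro h
    obtain ⟨m, hm⟩ := hint h
    have h2 : m ∈ K := ⟨h, hm⟩
    rw [ha', AddSubgroup.mem_zmultiples_iff] at h2
    obtain ⟨k, hk⟩ := h2
    refine ⟨k, ?_⟩
    rw [hm, ← hk]
    simp
  have ha0 : a ≠ 0 := by
    rintro rfl
    obtain ⟨k, hk⟩ := hk h1
    rw [Int.cast_zero, mul_zero] at hk
    rcases mul_eq_zero.1 hk with h3 | h3
    · exact hD0 (by exact_mod_cast h3)
    · exact hh1 (by simpa using h3)
  have haQ : (a : ℚ) ≠ 0 := by exact_mod_cast ha0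
  choose k hk using hk
  apply hno
  refine ⟨MonoidHom.mk' (fun h => Multiplicative.ofAdd (k h)) ?_, ?_⟩
  · intro x y
    rw [← ofAdd_add]
    congr 1
    have h3 := hk (x * y)
    rw [map_mul, toAdd_mul, mul_add, hk x, hk y, ← add_mul] at h3
    have h4 := mul_right_cancel₀ haQ h3
    exact_mod_cast h4.symm
  · obtain ⟨h0, hh0⟩ := haK
    intro m
    refine ⟨h0 ^ m.toAdd, ?_⟩
    change Multiplicative.ofAdd (k (h0 ^ m.toAdd)) = m
    have h3 := hk (h0 ^ m.toAdd)
    rw [map_zpow, toAdd_zpow, zsmul_eq_mul] at h3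
    have h4 : (k (h0 ^ m.toAdd) : ℚ) * a = (m.toAdd : ℚ) * a := by
      rw [← h3, ← hh0]
      ring
    have h5 := mul_right_cancel₀ haQ h4
    have h6 : k (h0 ^ m.toAdd) = m.toAdd := by exact_mod_cast h5
    rw [h6]
    rfl

/-- finitely many relations suffice to kill the homomorphisms to the rationals -/
private theorem ex_words {G : Type*} [Group G] {n : ℕ} (σ : FreeGroup (Fin n) →* G)
    (hno : ∀ f : σ.range →* Multiplicative ℚ, ∀ h, f h = 1) :
    ∃ W : Finset (FreeGroup (Fin n)), (∀ w ∈ W, σ w = 1) ∧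
      ∀ ψ : FreeGroup (Fin n) →* Multiplicative ℚ, (∀ w ∈ W, ψ w = 1) → ∀ w, ψ w = 1 := by
  let ab : FreeGroup (Fin n) →* Multiplicative (Fin n → ℚ) :=
    FreeGroup.lift fun j => Multiplicative.ofAdd (Pi.single j 1)
  have hab : ∀ j, (ab (FreeGroup.of j)).toAdd = Pi.single j 1 := by
    intro j
    simp [ab]
  let R : Set (Fin n → ℚ) := {x | ∃ w, σ w = 1 ∧ (ab w).toAdd = x}
  -- every homomorphism to the rationals is a functional of the abelianization
  have hfun : ∀ ψ : FreeGroup (Fin n) →* Multiplicative ℚ, ∃ l : (Fin n → ℚ) →ₗ[ℚ] ℚ,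
      ∀ w, (ψ w).toAdd = l (ab w).toAdd := by
    intro ψ
    let l : (Fin n → ℚ) →ₗ[ℚ] ℚ :=
      ∑ j, (ψ (FreeGroup.of j)).toAdd • LinearMap.proj j
    refine ⟨l, ?_⟩
    have h1 : ψ = (AddMonoidHom.toMultiplicative l.toAddMonoidHom).comp ab := by
      refine FreeGroup.ext_hom _ _ fun j => ?_
      rw [MonoidHom.comp_apply]
      have h2 : l (ab (FreeGroup.of j)).toAdd = (ψ (FreeGroup.of j)).toAdd := by
        rw [hab]
        simp [l, Pi.single_apply]
      change ψ (FreeGroup.of j) = Multiplicative.ofAdd (l (ab (FreeGroup.of j)).toAdd)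
      rw [h2]
      rfl
    intro w
    rw [h1]
    rfl
  have hspan : Submodule.span ℚ R = ⊤ := by
    by_contra hne
    obtain ⟨l, hl0, hl⟩ := Submodule.exists_le_ker_of_lt_top _ (lt_top_iff_ne_top.2 hne)
    let φ : FreeGroup (Fin n) →* Multiplicative ℚ :=
      (AddMonoidHom.toMultiplicative l.toAddMonoidHom).comp ab
    have hφ : ∀ w, σ w = 1 → φ w = 1 := by
      intro w hw
      have h1 : (ab w).toAdd ∈ Submodule.span ℚ R := Submodule.subset_span ⟨w, hw, rfl⟩
      have h2 := hl h1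
      rw [LinearMap.mem_ker] at h2
      change Multiplicative.ofAdd (l (ab w).toAdd) = 1
      rw [h2]
      rfl
    have hsurj : Function.Surjective σ.rangeRestrict := σ.rangeRestrict_surjective
    have hker : σ.rangeRestrict.ker ≤ φ.ker := by
      intro w hw
      rw [MonoidHom.mem_ker] at hw ⊢
      apply hφ
      have := congrArg Subtype.val hw
      simpa using this
    let f' : σ.range →* Multiplicative ℚ :=
      σ.rangeRestrict.liftOfSurjective hsurj ⟨φ, hker⟩
    have hf' : ∀ w, f' (σ.rangeRestrict w) = φ w := by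
      intro w
      exact σ.rangeRestrict.liftOfRightInverse_comp_apply _ _ ⟨φ, hker⟩ w
    apply hl0
    refine LinearMap.pi_ext' fun j => ?_
    refine LinearMap.ext_ring ?_
    have h3 : φ (FreeGroup.of j) = 1 := by rw [← hf']; exact hno f' _
    have h4 : l (ab (FreeGroup.of j)).toAdd = 0 := by
      have h5 : Multiplicative.ofAdd (l (ab (FreeGroup.of j)).toAdd) = 1 := h3
      simpa using h5
    rw [hab] at h4
    simpa using h4
  obtain ⟨b, hbR, hb, hli⟩ := exists_linearIndependent ℚ R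
  have hbfin : b.Finite := hli.setFinite
  have hpre : ∀ x : (Fin n → ℚ), ∃ w, x ∈ b → σ w = 1 ∧ (ab w).toAdd = x := by
    intro x
    by_cases hx : x ∈ b
    · obtain ⟨w, hw⟩ := hbR hx
      exact ⟨w, fun _ => hw⟩
    · exact ⟨1, fun h => absurd h hx⟩
  choose g hg using hpre
  refine ⟨hbfin.toFinset.image g, ?_, ?_⟩
  · intro w hw
    obtain ⟨x, hx, rfl⟩ := Finset.mem_image.1 hw
    exact (hg x (hbfin.mem_toFinset.1 hx)).1
  · intro ψ hψ
    obtain ⟨l, hl⟩ := hfun ψ
    have hl0 : l = 0 := by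
      have h1 : (⊤ : Submodule ℚ (Fin n → ℚ)) ≤ LinearMap.ker l := by
        rw [← hspan, ← hb, Submodule.span_le]
        intro x hx
        have h2 := hψ (g x) (Finset.mem_image_of_mem _ (hbfin.mem_toFinset.2 hx))
        have h3 := hl (g x)
        rw [h2, (hg x hx).2] at h3
        exact h3.symm
      ext x
      have := h1 (Submodule.mem_top (x := Pi.single x 1))
      simpa using this
    intro w
    have h1 := hl w
    rw [hl0] at h1
    simpa using h1

/-- an element of the normal closure is a product of finitely many conjugates -/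
private theorem ex_conj {F Z : Type*} [Group F] (ρ : Z → F) {w : F}
    (hw : w ∈ Subgroup.normalClosure (Set.range ρ)) :
    ∃ T : Finset (F × Z),
      w ∈ Subgroup.closure ((fun p : F × Z => p.1 * ρ p.2 * p.1⁻¹) '' (T : Set (F × Z))) := by
  unfold Subgroup.normalClosure at hw
  induction hw using Subgroup.closure_induction with
  | mem x hx =>
    rw [Group.mem_conjugatesOfSet_iff] at hx
    obtain ⟨a, ⟨z, rfl⟩, hc⟩ := hx
    obtain ⟨c, hc⟩ := isConj_iff.1 hc
    refine ⟨{(c, z)}, Subgroup.subset_closure ⟨(c, z), by simp, hc⟩⟩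
  | one => exact ⟨∅, one_mem _⟩
  | mul x y _ _ hx hy =>
    obtain ⟨T, hT⟩ := hx
    obtain ⟨T', hT'⟩ := hy
    refine ⟨T ∪ T', mul_mem ?_ ?_⟩
    · refine Subgroup.closure_mono (Set.image_mono ?_) hT
      exact_mod_cast Finset.subset_union_left
    · refine Subgroup.closure_mono (Set.image_mono ?_) hT'
      exact_mod_cast Finset.subset_union_right
  | inv x _ hx =>
    obtain ⟨T, hT⟩ := hx
    exact ⟨T, inv_mem hT⟩

/-- the finite model of a finitely generated group without homomorphisms onto the integers -/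
theorem exists_graph {S : Type u} {Z G : Type*} [Group G] (π : FreeGroup S →* G)
    (hπ : Function.Surjective π) (rel : Z → List (S × Bool))
    (hrel : ∀ z, π (FreeGroup.mk (rel z)) = 1)
    (hker : π.ker ≤ Subgroup.normalClosure (Set.range fun z => FreeGroup.mk (rel z)))
    (H : Subgroup G) (hH : H.FG)
    (hno : ¬ ∃ f : H →* Multiplicative ℤ, Function.Surjective f) :
    ∃ (V : Type u) (_ : Fintype V) (Γ : LG V S) (o : V) (P : Finset (V × Z)),
      (∀ x, Γ.Conn o x) ∧ (∀ p ∈ P, Γ.Walk p.1 (rel p.2) p.1) ∧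
      Γ.F.card + 1 ≤ Fintype.card V + P.card ∧
      ∀ h ∈ H, ∃ L, Γ.Walk o L o ∧ π (FreeGroup.mk L) = h := by
  obtain ⟨T, hT⟩ := hH
  -- the generators of `H`
  let e := T.equivFin
  let y : Fin T.card → G := fun j => (e.symm j : G)
  have hy : Subgroup.closure (Set.range y) = H := by
    rw [← hT]
    congr 1
    ext x
    constructor
    · rintro ⟨j, rfl⟩
      exact (e.symm j).2
    · intro hx
      exact ⟨e ⟨x, hx⟩, by simp [y]⟩
  choose k hk using fun j => hπ (y j)
  let σ : FreeGroup (Fin T.card) →* G := FreeGroup.lift y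
  let κ : FreeGroup (Fin T.card) →* FreeGroup S := FreeGroup.lift k
  have hκ : ∀ w, π (κ w) = σ w := by
    intro w
    have h1 : π.comp κ = σ := by
      refine FreeGroup.ext_hom _ _ fun j => ?_
      simp [κ, σ, hk]
    rw [← h1]
    rfl
  have hσr : σ.range = H := by
    rw [← hy]
    exact FreeGroup.range_lift_eq_closure
  have hHfg : Group.FG H := by
    rw [Group.fg_iff_subgroup_fg]
    exact ⟨T, hT⟩
  have hnoH : ∀ f : H →* Multiplicative ℚ, ∀ h, f h = 1 := fun f => ex_hom_rat hHfg hno f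
  have hnoR : ∀ f : σ.range →* Multiplicative ℚ, ∀ h, f h = 1 := by
    rw [hσr]
    exact hnoH
  obtain ⟨W, hW1, hW2⟩ := ex_words σ hnoR
  -- the conjugates of the relators
  have hconj : ∀ w : FreeGroup (Fin T.card), ∃ U : Finset (FreeGroup S × Z), w ∈ W →
      κ w ∈ Subgroup.closure ((fun p : FreeGroup S × Z =>
        p.1 * FreeGroup.mk (rel p.2) * p.1⁻¹) '' (U : Set (FreeGroup S × Z))) := by
    intro w
    by_cases hw : w ∈ W
    · have h1 : κ w ∈ π.ker := by
        rw [MonoidHom.mem_ker, hκ]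
        exact hW1 w hw
      obtain ⟨U, hU⟩ := ex_conj (fun z => FreeGroup.mk (rel z)) (hker h1)
      exact ⟨U, fun _ => hU⟩
    · exact ⟨∅, fun h => absurd h hw⟩
  choose U hU using hconj
  let I : Finset (FreeGroup S × Z) := W.biUnion U
  let cj : FreeGroup S × Z → FreeGroup S := fun p => p.1 * FreeGroup.mk (rel p.2) * p.1⁻¹
  have hI : ∀ w ∈ W, κ w ∈ Subgroup.closure (cj '' (I : Set (FreeGroup S × Z))) := by
    intro w hw
    refine Subgroup.closure_mono (Set.image_mono ?_) (hU w hw)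
    intro p hp
    exact Finset.mem_coe.2 (Finset.mem_biUnion.2 ⟨w, hw, hp⟩)
  let J : Subgroup (FreeGroup S) := Subgroup.closure (Set.range k ∪ cj '' (I : Set _))
  let u' : I → List (S × Bool) := fun p => p.1.1.toWord
  let r' : I → List (S × Bool) := fun p => rel p.1.2
  let h' : Fin T.card → List (S × Bool) := fun j => (k j).toWord
  have hcj : ∀ i : I, FreeGroup.mk (u' i ++ r' i ++ FreeGroup.invRev (u' i)) = cj i.1 := by
    intro i
    rw [mk_append, mk_append, ← FreeGroup.inv_mk]
    simp [u', r', cj, FreeGroup.mk_toWord]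
  have hJ1 : ∀ i : I, FreeGroup.mk (u' i ++ r' i ++ FreeGroup.invRev (u' i)) ∈ J := by
    intro i
    rw [hcj]
    exact Subgroup.subset_closure (Or.inr ⟨i.1, i.2, rfl⟩)
  have hJ2 : ∀ j, FreeGroup.mk (h' j) ∈ J := by
    intro j
    rw [FreeGroup.mk_toWord]
    exact Subgroup.subset_closure (Or.inl ⟨j, rfl⟩)
  have hκJ : ∀ w, κ w ∈ J := by
    intro w
    have h1 : κ.range ≤ J := by
      rw [show κ.range = Subgroup.closure (Set.range k) from FreeGroup.range_lift_eq_closure]
      exact Subgroup.closure_mono Set.subset_union_left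
    exact h1 ⟨w, rfl⟩
  have hmain : ∀ ψ : FreeGroup S → ℚ, (∀ a ∈ J, ∀ b ∈ J, ψ (a * b) = ψ a + ψ b) →
      (∀ i, ψ (FreeGroup.mk (u' i ++ r' i ++ FreeGroup.invRev (u' i))) = 0) →
      ∀ a ∈ J, ψ a = 0 := by
    intro ψ hψ hψ0
    let f : J →* Multiplicative ℚ :=
      MonoidHom.mk' (fun a => Multiplicative.ofAdd (ψ a.1)) (by
        intro a b
        rw [← ofAdd_add]
        congr 1
        exact hψ a.1 a.2 b.1 b.2)
    have hf : ∀ a (ha : a ∈ J), f ⟨a, ha⟩ = 1 ↔ ψ a = 0 := by
      intro a ha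
      change Multiplicative.ofAdd (ψ a) = 1 ↔ _
      simp
    -- the subgroup where `ψ` vanishes
    let K : Subgroup (FreeGroup S) := f.ker.map J.subtype
    have hK : ∀ a, a ∈ K → ψ a = 0 := by
      rintro a ⟨⟨b, hb⟩, hb1, rfl⟩
      exact (hf b hb).1 hb1
    have hK' : ∀ a, a ∈ J → ψ a = 0 → a ∈ K := by
      intro a ha h0
      exact ⟨⟨a, ha⟩, (hf a ha).2 h0, rfl⟩
    have hKc : cj '' (I : Set _) ⊆ K := by
      rintro _ ⟨p, hp, rfl⟩
      refine hK' _ (Subgroup.subset_closure (Or.inr ⟨p, hp, rfl⟩)) ?_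
      rw [← hψ0 ⟨p, hp⟩, hcj]
    let θ : FreeGroup (Fin T.card) →* Multiplicative ℚ :=
      f.comp (κ.codRestrict J hκJ)
    have hθ : ∀ w, θ w = 1 := by
      apply hW2
      intro w hw
      have h1 : κ w ∈ K := (Subgroup.closure_le K).2 hKc (hI w hw)
      exact (hf (κ w) (hκJ w)).2 (hK _ h1)
    have hKk : Set.range k ⊆ K := by
      rintro _ ⟨j, rfl⟩
      have h1 := hθ (FreeGroup.of j)
      have h2 := (hf (κ (FreeGroup.of j)) (hκJ _)).1 h1
      have h3 : κ (FreeGroup.of j) = k j := by simp [κ]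
      rw [h3] at h2
      exact hK' _ (Subgroup.subset_closure (Or.inl ⟨j, rfl⟩)) h2
    have hJK : J ≤ K := (Subgroup.closure_le K).2 (Set.union_subset hKk hKc)
    intro a ha
    exact hK a (hJK ha)
  obtain ⟨V, hV, Γ, o, v, h1, h2, h3, h4, h5, h6⟩ := core_gen J u' r' h' hJ1 hJ2 hmain
  refine ⟨V, hV, Γ, o, Finset.univ.image fun i : I => (v i, i.1.2), h1, ?_, ?_, ?_⟩
  · intro p hp
    obtain ⟨i, _, rfl⟩ := Finset.mem_image.1 hp
    exact h3 i
  · refine h6.trans (Nat.add_le_add_left ?_ _)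
    have h7 : (Set.range fun i : I => (v i, r' i)) =
        (fun q : V × Z => (q.1, rel q.2)) '' ((Finset.univ.image fun i : I => (v i, i.1.2) :
          Finset (V × Z)) : Set (V × Z)) := by
      ext x
      simp only [Set.mem_range, Set.mem_image, Finset.coe_image, Finset.coe_univ, Set.image_univ]
      constructor
      · rintro ⟨i, rfl⟩
        exact ⟨_, ⟨i, rfl⟩, rfl⟩
      · rintro ⟨_, ⟨i, rfl⟩, rfl⟩
        exact ⟨i, rfl⟩
    rw [h7]
    refine (Set.ncard_image_le (Finset.finite_toSet _)).trans ?_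
    rw [Set.ncard_coe_finset]
  · intro x hx
    rw [← hy] at hx
    induction hx using Subgroup.closure_induction with
    | mem x hx =>
      obtain ⟨j, rfl⟩ := hx
      refine ⟨h' j, h4 j, ?_⟩
      rw [FreeGroup.mk_toWord, hk]
    | one => exact ⟨[], rfl, map_one π⟩
    | mul x y _ _ hx hy =>
      obtain ⟨L, hL, hL'⟩ := hx
      obtain ⟨M, hM, hM'⟩ := hy
      refine ⟨L ++ M, LG.walk_append.2 ⟨o, hL, hM⟩, ?_⟩
      rw [mk_append, map_mul, hL', hM']
    | inv x _ hx =>
      obtain ⟨L, hL, hL'⟩ := hx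
      refine ⟨FreeGroup.invRev L, LG.walk_symm hL, ?_⟩
      rw [← FreeGroup.inv_mk, map_inv, hL']

end Pool.Agent.LIA
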