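import Pool.Agent.Lib.MP_cf50d6_gt.Cnt

/-!
# Positive Euler characteristic: everything is a tree of trees

(helper91, problem MP_cf50d6_gt, module FIN)
-/

set_option autoImplicit false

open scoped Classical

namespace Pool.Agent.LIA

private theorem mk_toWord_fin {S : Type*} (g : FreeGroup S) : FreeGroup.mk g.toWord = g :=
  FreeGroup.mk_toWord

private theorem mk_invRev_fin {S : Type*} (L : List (S × Bool)) :
    FreeGroup.mk (FreeGroup.invRev L) = (FreeGroup.mk L)⁻¹ := by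
  rw [FreeGroup.inv_mk]

namespace LG

variable {V S : Type*} {Γ : LG V S}

private theorem fin_pot_walk [Fintype V] {C : Finset V} (hC : C ∈ Γ.comps) {φ : V → FreeGroup S}
    (hφ : ∀ u s v, (u, s, v) ∈ Γ.F → u ∈ C → φ v = φ u * FreeGroup.of s) {u v : V}
    {L : List (S × Bool)} (hu : u ∈ C) (h : Γ.Walk u L v) : φ v = φ u * FreeGroup.mk L := by
  induction L generalizing u with
  | nil =>
    obtain rfl := walk_nil.1 h
    rw [← FreeGroup.one_eq_mk, mul_one]
  | cons l L ih =>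
    obtain ⟨x, hx, hL⟩ := h
    have hxC := mem_of_step hC hu hx
    have h1 : φ x = φ u * lv l := by
      obtain ⟨s, b⟩ := l
      cases b
      · rw [step_false] at hx
        rw [hφ _ _ _ hx hxC]
        simp
      · rw [step_true] at hx
        rw [hφ _ _ _ hx hu]
        simp
    rw [ih hxC hL, h1, mk_cons, mul_assoc]

private theorem fin_pot_of_closed [Fintype V] {C : Finset V} (hC : C ∈ Γ.comps)
    (h : ∀ v ∈ C, ∀ L, Γ.Walk v L v → FreeGroup.mk L = 1) : Γ.Pot C := by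
  obtain ⟨o, ho⟩ := nonempty_of_mem_comps hC
  have h1 : ∀ x : V, ∃ L : List (S × Bool), x ∈ C → Γ.Walk o L x := by
    intro x
    by_cases hx : x ∈ C
    · obtain ⟨L, hL⟩ := conn_of_mem_comps hC ho hx
      exact ⟨L, fun _ => hL⟩
    · exact ⟨[], fun h => absurd h hx⟩
  choose L hL using h1
  refine ⟨fun x => FreeGroup.mk (L x), fun u s v he hu => ?_⟩
  have hv : v ∈ C := (mem_of_edge hC he).1 hu
  have h2 : Γ.Walk o (L u ++ ([(s, true)] ++ FreeGroup.invRev (L v))) o := by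
    rw [walk_append]
    refine ⟨u, hL u hu, ?_⟩
    rw [walk_append]
    exact ⟨v, walk_singleton.2 (step_true.2 he), walk_symm (hL v hv)⟩
  have h3 := h o ho _ h2
  rw [mk_append, mk_append, mk_invRev_fin] at h3
  have h4 : FreeGroup.mk (L u) * FreeGroup.of s * (FreeGroup.mk (L v))⁻¹ = 1 := by
    rw [mul_assoc]
    exact h3
  exact (mul_inv_eq_one.1 h4).symm

end LG

open LG

/-- image of a walk -/
private theorem fin_walk_map {Ω T X Z : Type*} {Γ : LG Ω X} {P : LG T Z} {a : T → Ω}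
    {α : FreeGroup Z →* FreeGroup X}
    (ha : ∀ t z t', (t, z, t') ∈ P.F → Γ.Walk (a t) (α (FreeGroup.of z)).toWord (a t'))
    {t t' : T} {L : List (Z × Bool)} (h : P.Walk t L t') :
    ∃ M, Γ.Walk (a t) M (a t') ∧ FreeGroup.mk M = α (FreeGroup.mk L) := by
  induction L generalizing t with
  | nil =>
    obtain rfl := walk_nil.1 h
    exact ⟨[], rfl, by rw [← FreeGroup.one_eq_mk, ← FreeGroup.one_eq_mk, map_one]⟩
  | cons l L ih =>
    obtain ⟨x, hx, hL⟩ := h
    obtain ⟨M, hM, hM'⟩ := ih hL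
    obtain ⟨z, b⟩ := l
    cases b
    · rw [step_false] at hx
      refine ⟨FreeGroup.invRev (α (FreeGroup.of z)).toWord ++ M, ?_, ?_⟩
      · exact walk_append.2 ⟨_, walk_symm (ha _ _ _ hx), hM⟩
      · rw [mk_append, mk_invRev_fin, mk_toWord_fin, hM', mk_cons, map_mul, lv_false, map_inv]
    · rw [step_true] at hx
      refine ⟨(α (FreeGroup.of z)).toWord ++ M, ?_, ?_⟩
      · exact walk_append.2 ⟨_, ha _ _ _ hx, hM⟩
      · rw [mk_append, mk_toWord_fin, hM', mk_cons, map_mul, lv_true]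

private theorem fin_conn_map {Ω T X Z : Type*} {Γ : LG Ω X} {P : LG T Z} {a : T → Ω}
    {α : FreeGroup Z →* FreeGroup X}
    (ha : ∀ t z t', (t, z, t') ∈ P.F → Γ.Walk (a t) (α (FreeGroup.of z)).toWord (a t'))
    {t t' : T} (h : P.Conn t t') : Γ.Conn (a t) (a t') := by
  obtain ⟨L, hL⟩ := h
  obtain ⟨M, hM, -⟩ := fin_walk_map ha hL
  exact ⟨M, hM⟩

private theorem fin_pot {Ω T X Z : Type*} [Fintype Ω] [Fintype T] {Γ : LG Ω X} {P : LG T Z}
    {a : T → Ω} {α : FreeGroup Z →* FreeGroup X}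
    (hα : ∀ t L, P.Walk t L t → α (FreeGroup.mk L) = 1 → FreeGroup.mk L = 1)
    (ha : ∀ t z t', (t, z, t') ∈ P.F → Γ.Walk (a t) (α (FreeGroup.of z)).toWord (a t'))
    {D : Finset T} (hD : D ∈ P.comps) {t : T} (ht : t ∈ D) (h : Γ.Pot (Γ.comp (a t))) :
    P.Pot D := by
  obtain ⟨φ, hφ⟩ := h
  refine fin_pot_of_closed hD fun x hx L hL => ?_
  obtain ⟨M, hM, hM'⟩ := fin_walk_map ha hL
  have hxC : a x ∈ Γ.comp (a t) :=
    mem_comp.2 (fin_conn_map ha (conn_of_mem_comps hD ht hx))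
  have h1 := fin_pot_walk (comp_mem_comps (a t)) hφ hxC hM
  have h2 : FreeGroup.mk M = 1 := by
    have := congrArg (fun y => (φ (a x))⁻¹ * y) h1
    simpa using this.symm
  rw [h2] at hM'
  exact hα x L hL hM'.symm

/-- if the Euler characteristic is positive, then everything is a tree of trees -/
theorem exists_potential {Ω T X Z G : Type*} [Fintype Ω] [Fintype T] [Group G] (Γ : LG Ω X)
    (P : LG T Z) (a b : T → Ω) (α β : FreeGroup Z →* FreeGroup X)
    (hα : ∀ t L, P.Walk t L t → α (FreeGroup.mk L) = 1 → FreeGroup.mk L = 1)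
    (hβ : ∀ t L, P.Walk t L t → β (FreeGroup.mk L) = 1 → FreeGroup.mk L = 1)
    (ha : ∀ t z t', (t, z, t') ∈ P.F → Γ.Walk (a t) (α (FreeGroup.of z)).toWord (a t'))
    (hb : ∀ t z t', (t, z, t') ∈ P.F → Γ.Walk (b t) (β (FreeGroup.of z)).toWord (b t'))
    (hconn : ∀ x y, Relation.EqvGen (fun x y => Γ.Conn x y ∨ ∃ t, a t = x ∧ b t = y) x y)
    (hrr : P.rr ≤ Γ.rr)
    (hcard : Γ.F.card + Fintype.card T + 1 ≤ Fintype.card Ω + P.F.card)
    (i : FreeGroup X →* G) (τ : T → G)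
    (hτ : ∀ t z t', (t, z, t') ∈ P.F →
      τ t * i (β (FreeGroup.of z)) = i (α (FreeGroup.of z)) * τ t') :
    ∃ φ : Ω → G, (∀ u x v, (u, x, v) ∈ Γ.F → φ v = φ u * i (FreeGroup.of x)) ∧
      ∀ t, φ (b t) = φ (a t) * τ t := by
  -- the nerve
  have hrep : ∀ D : {D // D ∈ P.comps}, ∃ t, t ∈ D.1 := fun D => nonempty_of_mem_comps D.2
  choose rep hrep using hrep
  let s : {D // D ∈ P.comps} → {C // C ∈ Γ.comps} := fun D => ⟨Γ.comp (a (rep D)), comp_mem_comps _⟩
  let e : {D // D ∈ P.comps} → {C // C ∈ Γ.comps} := fun D => ⟨Γ.comp (b (rep D)), comp_mem_comps _⟩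
  have hs : ∀ t : T, s ⟨P.comp t, comp_mem_comps t⟩ = ⟨Γ.comp (a t), comp_mem_comps _⟩ := by
    intro t
    apply Subtype.ext
    refine comp_eq_iff.2 (fin_conn_map ha ?_)
    exact (mem_comp.1 (hrep ⟨P.comp t, comp_mem_comps t⟩)).symm
  have he : ∀ t : T, e ⟨P.comp t, comp_mem_comps t⟩ = ⟨Γ.comp (b t), comp_mem_comps _⟩ := by
    intro t
    apply Subtype.ext
    refine comp_eq_iff.2 (fin_conn_map hb ?_)
    exact (mem_comp.1 (hrep ⟨P.comp t, comp_mem_comps t⟩)).symm
  have hnerve : ∀ q q', Relation.EqvGen (MAdj s e) q q' := by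
    rintro ⟨C, hC⟩ ⟨C', hC'⟩
    obtain ⟨x, rfl⟩ := mem_comps.1 hC
    obtain ⟨y, rfl⟩ := mem_comps.1 hC'
    have h1 : ∀ x y : Ω, Relation.EqvGen (fun x y => Γ.Conn x y ∨ ∃ t, a t = x ∧ b t = y) x y →
        Relation.EqvGen (MAdj s e) ⟨Γ.comp x, comp_mem_comps x⟩ ⟨Γ.comp y, comp_mem_comps y⟩ := by
      intro x y h
      induction h with
      | rel x y h =>
        rcases h with h | ⟨t, rfl, rfl⟩
        · have h2 : (⟨Γ.comp x, comp_mem_comps x⟩ : {C // C ∈ Γ.comps}) =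
              ⟨Γ.comp y, comp_mem_comps y⟩ := Subtype.ext (comp_eq_iff.2 h)
          rw [h2]
          exact Relation.EqvGen.refl _
        · exact Relation.EqvGen.rel _ _ ⟨_, hs t, he t⟩
      | refl x => exact Relation.EqvGen.refl _
      | symm x y _ ih => exact Relation.EqvGen.symm _ _ ih
      | trans x y z _ _ ih1 ih2 => exact Relation.EqvGen.trans _ _ _ ih1 ih2
    exact h1 x y (hconn x y)
  -- counting
  have hΓ := card_eq Γ
  have hP := card_eq P
  have htr : P.tr + 1 ≤ Γ.tr := by omega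
  have hpotP : ∀ D : {D // D ∈ P.comps}, Γ.Pot (s D).1 ∨ Γ.Pot (e D).1 → P.Pot D.1 := by
    intro D h
    rcases h with h | h
    · exact fin_pot hα ha D.2 (hrep D) h
    · exact fin_pot hβ hb D.2 (hrep D) h
  have hcardT : (Finset.univ.filter fun q : {C // C ∈ Γ.comps} => Γ.Pot q.1).card = Γ.tr := by
    unfold tr
    refine Finset.card_bij (fun q _ => q.1) ?_ ?_ ?_
    · intro q hq
      exact Finset.mem_filter.2 ⟨q.2, (Finset.mem_filter.1 hq).2⟩
    · intro q _ q' _ h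
      exact Subtype.ext h
    · intro C hC
      exact ⟨⟨C, (Finset.mem_filter.1 hC).1⟩,
        Finset.mem_filter.2 ⟨Finset.mem_univ _, (Finset.mem_filter.1 hC).2⟩, rfl⟩
  have hcardE : (Finset.univ.filter fun q : {D // D ∈ P.comps} => P.Pot q.1).card = P.tr := by
    unfold tr
    refine Finset.card_bij (fun q _ => q.1) ?_ ?_ ?_
    · intro q hq
      exact Finset.mem_filter.2 ⟨q.2, (Finset.mem_filter.1 hq).2⟩
    · intro q _ q' _ h
      exact Subtype.ext h
    · intro C hC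
      exact ⟨⟨C, (Finset.mem_filter.1 hC).1⟩,
        Finset.mem_filter.2 ⟨Finset.mem_univ _, (Finset.mem_filter.1 hC).2⟩, rfl⟩
  have hall : (Finset.univ.filter fun q : {C // C ∈ Γ.comps} => Γ.Pot q.1) = Finset.univ := by
    by_contra hne
    have h1 := gl_boundary s e hnerve _ hne
    have h2 : (Finset.univ.filter fun q : {C // C ∈ Γ.comps} => Γ.Pot q.1).card ≤
        (Finset.univ.filter fun q : {D // D ∈ P.comps} => P.Pot q.1).card := by
      refine h1.trans (Finset.card_le_card fun D hD => ?_)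
      simp only [Finset.mem_filter, Finset.mem_univ, true_and] at hD
      exact Finset.mem_filter.2 ⟨Finset.mem_univ _, hpotP D hD⟩
    rw [hcardT, hcardE] at h2
    omega
  have hallC : ∀ q : {C // C ∈ Γ.comps}, Γ.Pot q.1 := by
    intro q
    have : q ∈ (Finset.univ.filter fun q : {C // C ∈ Γ.comps} => Γ.Pot q.1) := by
      rw [hall]
      exact Finset.mem_univ _
    exact (Finset.mem_filter.1 this).2
  have hallP : (Finset.univ.filter fun q : {D // D ∈ P.comps} => P.Pot q.1) = Finset.univ := by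
    ext q
    simp only [Finset.mem_filter, Finset.mem_univ, true_and, iff_true]
    exact hpotP q (Or.inl (hallC _))
  have hcardQ : Fintype.card {D // D ∈ P.comps} + 1 ≤ Fintype.card {C // C ∈ Γ.comps} := by
    rw [hall, Finset.card_univ] at hcardT
    rw [hallP, Finset.card_univ] at hcardE
    omega
  -- the global potential of the graph
  choose pot hpot using hallC
  let Φ : Ω → FreeGroup X := fun ω => pot ⟨Γ.comp ω, comp_mem_comps ω⟩ ω
  have hΦw : ∀ u v L, Γ.Walk u L v → Φ v = Φ u * FreeGroup.mk L := by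
    intro u v L h
    have h1 : (⟨Γ.comp v, comp_mem_comps v⟩ : {C // C ∈ Γ.comps}) =
        ⟨Γ.comp u, comp_mem_comps u⟩ := Subtype.ext (comp_eq_iff.2 (Conn.symm ⟨L, h⟩))
    have h2 : Φ v = pot ⟨Γ.comp u, comp_mem_comps u⟩ v := by
      change pot ⟨Γ.comp v, comp_mem_comps v⟩ v = _
      rw [h1]
    rw [h2]
    exact fin_pot_walk (comp_mem_comps u) (hpot ⟨Γ.comp u, comp_mem_comps u⟩)
      (self_mem_comp u) h
  let γ : T → G := fun t => i (Φ (a t)) * τ t * (i (Φ (b t)))⁻¹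
  have hγe : ∀ t z t', (t, z, t') ∈ P.F → γ t' = γ t := by
    intro t z t' h
    have h1 := hΦw _ _ _ (ha t z t' h)
    have h2 := hΦw _ _ _ (hb t z t' h)
    rw [mk_toWord_fin] at h1 h2
    have h3 := hτ t z t' h
    have h4 : τ t' = (i (α (FreeGroup.of z)))⁻¹ * (τ t * i (β (FreeGroup.of z))) := by
      rw [h3, inv_mul_cancel_left]
    change i (Φ (a t')) * τ t' * (i (Φ (b t')))⁻¹ = i (Φ (a t)) * τ t * (i (Φ (b t)))⁻¹
    rw [h1, h2, h4, map_mul, map_mul]
    group
  have hγ : ∀ t t', P.Conn t t' → γ t' = γ t := by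
    intro t t' h
    refine Conn.induction (p := fun x => γ x = γ t) rfl ?_ h
    intro x l y hx hxy
    obtain ⟨z, c⟩ := l
    cases c
    · rw [step_false] at hxy
      rw [← hx, hγe _ _ _ hxy]
    · rw [step_true] at hxy
      rw [hγe _ _ _ hxy, hx]
  obtain ⟨h, hh⟩ := gl_potential s e hnerve hcardQ fun D => γ (rep D)
  refine ⟨fun ω => h ⟨Γ.comp ω, comp_mem_comps ω⟩ * i (Φ ω), ?_, ?_⟩
  · intro u x v hF
    have h1 : (⟨Γ.comp v, comp_mem_comps v⟩ : {C // C ∈ Γ.comps}) =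
        ⟨Γ.comp u, comp_mem_comps u⟩ := Subtype.ext (comp_eq_iff.2 (conn_of_mem hF).symm)
    have h2 := hΦw u v [(x, true)] (walk_singleton.2 (step_true.2 hF))
    change h ⟨Γ.comp v, comp_mem_comps v⟩ * i (Φ v) =
      h ⟨Γ.comp u, comp_mem_comps u⟩ * i (Φ u) * i (FreeGroup.of x)
    rw [h1, h2, map_mul, mul_assoc]
    rfl
  · intro t
    have h1 := hh ⟨P.comp t, comp_mem_comps t⟩
    rw [hs, he] at h1
    have h2 : γ (rep ⟨P.comp t, comp_mem_comps t⟩) = γ t :=
      hγ _ _ (mem_comp.1 (hrep ⟨P.comp t, comp_mem_comps t⟩))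
    change h ⟨Γ.comp (b t), comp_mem_comps (b t)⟩ * i (Φ (b t)) =
      h ⟨Γ.comp (a t), comp_mem_comps (a t)⟩ * i (Φ (a t)) * τ t
    rw [h1]
    simp only [h2]
    change h ⟨Γ.comp (a t), comp_mem_comps (a t)⟩ * (i (Φ (a t)) * τ t * (i (Φ (b t)))⁻¹) *
      i (Φ (b t)) = _
    group

end Pool.Agent.LIA
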