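import Pool.Agent.Lib.MP_cf50d6_gt.Defs

/-!
# Graphs of free groups : definitions

(helper98, problem MP_cf50d6_gt)
-/

set_option autoImplicit false

open scoped Classical

namespace Pool.Agent.LIA

universe u

/-- `κ` is a strengthened Hanna Neumann constant of the homomorphism `α` between free groups: for
every finite folded graph `Γ` labelled by `X` and every finite graph `P` labelled by `Z`, whose
vertices are vertices of `Γ` and whose edges `(t, z, t')` are such that the word `α z` is readable
in `Γ` from `t` to `t'`, the reduced rank of `P` is at most `κ` times the reduced rank of `Γ` -/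
def HNBound {Z X : Type*} (α : FreeGroup Z →* FreeGroup X) (κ : ℚ) : Prop :=
  ∀ (V T : Type u) [Fintype V] [Fintype T] (Γ : LG V X) (P : LG T Z) (a : T → V),
    Function.Injective a →
    (∀ t z t', (t, z, t') ∈ P.F → Γ.Walk (a t) (α (FreeGroup.of z)).toWord (a t')) →
    (P.rr : ℚ) ≤ κ * Γ.rr

/-- a graph of free groups whose edge groups are finitely generated: vertices `I`, vertex groups
`FreeGroup (X i)`, edges `J`, the edge `j` goes from `s j` to `t j`, and its group is free of rank
`r j` and is embedded in the two vertex groups by `α j` and `β j` -/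
structure GFG where
  I : Type u
  J : Type u
  X : I → Type u
  s : J → I
  t : J → I
  r : J → ℕ
  α : ∀ j, FreeGroup (Fin (r j)) →* FreeGroup (X (s j))
  β : ∀ j, FreeGroup (Fin (r j)) →* FreeGroup (X (t j))
  hα : ∀ j, Function.Injective (α j)
  hβ : ∀ j, Function.Injective (β j)

namespace GFG

/-- the relators `j · β(z) · j⁻¹ · α(z)⁻¹` -/
def rels (A : GFG.{u}) : Set (FreeGroup ((Σ i, A.X i) ⊕ A.J)) :=
  Set.range fun p : Σ j, Fin (A.r j) =>
    FreeGroup.of (Sum.inr p.1) *
      FreeGroup.map (fun x => Sum.inl ⟨A.t p.1, x⟩) (A.β p.1 (FreeGroup.of p.2)) *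
      (FreeGroup.of (Sum.inr p.1))⁻¹ *
      (FreeGroup.map (fun x => Sum.inl ⟨A.s p.1, x⟩) (A.α p.1 (FreeGroup.of p.2)))⁻¹

/-- the group generated by the vertex groups and one letter for each edge: the fundamental group of
the graph of spaces whose vertex spaces are all joined at one point -/
abbrev Grp (A : GFG.{u}) : Type u := PresentedGroup A.rels

/-- the weight condition for the constants `κ`, `κ'` of the two embeddings of the edge groups -/
def LightFor (A : GFG.{u}) (κ κ' : A.J → ℚ) : Prop :=
  ∃ w : A.J → ℚ, (∀ j, 0 ≤ w j ∧ w j ≤ 1) ∧ ∀ (i : A.I) (B : Finset A.J),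
    ∑ j ∈ B with A.s j = i, w j * κ j + ∑ j ∈ B with A.t j = i, (1 - w j) * κ' j ≤ 1

/-- the weight condition for the ranks of the edge groups -/
def Light (A : GFG.{u}) : Prop :=
  ∃ w : A.J → ℚ, (∀ j, 0 ≤ w j ∧ w j ≤ 1) ∧ ∀ (i : A.I) (B : Finset A.J),
    ∑ j ∈ B with A.s j = i, w j * ((A.r j - 1 : ℕ) : ℚ) +
      ∑ j ∈ B with A.t j = i, (1 - w j) * ((A.r j - 1 : ℕ) : ℚ) ≤ 1

end GFG

end Pool.Agent.LIA
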