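import Pool.Agent.Lib.MP_cf50d6_gt.Basic

/-!
# An HNN extension of the free group of rank two with associated subgroups of rank three which is
not locally indicable

(helper98, problem MP_cf50d6_gt)
-/

set_option autoImplicit false

open scoped Classical

namespace Pool.Agent.LIA

/-- the exchange of the two levels, with `p` on one arrow -/
private def rk3Shift (p : FreeGroup (Fin 3)) : Equiv.Perm (Fin 2 × FreeGroup (Fin 3)) where
  toFun x := match x with
    | (0, g) => (1, p * g)
    | (1, g) => (0, g)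
  invFun x := match x with
    | (0, g) => (1, g)
    | (1, g) => (0, p⁻¹ * g)
  left_inv := by
    rintro ⟨i, g⟩
    fin_cases i <;> simp
  right_inv := by
    rintro ⟨i, g⟩
    fin_cases i <;> simp

private theorem rk3Shift_zero (p g : FreeGroup (Fin 3)) : rk3Shift p (0, g) = (1, p * g) := rfl

private theorem rk3Shift_one (p g : FreeGroup (Fin 3)) : rk3Shift p (1, g) = (0, g) := rfl

private theorem rk3Shift_inv_zero (p g : FreeGroup (Fin 3)) : (rk3Shift p)⁻¹ (0, g) = (1, g) := rfl

/-- multiplication on each level -/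
private def rk3Lev (q : Fin 2 → FreeGroup (Fin 3)) : Equiv.Perm (Fin 2 × FreeGroup (Fin 3)) where
  toFun x := (x.1, q x.1 * x.2)
  invFun x := (x.1, (q x.1)⁻¹ * x.2)
  left_inv := by
    rintro ⟨i, g⟩
    simp
  right_inv := by
    rintro ⟨i, g⟩
    simp

private theorem rk3Lev_apply (q : Fin 2 → FreeGroup (Fin 3)) (i : Fin 2) (g : FreeGroup (Fin 3)) :
    rk3Lev q (i, g) = (i, q i * g) := rfl

private theorem rk3_inj (ρ : FreeGroup (Fin 2) →* Equiv.Perm (Fin 2 × FreeGroup (Fin 3)))
    (ψ : FreeGroup (Fin 3) →* FreeGroup (Fin 2))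
    (h : ∀ i g, ρ (ψ (FreeGroup.of i)) (0, g) = (0, FreeGroup.of i * g)) :
    Function.Injective ψ := by
  have h1 : ∀ w g, ρ (ψ w) (0, g) = (0, w * g) := by
    intro w
    induction w using FreeGroup.induction_on with
    | C1 => intro g; simp
    | of i => intro g; exact h i g
    | inv_of i _ =>
      intro g
      rw [map_inv, map_inv, Equiv.Perm.inv_eq_iff_eq, h i]
      simp
    | mul x y hx hy =>
      intro g
      rw [map_mul, map_mul, Equiv.Perm.mul_apply, hy, hx, mul_assoc]
  rw [injective_iff_map_eq_one]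
  intro w hw
  have h2 := h1 w 1
  rw [hw, map_one, Equiv.Perm.one_apply, mul_one] at h2
  exact (congrArg Prod.snd h2).symm

/-- the first embedding: `a^2, b, a b a^-1` -/
private def rk3A : FreeGroup (Fin 3) →* FreeGroup (Fin 2) :=
  FreeGroup.lift ![FreeGroup.of 0 * FreeGroup.of 0, FreeGroup.of 1,
      FreeGroup.of 0 * FreeGroup.of 1 * (FreeGroup.of 0)⁻¹]

/-- the second embedding: `b, a^2, a b a^-1 b` -/
private def rk3B : FreeGroup (Fin 3) →* FreeGroup (Fin 2) :=
  FreeGroup.lift ![FreeGroup.of 1, FreeGroup.of 0 * FreeGroup.of 0,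
      FreeGroup.of 0 * FreeGroup.of 1 * (FreeGroup.of 0)⁻¹ * FreeGroup.of 1]

private theorem rk3A_inj : Function.Injective rk3A := by
  refine rk3_inj (FreeGroup.lift ![rk3Shift (FreeGroup.of 0),
      rk3Lev ![FreeGroup.of 1, FreeGroup.of 2]]) _ fun i g => ?_
  fin_cases i <;>
    simp [rk3A, rk3Shift_zero, rk3Shift_one, rk3Shift_inv_zero, rk3Lev_apply,
      Equiv.Perm.mul_apply]

private theorem rk3B_inj : Function.Injective rk3B := by
  refine rk3_inj (FreeGroup.lift ![rk3Shift (FreeGroup.of 1),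
      rk3Lev ![FreeGroup.of 0, FreeGroup.of 2 * (FreeGroup.of 0)⁻¹]]) _ fun i g => ?_
  fin_cases i <;>
    simp [rk3B, rk3Shift_zero, rk3Shift_one, rk3Shift_inv_zero, rk3Lev_apply,
      Equiv.Perm.mul_apply]

/-- the isomorphism of the associated subgroups -/
private noncomputable def rk3E : rk3A.range ≃* rk3B.range :=
  (MonoidHom.ofInjective rk3A_inj).symm.trans (MonoidHom.ofInjective rk3B_inj)

private abbrev RK3 : Type := HNNExtension (FreeGroup (Fin 2)) rk3A.range rk3B.range rk3E

private theorem rk3_rel (x : FreeGroup (Fin 3)) :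
    (HNNExtension.t : RK3) * HNNExtension.of (rk3A x) =
      HNNExtension.of (rk3B x) * HNNExtension.t := by
  have h := HNNExtension.t_mul_of (φ := rk3E) (MonoidHom.ofInjective rk3A_inj x)
  have h1 : rk3E (MonoidHom.ofInjective rk3A_inj x) = MonoidHom.ofInjective rk3B_inj x := by
    simp [rk3E]
  rw [h1] at h
  exact h

/-- the conjugates of the base group -/
private noncomputable def rk3C (k : ℕ) (g : FreeGroup (Fin 2)) : RK3 :=
  HNNExtension.t ^ k * HNNExtension.of g * (HNNExtension.t ^ k)⁻¹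

private theorem rk3C_one (k : ℕ) : rk3C k 1 = 1 := by simp [rk3C]

private theorem rk3C_mul (k : ℕ) (g h : FreeGroup (Fin 2)) :
    rk3C k (g * h) = rk3C k g * rk3C k h := by
  simp [rk3C, mul_assoc]

private theorem rk3C_inv (k : ℕ) (g : FreeGroup (Fin 2)) : rk3C k g⁻¹ = (rk3C k g)⁻¹ := by
  simp [rk3C, mul_assoc]

private theorem rk3C_succ (k : ℕ) (x : FreeGroup (Fin 3)) :
    rk3C (k + 1) (rk3A x) = rk3C k (rk3B x) := by
  have h := rk3_rel x
  simp only [rk3C, pow_succ]
  rw [mul_assoc (HNNExtension.t ^ k), h]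
  simp [mul_assoc]

/-- the subgroup generated by three conjugates of the base group -/
private noncomputable def rk3H : Subgroup RK3 :=
  Subgroup.closure ((Finset.univ.image fun p : Fin 3 × Fin 2 =>
    rk3C p.1 (FreeGroup.of p.2) : Finset RK3) : Set RK3)

private theorem rk3_mem (k : Fin 3) (g : FreeGroup (Fin 2)) : rk3C k g ∈ rk3H := by
  induction g using FreeGroup.induction_on with
  | C1 => rw [rk3C_one]; exact one_mem _
  | of j => exact Subgroup.subset_closure (Finset.mem_coe.2 (Finset.mem_image.2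
      ⟨(k, j), Finset.mem_univ _, rfl⟩))
  | inv_of j hj => rw [rk3C_inv]; exact inv_mem hj
  | mul x y hx hy => rw [rk3C_mul]; exact mul_mem hx hy

/-- the base group in the subgroup -/
private noncomputable def rk3c (k : Fin 3) : FreeGroup (Fin 2) →* rk3H where
  toFun g := ⟨rk3C k g, rk3_mem k g⟩
  map_one' := Subtype.ext (rk3C_one k)
  map_mul' g h := Subtype.ext (rk3C_mul k g h)

private theorem rk3_trivial (f : rk3H →* Multiplicative ℤ) (x : rk3H) : f x = 1 := by
  have h1 : ∀ (k l : Fin 3), (l : ℕ) = k + 1 → ∀ x, f (rk3c l (rk3A x)) = f (rk3c k (rk3B x)) := by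
    intro k l hkl x
    congr 1
    apply Subtype.ext
    change rk3C l (rk3A x) = rk3C k (rk3B x)
    rw [hkl]
    exact rk3C_succ k x
  have e0 := congrArg Multiplicative.toAdd (h1 0 1 rfl (FreeGroup.of 0))
  have e1 := congrArg Multiplicative.toAdd (h1 0 1 rfl (FreeGroup.of 1))
  have e2 := congrArg Multiplicative.toAdd (h1 0 1 rfl (FreeGroup.of 2))
  have e3 := congrArg Multiplicative.toAdd (h1 1 2 rfl (FreeGroup.of 0))
  have e4 := congrArg Multiplicative.toAdd (h1 1 2 rfl (FreeGroup.of 1))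
  have e5 := congrArg Multiplicative.toAdd (h1 1 2 rfl (FreeGroup.of 2))
  simp [rk3A, rk3B] at e0 e1 e2 e3 e4 e5
  have key : ∀ (k : Fin 3) (j : Fin 2), f (rk3c k (FreeGroup.of j)) = 1 := by
    set a0 := (f (rk3c 0 (FreeGroup.of 0))).toAdd with ha0
    set b0 := (f (rk3c 0 (FreeGroup.of 1))).toAdd with hb0
    set a1 := (f (rk3c 1 (FreeGroup.of 0))).toAdd with ha1
    set b1 := (f (rk3c 1 (FreeGroup.of 1))).toAdd with hb1
    set a2 := (f (rk3c 2 (FreeGroup.of 0))).toAdd with ha2
    set b2 := (f (rk3c 2 (FreeGroup.of 1))).toAdd with hb2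
    have z0 : a0 = 0 := by omega
    have z1 : b0 = 0 := by omega
    have z2 : a1 = 0 := by omega
    have z3 : b1 = 0 := by omega
    have z4 : a2 = 0 := by omega
    have z5 : b2 = 0 := by omega
    intro k j
    apply Multiplicative.toAdd.injective
    fin_cases k <;> fin_cases j
    · exact z0
    · exact z1
    · exact z2
    · exact z3
    · exact z4
    · exact z5
  obtain ⟨x, hx⟩ := x
  have h2 : ∀ (x : RK3) (hx : x ∈ rk3H), f ⟨x, hx⟩ = 1 := by
    intro x hx
    refine Subgroup.closure_induction (p := fun x hx => f ⟨x, hx⟩ = 1) ?_ ?_ ?_ ?_ hx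
    · intro y hy
      obtain ⟨p, _, rfl⟩ := Finset.mem_image.1 (Finset.mem_coe.1 hy)
      exact key p.1 p.2
    · exact map_one f
    · intro a b ha hb h3 h4
      have : (⟨a * b, mul_mem ha hb⟩ : rk3H) = ⟨a, ha⟩ * ⟨b, hb⟩ := rfl
      rw [this, map_mul]
      change f ⟨a, ha⟩ * f ⟨b, hb⟩ = 1
      rw [h3, h4, one_mul]
    · intro a ha h3
      have : (⟨a⁻¹, inv_mem ha⟩ : rk3H) = ⟨a, ha⟩⁻¹ := rfl
      rw [this, map_inv]
      change (f ⟨a, ha⟩)⁻¹ = 1
      rw [h3, inv_one]
  exact h2 x hx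

/-- an HNN extension with associated subgroups of rank three which is not locally indicable -/
theorem exists_hnn_rank_three : ∃ (A B : Subgroup (FreeGroup (Fin 2))) (e : A ≃* B),
    Nonempty (FreeGroup (Fin 3) ≃* A) ∧
      ¬ LocallyIndicable (HNNExtension (FreeGroup (Fin 2)) A B e) := by
  refine ⟨rk3A.range, rk3B.range, rk3E, ⟨MonoidHom.ofInjective rk3A_inj⟩, fun hli => ?_⟩
  have hfg : rk3H.FG := ⟨_, rfl⟩
  have hne : rk3H ≠ ⊥ := by
    intro h
    have h1 := rk3_mem 0 (FreeGroup.of 0)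
    rw [h, Subgroup.mem_bot] at h1
    have h2 : (HNNExtension.of (FreeGroup.of 0) : RK3) = 1 := by
      simpa [rk3C] using h1
    rw [← map_one (HNNExtension.of (φ := rk3E))] at h2
    exact FreeGroup.of_ne_one _ (HNNExtension.of_injective rk3E h2)
  obtain ⟨f, hf⟩ := hli rk3H hfg hne
  obtain ⟨x, hx⟩ := hf (Multiplicative.ofAdd 1)
  rw [rk3_trivial f x] at hx
  have h4 := congrArg Multiplicative.toAdd hx
  simp at h4

end Pool.Agent.LIA
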