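import Pool.Agent.Lib.MP_cf50d6_gt.Push
import Pool.Agent.Lib.MP_cf50d6_gt.Rk3

/-!
# The least rank of the associated subgroups of a not locally indicable HNN extension of a free
group is three

(helper98 with helper1, helper2, helper8, helper36, helper41, helper70, helper79, helper91)
-/

set_option autoImplicit false

namespace Pool.Agent.LIA.HNNThresholdResult

open Pool.Agent.LIA

theorem result : IsLeast {r : ℕ | ∃ (G : Type) (_ : Group G) (_ : IsFreeGroup G)
    (A B : Subgroup G) (e : A ≃* B), Nonempty (FreeGroup (Fin r) ≃* A) ∧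
      ¬ LocallyIndicable (HNNExtension G A B e)} 3 := by
  constructor
  · obtain ⟨A, B, e, h1, h2⟩ := exists_hnn_rank_three
    exact ⟨FreeGroup (Fin 2), inferInstance, inferInstance, A, B, e, h1, h2⟩
  · rintro r ⟨G, hG, hF, A, B, e, ⟨f⟩, h2⟩
    by_contra hr
    exact h2 (hnn_li A B e (by omega) f)

end Pool.Agent.LIA.HNNThresholdResult
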