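import Pool.Agent.Lib.MP_cf50d6_gt.Basic

/-!
# Tree components of the cut graph

(helper91, problem MP_cf50d6_gt, module L1)
-/

set_option autoImplicit false

open scoped Classical

namespace Pool.Agent.LIA

namespace LG

variable {V S : Type*} {Γ : LG V S}

/-- the edge along the letter `l` from `v` to `x` -/
private def ed (v : V) (l : S × Bool) (x : V) : V × S × V :=
  if l.2 then (v, l.1, x) else (x, l.1, v)

private theorem step_iff_ed {v x : V} {l : S × Bool} : Γ.Step v l x ↔ ed v l x ∈ Γ.F := by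
  obtain ⟨s, b⟩ := l
  cases b <;> simp [Step, ed]

private theorem pot_step [Fintype V] {C : Finset V} (hC : C ∈ Γ.comps) {φ : V → FreeGroup S}
    (hφ : ∀ u s v, (u, s, v) ∈ Γ.F → u ∈ C → φ v = φ u * FreeGroup.of s) {u v : V}
    {l : S × Bool} (hu : u ∈ C) (h : Γ.Step u l v) : φ v = φ u * lv l := by
  have hv := mem_of_step hC hu h
  obtain ⟨s, b⟩ := l
  cases b
  · rw [step_false] at h
    rw [hφ _ _ _ h hv]
    simp
  · rw [step_true] at h
    rw [hφ _ _ _ h hu]
    simp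

/-- no infinite reduced ray in a component with a potential -/
private theorem no_ray [Fintype V] {C : Finset V} (hC : C ∈ Γ.comps) {φ : V → FreeGroup S}
    (hφ : ∀ u s v, (u, s, v) ∈ Γ.F → u ∈ C → φ v = φ u * FreeGroup.of s) {w : ℕ → S × Bool}
    {p : ℕ → V} (hw : RedW w) (hp : ∀ n, Γ.Step (p n) (w n) (p (n + 1))) (h0 : p 0 ∈ C) :
    False := by
  have h1 : ∀ n, p n ∈ C ∧ φ (p n) = φ (p 0) * pre w n := by
    intro n
    induction n with
    | zero => exact ⟨h0, by simp [pre]⟩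
    | succ n ih =>
      refine ⟨mem_of_step hC ih.1 (hp n), ?_⟩
      rw [pot_step hC hφ ih.1 (hp n), ih.2]
      simp [pre, mul_assoc]
  obtain ⟨m, n, hmn, h2⟩ := Finite.exists_ne_map_eq_of_infinite p
  have h3 : ∀ a b : ℕ, a < b → p a = p b → False := by
    intro a b hab h
    have h4 := (h1 a).2
    have h5 := (h1 b).2
    rw [h, h5] at h4
    exact hw.pre_ne hab (mul_left_cancel h4).symm
  rcases lt_or_gt_of_ne hmn with h | h
  · exact h3 m n h h2
  · exact h3 n m h h2.symm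

/-- no bridge has an end in `C` -/
private def NB (O : EOrd S) (Γ : LG V S) (C : Finset V) : Prop :=
  ∀ u s v, (u, s, v) ∈ Γ.br O → u ∉ C ∧ v ∉ C

private theorem NB.step {O : EOrd S} {C : Finset V} (h : NB O Γ C) {u v : V} {l : S × Bool}
    (hu : u ∈ C) (hs : Γ.Step u l v) : (Γ.cut O).Step u l v := by
  rw [step_iff_ed] at hs ⊢
  rw [mem_cut]
  refine ⟨hs, fun hb => ?_⟩
  obtain ⟨s, b⟩ := l
  cases b
  · exact (h _ _ _ hb).2 hu
  · exact (h _ _ _ hb).1 hu

private theorem NB.conn {O : EOrd S} {C : Finset V} (h : NB O Γ C) {u v : V} (hu : u ∈ C)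
    (hC : ∀ x, (Γ.cut O).Conn u x → x ∈ C) (hs : Γ.Conn u v) : (Γ.cut O).Conn u v := by
  refine Conn.induction (p := fun x => (Γ.cut O).Conn u x) (conn_refl u) ?_ hs
  intro a l b ha hab
  exact ha.trans (h.step (hC a ha) hab).conn

private theorem step_mono {O : EOrd S} {u v : V} {l : S × Bool} (h : (Γ.cut O).Step u l v) :
    Γ.Step u l v := by
  rw [step_iff_ed] at h ⊢
  exact cut_sub O h

private theorem nb_of_pot [Fintype V] (O : EOrd S) {C : Finset V} (hC : C ∈ Γ.comps)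
    (h : Γ.Pot C) : NB O Γ C := by
  obtain ⟨φ, hφ⟩ := h
  intro u s v hb
  obtain ⟨hF, ⟨w, p, hw, hp, hr, -⟩, -⟩ := mem_br.1 hb
  have hu : u ∉ C := fun hu => no_ray hC hφ hr.1 hr.2 (hp ▸ hu)
  exact ⟨hu, fun hv => hu ((mem_of_edge hC hF).2 hv)⟩

private theorem good_of_br {O : EOrd S} {v x : V} {l : S × Bool} (h : ed v l x ∈ Γ.br O) :
    Γ.Step v l x ∧ Γ.Good O x (linv l) := by
  refine ⟨step_iff_ed.2 (br_sub O h), ?_⟩
  obtain ⟨s, b⟩ := l
  cases b
  · exact (mem_br.1 h).2.1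
  · exact (mem_br.1 h).2.2

private theorem nb_of_pot_cut [Fintype V] (O : EOrd S) {C : Finset V}
    (hC : C ∈ (Γ.cut O).comps) (h : (Γ.cut O).Pot C) : NB O Γ C := by
  obtain ⟨φ, hφ⟩ := h
  by_contra hnb
  -- the bridges at `C`
  let B : Finset (V × (S × Bool)) :=
    (((Γ.br O) ×ˢ (Finset.univ : Finset Bool)).image fun e =>
      if e.2 then (e.1.1, (e.1.2.1, true)) else (e.1.2.2, (e.1.2.1, false))).filter
      fun q => q.1 ∈ C
  have hB : ∀ v l, (v, l) ∈ B ↔ v ∈ C ∧ ∃ x, ed v l x ∈ Γ.br O := by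
    intro v l
    obtain ⟨s, b⟩ := l
    simp only [B, Finset.mem_filter, Finset.mem_image, Finset.mem_product, Finset.mem_univ,
      and_true, Prod.exists]
    constructor
    · rintro ⟨⟨u, t, x, c, hb, he⟩, hv⟩
      refine ⟨hv, ?_⟩
      cases c
      · simp only [Bool.false_eq_true, if_false, Prod.mk.injEq] at he
        obtain ⟨rfl, rfl, rfl⟩ := he
        exact ⟨u, hb⟩
      · simp only [if_true, Prod.mk.injEq] at he
        obtain ⟨rfl, rfl, rfl⟩ := he
        exact ⟨x, hb⟩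
    · rintro ⟨hv, x, hx⟩
      refine ⟨?_, hv⟩
      cases b
      · exact ⟨x, s, v, false, hx, by simp⟩
      · exact ⟨v, s, x, true, hx, by simp⟩
  have hne : B.Nonempty := by
    unfold NB at hnb
    push Not at hnb
    obtain ⟨u, s, v, hb, huv⟩ := hnb
    by_cases hu : u ∈ C
    · exact ⟨(u, (s, true)), (hB _ _).2 ⟨hu, v, hb⟩⟩
    · exact ⟨(v, (s, false)), (hB _ _).2 ⟨huv hu, u, hb⟩⟩
  have hmin : ∃ q ∈ B, ∀ q' ∈ B, O.lo.le (eg (φ q.1) q.2) (eg (φ q'.1) q'.2) := by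
    letI := O.lo
    exact Finset.exists_min_image B (fun q => eg (φ q.1) q.2) hne
  obtain ⟨⟨v, l⟩, hq, hmin⟩ := hmin
  obtain ⟨hv, x, hx⟩ := (hB v l).1 hq
  obtain ⟨hstep, w, p, hw0, hp0, ⟨hred, hray⟩, hle⟩ := good_of_br hx
  have hp1 : p 1 = v := by
    have h1 := hray 0
    rw [hw0, hp0, zero_add] at h1
    exact step_det h1 (step_symm.2 hstep)
  -- the shifted ray
  have hred1 : RedW fun i => w (1 + i) := hred.shift 1
  have hex : ∃ n, ed (p (1 + n)) (w (1 + n)) (p (1 + n + 1)) ∈ Γ.br O := by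
    by_contra hno
    push Not at hno
    refine no_ray hC hφ (w := fun i => w (1 + i)) (p := fun i => p (1 + i)) hred1 ?_
      (by simpa [hp1] using hv)
    intro n
    rw [step_iff_ed, mem_cut]
    exact ⟨step_iff_ed.1 (hray (1 + n)), hno n⟩
  let n := Nat.find hex
  have hn : ed (p (1 + n)) (w (1 + n)) (p (1 + n + 1)) ∈ Γ.br O := Nat.find_spec hex
  have hlt : ∀ m, m < n → ed (p (1 + m)) (w (1 + m)) (p (1 + m + 1)) ∉ Γ.br O :=
    fun m hm => Nat.find_min hex hm
  have hin : ∀ m, m ≤ n → p (1 + m) ∈ C ∧ φ (p (1 + m)) = φ v * pre (fun i => w (1 + i)) m := by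
    intro m
    induction m with
    | zero => exact fun _ => by simp [hp1, hv, pre]
    | succ m ih =>
      intro hm
      obtain ⟨h1, h2⟩ := ih (by omega)
      have h3 : (Γ.cut O).Step (p (1 + m)) (w (1 + m)) (p (1 + m + 1)) := by
        rw [step_iff_ed, mem_cut]
        exact ⟨step_iff_ed.1 (hray (1 + m)), hlt m (by omega)⟩
      refine ⟨mem_of_step hC h1 h3, ?_⟩
      rw [← add_assoc, pot_step hC hφ h1 h3, h2]
      simp [pre, mul_assoc]
  obtain ⟨hnC, hnφ⟩ := hin n le_rfl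
  have hle1 : O.lo.le (eg (φ v) l) (eg (φ (p (1 + n))) (w (1 + n))) :=
    hmin (p (1 + n), w (1 + n)) ((hB _ _).2 ⟨hnC, _, hn⟩)
  have hpre : pre w (1 + n) = (lv l)⁻¹ * pre (fun i => w (1 + i)) n := by
    rw [pre_add, pre_one, hw0, lv_linv]
  have hle2 : O.lo.le (eg (φ (p (1 + n))) (w (1 + n))) (eg (φ v) l) := by
    have h1 := (O.le_eg (φ v * lv l) (pre w (1 + n)) 1 (w (1 + n)) (linv l)).2 (hle (1 + n))
    rw [mul_one, eg_linv, hpre] at h1
    rw [hnφ]
    have h2 : φ v * lv l * ((lv l)⁻¹ * pre (fun i => w (1 + i)) n) =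
        φ v * pre (fun i => w (1 + i)) n := by group
    rwa [h2] at h1
  have heq : eg (φ v) l = eg (φ (p (1 + n))) (w (1 + n)) := O.lo.le_antisymm _ _ hle1 hle2
  rcases (eg_eq_iff _ _ _ _).1 heq with ⟨h1, h2⟩ | ⟨h1, h2⟩
  · rw [hnφ] at h1
    have h3 : pre (fun i => w (1 + i)) n = 1 := by
      have := congrArg (fun y => (φ v)⁻¹ * y) h1
      simpa using this.symm
    rcases Nat.eq_zero_or_pos n with h0 | h0
    · rw [h0, add_zero] at h2
      have h4 := (redW_iff w).1 hred 0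
      rw [zero_add, hw0, linv_linv] at h4
      exact h4 h2.symm
    · exact hred1.pre_ne_one h0 h3
  · rw [hnφ] at h1
    have h3 : pre (fun i => w (1 + i)) n = lv l := mul_left_cancel h1
    have h4 : pre (fun i => w (1 + i)) (n + 1) = 1 := by
      simp only [pre]
      rw [h3, h2, lv_linv, mul_inv_cancel]
    exact hred1.pre_ne_one (Nat.succ_pos n) h4

private theorem comp_cut [Fintype V] {O : EOrd S} {C : Finset V} (h : NB O Γ C) :
    (C ∈ (Γ.cut O).comps ↔ C ∈ Γ.comps) ∧ ((Γ.cut O).Pot C ↔ Γ.Pot C) := by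
  have hsub : ∀ {u v : V}, (Γ.cut O).Conn u v → Γ.Conn u v := fun h => h.mono (cut_sub O)
  constructor
  · constructor
    · intro hC
      obtain ⟨u, rfl⟩ := mem_comps.1 hC
      rw [mem_comps]
      refine ⟨u, ?_⟩
      ext x
      rw [mem_comp, mem_comp]
      exact ⟨hsub, fun hx => h.conn (self_mem_comp u) (fun y hy => mem_comp.2 hy) hx⟩
    · intro hC
      obtain ⟨u, rfl⟩ := mem_comps.1 hC
      rw [mem_comps]
      refine ⟨u, ?_⟩
      ext x
      rw [mem_comp, mem_comp]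
      exact ⟨fun hx => h.conn (self_mem_comp u) (fun y hy => mem_comp.2 (hsub hy)) hx, hsub⟩
  · constructor
    · rintro ⟨φ, hφ⟩
      refine ⟨φ, fun u s v he hu => hφ u s v ?_ hu⟩
      rw [mem_cut]
      exact ⟨he, fun hb => (h _ _ _ hb).1 hu⟩
    · rintro ⟨φ, hφ⟩
      exact ⟨φ, fun u s v he hu => hφ u s v (cut_sub O he) hu⟩

/-- the cut graph has the same number of tree components -/
theorem tr_cut [Fintype V] (O : EOrd S) (Γ : LG V S) : (Γ.cut O).tr = Γ.tr := by
  unfold tr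
  congr 1
  ext C
  rw [Finset.mem_filter, Finset.mem_filter]
  constructor
  · rintro ⟨hC, hp⟩
    have h := comp_cut (nb_of_pot_cut O hC hp)
    exact ⟨h.1.1 hC, h.2.1 hp⟩
  · rintro ⟨hC, hp⟩
    have h := comp_cut (nb_of_pot O hC hp)
    exact ⟨h.1.2 hC, h.2.2 hp⟩

end LG

end Pool.Agent.LIA
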