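import Pool.Agent.Lib.MP_cf50d6_gt.Basic

/-!
# The components of the cut graph have rank at most one

(helper1, problem MP_cf50d6_gt, module L2)
-/

set_option autoImplicit false

open scoped Classical

namespace Pool.Agent.LIA

section words

variable {S : Type*}

/-- a sequence with one more term in front -/
def L2cons {A : Type*} (a : A) (w : ℕ → A) : ℕ → A
  | 0 => a
  | n + 1 => w n

/-- the `n`-th edge of an infinite word -/
def L2ed (w : ℕ → S × Bool) (n : ℕ) : FreeGroup S × S := eg (pre w n) (w n)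

private theorem pre_cons (a : S × Bool) (w : ℕ → S × Bool) (n : ℕ) :
    pre (L2cons a w) (n + 1) = lv a * pre w n := by
  induction n with
  | zero => simp [pre, L2cons]
  | succ n ih =>
    show pre (L2cons a w) (n + 1) * lv (L2cons a w (n + 1)) = _
    rw [ih]
    simp [pre, L2cons, mul_assoc]

private theorem ed_cons_succ (a : S × Bool) (w : ℕ → S × Bool) (n : ℕ) :
    L2ed (L2cons a w) (n + 1) = eg (lv a * pre w n) (w n) := by
  unfold L2ed
  rw [pre_cons]
  rfl

private theorem le_ed_cons (O : EOrd S) (a : S × Bool) (w : ℕ → S × Bool) (m n : ℕ) :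
    O.lo.le (L2ed (L2cons a w) (m + 1)) (L2ed (L2cons a w) (n + 1)) ↔
      O.lo.le (L2ed w m) (L2ed w n) := by
  rw [ed_cons_succ, ed_cons_succ]
  exact O.le_eg _ _ _ _ _

private theorem cons_tail {A : Type*} (w : ℕ → A) : L2cons (w 0) (fun i => w (i + 1)) = w := by
  funext n
  cases n with
  | zero => rfl
  | succ n => rfl

/-- all tails of the infinite word have a maximal edge -/
def L2Dsc (O : EOrd S) (w : ℕ → S × Bool) : Prop :=
  ∀ k, ∃ N, k ≤ N ∧ ∀ n, k ≤ n → O.lo.le (L2ed w n) (L2ed w N)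

private theorem dsc_cons (O : EOrd S) (a : S × Bool) (w : ℕ → S × Bool) (h : L2Dsc O w) :
    L2Dsc O (L2cons a w) := by
  intro k
  cases k with
  | zero =>
    obtain ⟨N, -, hN⟩ := h 0
    rcases O.lo.le_total (L2ed (L2cons a w) 0) (L2ed (L2cons a w) (N + 1)) with h1 | h1
    · refine ⟨N + 1, Nat.zero_le _, ?_⟩
      intro n _
      cases n with
      | zero => exact h1
      | succ n => exact (le_ed_cons O a w n N).2 (hN n (Nat.zero_le _))
    · refine ⟨0, le_refl _, ?_⟩
      intro n _
      cases n with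
      | zero => exact O.lo.le_refl _
      | succ n => exact O.lo.le_trans _ _ _ ((le_ed_cons O a w n N).2 (hN n (Nat.zero_le _))) h1
  | succ k =>
    obtain ⟨N, hkN, hN⟩ := h k
    refine ⟨N + 1, by omega, ?_⟩
    intro n hn
    obtain ⟨n', rfl⟩ : ∃ n', n = n' + 1 := ⟨n - 1, by omega⟩
    exact (le_ed_cons O a w n' N).2 (hN n' (by omega))

private theorem dsc_tail (O : EOrd S) (w : ℕ → S × Bool) (h : L2Dsc O w) :
    L2Dsc O (fun i => w (i + 1)) := by
  rw [← cons_tail w] at h
  intro k
  obtain ⟨N, hkN, hN⟩ := h (k + 1)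
  obtain ⟨N', rfl⟩ : ∃ n', N = n' + 1 := ⟨N - 1, by omega⟩
  refine ⟨N', by omega, ?_⟩
  intro n hn
  exact (le_ed_cons O _ _ n N').1 (hN (n + 1) (by omega))

end words

namespace LG

variable {V S : Type*}

/-- there is a reduced infinite word, readable from `v`, with first letter `l`, all of whose tails
have a maximal edge -/
def L2Start (O : EOrd S) (D : LG V S) (v : V) (l : S × Bool) : Prop :=
  ∃ (w : ℕ → S × Bool) (p : ℕ → V), w 0 = l ∧ p 0 = v ∧ D.Ray p w ∧ L2Dsc O w

private theorem ray_cons {D : LG V S} {u v : V} {l : S × Bool} {w : ℕ → S × Bool} {p : ℕ → V}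
    (hs : D.Step u l v) (hp : p 0 = v) (hr : D.Ray p w) (hl : w 0 ≠ linv l) :
    D.Ray (L2cons u p) (L2cons l w) := by
  obtain ⟨h1, h2⟩ := hr
  constructor
  · rw [redW_iff] at h1 ⊢
    intro n
    cases n with
    | zero => exact hl
    | succ n => exact h1 n
  · intro n
    cases n with
    | zero =>
      subst hp
      exact hs
    | succ n => exact h2 n

private theorem start_cons {O : EOrd S} {D : LG V S} {u v : V} {l m : S × Bool}
    (hs : D.Step u l v) (h : D.L2Start O v m) (hm : m ≠ linv l) : D.L2Start O u l := by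
  obtain ⟨w, p, hw, hp, hr, hd⟩ := h
  subst hw
  exact ⟨L2cons l w, L2cons u p, rfl, rfl, ray_cons hs hp hr hm, dsc_cons O l w hd⟩

private theorem start_tail {O : EOrd S} {D : LG V S} {u v : V} {l : S × Bool}
    (hs : D.Step u l v) (h : D.L2Start O v (linv l)) : ∃ m, D.L2Start O u m := by
  obtain ⟨w, p, hw, hp, ⟨hr1, hr2⟩, hd⟩ := h
  have h1 := hr2 0
  rw [hw, hp] at h1
  have h2 : p (0 + 1) = u := step_det h1 (step_symm.2 hs)
  exact ⟨w 1, fun i => w (i + 1), fun i => p (i + 1), rfl, h2,
    ⟨fun n => hr1 (n + 1), fun n => hr2 (n + 1)⟩, dsc_tail O w hd⟩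

private theorem hasStart_step {O : EOrd S} {D : LG V S} {u v : V} {l : S × Bool}
    (hs : D.Step u l v) (h : ∃ m, D.L2Start O v m) : ∃ m, D.L2Start O u m := by
  obtain ⟨m, hm⟩ := h
  by_cases h1 : m = linv l
  · subst h1
    exact start_tail hs hm
  · exact ⟨l, start_cons hs hm h1⟩

private theorem start_or {O : EOrd S} {D : LG V S} {u v : V} {l : S × Bool}
    (hs : D.Step u l v) (h : ∃ m, D.L2Start O u m) : D.L2Start O u l ∨ D.L2Start O v (linv l) := by
  obtain ⟨m, hm⟩ := h
  by_cases h1 : m = l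
  · subst h1
    exact Or.inl hm
  · refine Or.inr (start_cons (step_symm.2 hs) hm ?_)
    rw [linv_linv]
    exact h1

private theorem pre_shift (w : ℕ → S × Bool) (N n : ℕ) :
    pre w (N + n) = pre w N * pre (fun i => w (N + i)) n := pre_add w N n

/-- two rays with a maximal edge and different first letters give an edge which is good from both
sides -/
private theorem exists_good_aux {O : EOrd S} {D : LG V S} {w₁ w₂ : ℕ → S × Bool} {p₁ p₂ : ℕ → V}
    (h0 : p₁ 0 = p₂ 0) (hne : w₁ 0 ≠ w₂ 0) (hr₁ : D.Ray p₁ w₁) (hr₂ : D.Ray p₂ w₂) {N : ℕ}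
    (hN₁ : ∀ n, O.lo.le (L2ed w₁ n) (L2ed w₁ N)) (hN₂ : ∀ n, O.lo.le (L2ed w₂ n) (L2ed w₁ N)) :
    ∃ u s v, (u, s, v) ∈ D.F ∧ D.Good O u (s, true) ∧ D.Good O v (s, false) := by
  have key : ∀ k, ∃ (w' : ℕ → S × Bool) (p' : ℕ → V), p' 0 = p₁ k ∧ D.Ray p' w' ∧ w' 0 ≠ w₁ k ∧
      (∀ j, k = j + 1 → w' 0 = linv (w₁ j)) ∧
      ∀ n, O.lo.le (eg (pre w₁ k * pre w' n) (w' n)) (L2ed w₁ N) := by
    intro k
    induction k with
    | zero =>
      refine ⟨w₂, p₂, h0.symm, hr₂, hne.symm, fun j hj => by omega, ?_⟩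
      intro n
      have := hN₂ n
      simpa [L2ed, pre] using this
    | succ k ih =>
      obtain ⟨w', p', hp', hr', hw', -, he⟩ := ih
      have hs : D.Step (p₁ (k + 1)) (linv (w₁ k)) (p₁ k) := step_symm.2 (hr₁.2 k)
      refine ⟨L2cons (linv (w₁ k)) w', L2cons (p₁ (k + 1)) p', rfl,
        ray_cons hs hp' hr' (by rw [linv_linv]; exact hw'), ?_, ?_, ?_⟩
      · intro h1
        have h2 := (redW_iff w₁).1 hr₁.1 k
        exact h2 h1.symm
      · intro j hj
        obtain rfl : k = j := by omega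
        rfl
      · intro n
        cases n with
        | zero =>
          have h1 : eg (pre w₁ (k + 1) * pre (L2cons (linv (w₁ k)) w') 0)
              (L2cons (linv (w₁ k)) w' 0) = L2ed w₁ k := by
            show eg (pre w₁ k * lv (w₁ k) * 1) (linv (w₁ k)) = L2ed w₁ k
            rw [mul_one]
            exact eg_linv _ _
          rw [h1]
          exact hN₁ k
        | succ n =>
          have h1 : pre w₁ (k + 1) * pre (L2cons (linv (w₁ k)) w') (n + 1) =
              pre w₁ k * pre w' n := by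
            rw [pre_cons, lv_linv]
            show pre w₁ k * lv (w₁ k) * ((lv (w₁ k))⁻¹ * pre w' n) = _
            group
          rw [h1]
          exact he n
  obtain ⟨w', p', hp', hr', -, hw', he⟩ := key (N + 1)
  have hw'' : w' 0 = linv (w₁ N) := hw' N rfl
  have hg1 : D.Good O (p₁ N) (w₁ N) := by
    refine ⟨fun i => w₁ (N + i), fun i => p₁ (N + i), rfl, rfl,
      ⟨hr₁.1.shift N, fun n => hr₁.2 (N + n)⟩, ?_⟩
    intro n
    have h1 := hN₁ (N + n)
    unfold L2ed at h1
    rw [pre_shift] at h1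
    have h2 : pre w₁ N = pre w₁ N * 1 := (mul_one _).symm
    rw [h2] at h1
    rw [mul_one] at h1
    have h3 := (O.le_eg (pre w₁ N) (pre (fun i => w₁ (N + i)) n) 1 (w₁ (N + n)) (w₁ N)).1
      (by rw [mul_one]; exact h1)
    exact h3
  have hg2 : D.Good O (p₁ (N + 1)) (linv (w₁ N)) := by
    refine ⟨w', p', hw'', hp', hr', ?_⟩
    intro n
    have h1 := he n
    have h2 : L2ed w₁ N = eg (pre w₁ (N + 1) * 1) (linv (w₁ N)) := by
      rw [mul_one]
      exact (eg_linv _ _).symm
    rw [h2] at h1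
    exact (O.le_eg _ _ _ _ _).1 h1
  have hs := hr₁.2 N
  rcases hl : w₁ N with ⟨s, b⟩
  rw [hl] at hg1 hg2 hs
  cases b with
  | true => exact ⟨p₁ N, s, p₁ (N + 1), step_true.1 hs, hg1, hg2⟩
  | false => exact ⟨p₁ (N + 1), s, p₁ N, step_false.1 hs, hg2, hg1⟩

private theorem exists_good {O : EOrd S} {D : LG V S} {v : V} {l₁ l₂ : S × Bool}
    (h₁ : D.L2Start O v l₁) (h₂ : D.L2Start O v l₂) (hne : l₁ ≠ l₂) :
    ∃ u s v, (u, s, v) ∈ D.F ∧ D.Good O u (s, true) ∧ D.Good O v (s, false) := by
  obtain ⟨w₁, p₁, hw₁, hp₁, hr₁, hd₁⟩ := h₁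
  obtain ⟨w₂, p₂, hw₂, hp₂, hr₂, hd₂⟩ := h₂
  obtain ⟨N₁, -, hN₁⟩ := hd₁ 0
  obtain ⟨N₂, -, hN₂⟩ := hd₂ 0
  have h0 : p₁ 0 = p₂ 0 := hp₁.trans hp₂.symm
  have hne' : w₁ 0 ≠ w₂ 0 := by
    rw [hw₁, hw₂]
    exact hne
  rcases O.lo.le_total (L2ed w₂ N₂) (L2ed w₁ N₁) with h | h
  · exact exists_good_aux h0 hne' hr₁ hr₂ (fun n => hN₁ n (Nat.zero_le _))
      (fun n => O.lo.le_trans _ _ _ (hN₂ n (Nat.zero_le _)) h)
  · exact exists_good_aux h0.symm hne'.symm hr₂ hr₁ (fun n => hN₂ n (Nat.zero_le _))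
      (fun n => O.lo.le_trans _ _ _ (hN₁ n (Nat.zero_le _)) h)

private theorem good_mono {O : EOrd S} {D Γ : LG V S} (hF : D.F ⊆ Γ.F) {v : V} {l : S × Bool}
    (h : D.Good O v l) : Γ.Good O v l := by
  obtain ⟨w, p, hw, hp, ⟨hr1, hr2⟩, he⟩ := h
  refine ⟨w, p, hw, hp, ⟨hr1, fun n => ?_⟩, he⟩
  exact walk_singleton.1 (Walk.mono hF (walk_singleton.2 (hr2 n)))

/-- in the cut graph at most one letter starts a descending ray from a vertex -/
private theorem start_unique {O : EOrd S} {Γ : LG V S} {v : V} {l₁ l₂ : S × Bool}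
    (h₁ : (Γ.cut O).L2Start O v l₁) (h₂ : (Γ.cut O).L2Start O v l₂) : l₁ = l₂ := by
  by_contra hne
  obtain ⟨u, s, v, hF, hg1, hg2⟩ := exists_good h₁ h₂ hne
  have h1 := mem_cut.1 hF
  exact h1.2 (mem_br.2 ⟨h1.1, good_mono (cut_sub O) hg1, good_mono (cut_sub O) hg2⟩)

private theorem walk_seq {D : LG V S} {L : List (S × Bool)} : ∀ {u v : V}, D.Walk u L v →
    ∃ q : ℕ → V, q 0 = u ∧ q L.length = v ∧
      ∀ i (hi : i < L.length), D.Step (q i) (L[i]) (q (i + 1)) := by
  induction L with
  | nil =>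
    intro u v h
    exact ⟨fun _ => u, rfl, h, fun i hi => absurd hi (Nat.not_lt_zero _)⟩
  | cons l L ih =>
    intro u v h
    obtain ⟨a, ha, ha'⟩ := h
    obtain ⟨q, hq0, hq1, hq2⟩ := ih ha'
    refine ⟨L2cons u q, rfl, hq1, ?_⟩
    intro i hi
    cases i with
    | zero =>
      show D.Step u l (q 0)
      rw [hq0]
      exact ha
    | succ i => exact hq2 i (by simpa using hi)

/-- a cyclically reduced closed word whose value moves all edges down gives a descending ray -/
private theorem start_of_closed {O : EOrd S} {D : LG V S} {x : V} {Q : List (S × Bool)}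
    (hw : D.Walk x Q x) (hQ : Q ≠ []) (hc : FreeGroup.IsCyclicallyReduced Q)
    (hdown : ∀ a s, O.lo.lt (FreeGroup.mk Q * a, s) (a, s)) : ∃ m, D.L2Start O x m := by
  obtain ⟨q, hq0, hq1, hq2⟩ := walk_seq hw
  have hm : 0 < Q.length := List.length_pos_iff.2 hQ
  set m := Q.length with hmdef
  let w : ℕ → S × Bool := fun n => Q[n % m]'(Nat.mod_lt n hm)
  have hwdef : ∀ n, w n = Q[n % m]'(Nat.mod_lt n hm) := fun n => rfl
  have hw2 : ∀ n i (hi : i < m), n % m = i → w n = Q[i] := by
    intro n i hi h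
    subst h
    rfl
  have hmod : ∀ n, (n % m + 1 < m ∧ (n + 1) % m = n % m + 1) ∨
      (n % m + 1 = m ∧ (n + 1) % m = 0) := by
    intro n
    have h1 := Nat.mod_lt n hm
    rcases Nat.lt_or_ge (n % m + 1) m with h2 | h2
    · left
      refine ⟨h2, ?_⟩
      rw [Nat.add_mod]
      rcases Nat.lt_or_ge 1 m with h3 | h3
      · rw [Nat.mod_eq_of_lt h3, Nat.mod_eq_of_lt h2]
      · omega
    · right
      have h3 : n % m + 1 = m := by omega
      refine ⟨h3, ?_⟩
      have h4 : (n + 1) % m = (n % m + 1) % m := by simp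
      rw [h4, h3, Nat.mod_self]
  have hred : RedW w := by
    intro n
    rcases hmod n with ⟨h1, h2⟩ | ⟨h1, h2⟩
    · rw [hw2 n (n % m) (by omega) rfl, hw2 (n + 1) (n % m + 1) h1 h2]
      have h3 := hc.1
      unfold FreeGroup.IsReduced at h3
      rw [List.isChain_iff_getElem] at h3
      exact h3 (n % m) h1
    · rw [hw2 n (m - 1) (by omega) (by omega), hw2 (n + 1) 0 hm h2]
      refine hc.2 _ ?_ _ ?_
      · rw [List.getLast?_eq_getElem?]
        simp [← hmdef]
      · rw [List.head?_eq_getElem?]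
        simp
  have hstep : ∀ n, D.Step (q (n % m)) (w n) (q ((n + 1) % m)) := by
    intro n
    have h3 := hq2 (n % m) (Nat.mod_lt n hm)
    rcases hmod n with ⟨h1, h2⟩ | ⟨h1, h2⟩
    · rw [h2]
      exact h3
    · rw [h2, hq0]
      rw [h1, hq1] at h3
      exact h3
  have hprem : pre w m = FreeGroup.mk Q := by
    rw [pre_eq_mk]
    congr 1
    refine List.ext_getElem (by simp [hmdef]) ?_
    intro i h1 h2
    simp only [List.getElem_map, List.getElem_range]
    exact hw2 i i h2 (Nat.mod_eq_of_lt h2)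
  have hper : ∀ i, w (m + i) = w i := by
    intro i
    refine hw2 (m + i) (i % m) (Nat.mod_lt i hm) ?_
    simp
  have hpre : ∀ n, pre w (m + n) = FreeGroup.mk Q * pre w n := by
    intro n
    rw [pre_add, hprem]
    congr 2
    funext i
    exact hper i
  have hlt : ∀ n, O.lo.lt (L2ed w (m + n)) (L2ed w n) := by
    intro n
    unfold L2ed
    rw [hpre, hper, eg_mul]
    exact hdown _ _
  refine ⟨w 0, w, fun n => q (n % m), rfl, ?_, ⟨hred, hstep⟩, ?_⟩
  · simp [hq0]
  · intro k
    let _ := O.lo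
    obtain ⟨N, hN, hN'⟩ := Finset.exists_max_image (Finset.Ico k (k + m)) (L2ed w)
      ⟨k, Finset.mem_Ico.2 ⟨le_refl _, by omega⟩⟩
    refine ⟨N, (Finset.mem_Ico.1 hN).1, ?_⟩
    intro n
    induction n using Nat.strong_induction_on with
    | _ n ih =>
      intro hk
      rcases Nat.lt_or_ge n (k + m) with h1 | h1
      · exact hN' n (Finset.mem_Ico.2 ⟨hk, h1⟩)
      · have h2 := ih (n - m) (by omega) (by omega)
        have h3 := hlt (n - m)
        rw [Nat.add_sub_cancel' (by omega)] at h3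
        exact le_trans (le_of_lt h3) h2

private theorem lt_inv (O : EOrd S) (g a b : FreeGroup S) (s t : S) :
    O.lo.lt (g * a, s) (g * b, t) ↔ O.lo.lt (a, s) (b, t) := by
  let _ := O.lo
  have h1 := O.inv g b a t s
  constructor
  · intro h
    exact not_le.1 fun h' => not_le.2 h (h1.2 h')
  · intro h
    exact not_le.1 fun h' => not_le.2 h (h1.1 h')

/-- a closed word with nontrivial value gives a descending ray from some vertex -/
private theorem exists_start {O : EOrd S} {D : LG V S} {u : V} {L : List (S × Bool)}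
    (hw : D.Walk u L u) (hL : FreeGroup.mk L ≠ 1) : ∃ m, D.L2Start O u m := by
  -- we may assume that the value moves all edges down
  have hwl : ∃ M : List (S × Bool), D.Walk u M u ∧ FreeGroup.mk M ≠ 1 ∧
      ∀ a s, O.lo.lt (FreeGroup.mk M * a, s) (a, s) := by
    rcases O.mono _ hL with h | h
    · exact ⟨L, hw, hL, h⟩
    · refine ⟨FreeGroup.invRev L, walk_symm hw, ?_, ?_⟩
      · rw [← FreeGroup.inv_mk]
        exact inv_ne_one.2 hL
      intro a s
      rw [← FreeGroup.inv_mk]
      have h1 := h ((FreeGroup.mk L)⁻¹ * a) s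
      rw [mul_inv_cancel_left] at h1
      exact h1
  clear hw hL L
  obtain ⟨M, hM, hM1, hdown⟩ := hwl
  have hM' := walk_toWord hM
  set R := (FreeGroup.mk M).toWord with hR
  have hRred : FreeGroup.IsReduced R := FreeGroup.isReduced_toWord
  have hRmk : FreeGroup.mk R = FreeGroup.mk M := FreeGroup.mk_toWord
  set P := FreeGroup.reduceCyclically.conjugator R with hP
  set Q := FreeGroup.reduceCyclically R with hQ
  have hdec : P ++ Q ++ FreeGroup.invRev P = R :=
    FreeGroup.reduceCyclically.conj_conjugator_reduceCyclically R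
  have hQc : FreeGroup.IsCyclicallyReduced Q :=
    FreeGroup.reduceCyclically.isCyclicallyReduced hRred
  rw [← hdec, walk_append] at hM'
  obtain ⟨y, hy, hy'⟩ := hM'
  obtain ⟨x, hx, hx'⟩ := walk_append.1 hy
  have h1 := walk_symm hy'
  rw [FreeGroup.invRev_invRev] at h1
  obtain rfl := walk_det hx h1
  have hmk : FreeGroup.mk Q = (FreeGroup.mk P)⁻¹ * FreeGroup.mk M * FreeGroup.mk P := by
    rw [← hRmk, ← hdec, mk_append, mk_append, ← FreeGroup.inv_mk]
    group
  have hQd : ∀ a s, O.lo.lt (FreeGroup.mk Q * a, s) (a, s) := by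
    intro a s
    have h2 := hdown (FreeGroup.mk P * a) s
    rw [← lt_inv O (FreeGroup.mk P)]
    have h3 : FreeGroup.mk P * (FreeGroup.mk Q * a) = FreeGroup.mk M * (FreeGroup.mk P * a) := by
      rw [hmk]
      group
    rw [h3]
    exact h2
  have hQ0 : Q ≠ [] := by
    intro h0
    have h3 : (FreeGroup.mk ([] : List (S × Bool))) = 1 := rfl
    rw [h0, h3] at hmk
    have h4 : FreeGroup.mk M = FreeGroup.mk P * ((FreeGroup.mk P)⁻¹ * FreeGroup.mk M *
        FreeGroup.mk P) * (FreeGroup.mk P)⁻¹ := by group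
    rw [← hmk, mul_one, mul_inv_cancel] at h4
    exact hM1 h4
  have hst := start_of_closed hx' hQ0 hQc hQd
  -- transport along `P`
  have hconn : D.Conn x u := Conn.symm ⟨P, hx⟩
  exact Conn.induction (p := fun z => ∃ m, D.L2Start O z m) hst
    (fun a l b ha hab => hasStart_step (step_symm.2 hab) ha) hconn

private theorem toWord_mul_lv (g : FreeGroup S) (l : S × Bool) :
    (g * lv l).toWord = g.toWord ++ [l] ∨ g.toWord = (g * lv l).toWord ++ [linv l] := by
  have hg : g = FreeGroup.mk g.toWord := FreeGroup.mk_toWord.symm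
  have hred : FreeGroup.IsReduced g.toWord := FreeGroup.isReduced_toWord
  set L := g.toWord with hL
  rcases List.eq_nil_or_concat L with h0 | ⟨L', a, h0⟩
  · left
    rw [hg, h0]
    have h1 : FreeGroup.mk ([] : List (S × Bool)) = 1 := rfl
    rw [h1, one_mul]
    unfold lv
    rw [FreeGroup.toWord_mk]
    simp
  · rw [List.concat_eq_append] at h0
    by_cases ha : a = linv l
    · right
      subst ha
      have h1 : g * lv l = FreeGroup.mk L' := by
        rw [hg, h0, mk_append]
        have h2 : FreeGroup.mk [linv l] = (lv l)⁻¹ := lv_linv l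
        rw [h2]
        group
      rw [h1, FreeGroup.toWord_mk, h0]
      have h3 : FreeGroup.IsReduced L' :=
        List.IsChain.left_of_append (l₂ := [linv l]) (h0 ▸ hred)
      rw [h3.reduce_eq]
    · left
      have h1 : g * lv l = FreeGroup.mk (L ++ [l]) := by
        rw [mk_append, ← hg]
        rfl
      rw [h1, FreeGroup.toWord_mk]
      have h2 : FreeGroup.IsReduced (L ++ [l]) := by
        unfold FreeGroup.IsReduced at hred ⊢
        rw [List.isChain_append]
        refine ⟨hred, List.isChain_singleton _, ?_⟩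
        intro x hx y hy
        rw [h0] at hx
        simp only [List.getLast?_append, List.getLast?_singleton, Option.some_or,
          Option.mem_def, Option.some.injEq] at hx
        simp only [List.head?_cons, Option.mem_def, Option.some.injEq] at hy
        subst hx hy
        refine (red_iff _ _).2 ?_
        intro h3
        apply ha
        rw [h3, linv_linv]
      rw [h2.reduce_eq]

/-- a component with a potential has at most as many edges as vertices -/
private theorem pot_card_le [Fintype V] (Γ : LG V S) {C : Finset V} (hC : C ∈ Γ.comps)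
    (h : Γ.Pot C) : (Γ.edges C).card ≤ C.card := by
  obtain ⟨φ, hφ⟩ := h
  have hφ' : ∀ u s v, (u, s, v) ∈ Γ.edges C → φ v = φ u * lv (s, true) := by
    intro u s v he
    obtain ⟨h1, h2⟩ := mem_edges.1 he
    rw [lv_true]
    exact hφ u s v h1 h2
  let f : V × S × V → V := fun e =>
    if (φ e.2.2).toWord = (φ e.1).toWord ++ [(e.2.1, true)] then e.2.2 else e.1
  have hf : ∀ u s v, (u, s, v) ∈ Γ.edges C →
      (f (u, s, v) = v ∧ (φ v).toWord = (φ u).toWord ++ [(s, true)]) ∨
      (f (u, s, v) = u ∧ (φ u).toWord = (φ v).toWord ++ [(s, false)]) := by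
    intro u s v he
    by_cases h1 : (φ v).toWord = (φ u).toWord ++ [(s, true)]
    · left
      exact ⟨if_pos h1, h1⟩
    · right
      refine ⟨if_neg h1, ?_⟩
      rcases toWord_mul_lv (φ u) (s, true) with h2 | h2
      · rw [← hφ' u s v he] at h2
        exact absurd h2 h1
      · rw [← hφ' u s v he] at h2
        exact h2
  refine Finset.card_le_card_of_injOn f ?_ ?_
  · rintro ⟨u, s, v⟩ he
    have he' : (u, s, v) ∈ Γ.edges C := he
    obtain ⟨h1, h2⟩ := mem_edges.1 he'
    rcases hf u s v he' with ⟨h3, -⟩ | ⟨h3, -⟩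
    · rw [h3]
      exact (mem_of_edge hC h1).1 h2
    · rw [h3]
      exact h2
  · rintro ⟨u, s, v⟩ he ⟨u', s', v'⟩ he' hff
    have hE : (u, s, v) ∈ Γ.edges C := he
    have hE' : (u', s', v') ∈ Γ.edges C := he'
    have h1 := (mem_edges.1 hE).1
    have h1' := (mem_edges.1 hE').1
    rcases hf u s v hE with ⟨h3, h4⟩ | ⟨h3, h4⟩ <;> rcases hf u' s' v' hE' with ⟨h5, h6⟩ | ⟨h5, h6⟩
    · rw [h3, h5] at hff
      subst hff
      rw [h4] at h6
      have h7 := List.append_inj_right' h6 rfl
      simp only [List.cons.injEq, Prod.mk.injEq, and_true] at h7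
      subst h7
      obtain rfl := Γ.cod h1 h1'
      rfl
    · rw [h3, h5] at hff
      subst hff
      rw [h4] at h6
      have h7 := List.append_inj_right' h6 rfl
      simp at h7
    · rw [h3, h5] at hff
      subst hff
      rw [h4] at h6
      have h7 := List.append_inj_right' h6 rfl
      simp at h7
    · rw [h3, h5] at hff
      subst hff
      rw [h4] at h6
      have h7 := List.append_inj_right' h6 rfl
      simp only [List.cons.injEq, Prod.mk.injEq, and_true] at h7
      subst h7
      obtain rfl := Γ.det h1 h1'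
      rfl

/-- if all closed words at `x` are trivial then the component of `x` has a potential -/
private theorem pot_of_closed [Fintype V] (Γ : LG V S) {C : Finset V} (hC : C ∈ Γ.comps) {x : V}
    (hx : x ∈ C) (h : ∀ L, Γ.Walk x L x → FreeGroup.mk L = 1) : Γ.Pot C := by
  have h1 : ∀ v, ∃ L, v ∈ C → Γ.Walk x L v := by
    intro v
    by_cases hv : v ∈ C
    · obtain ⟨L, hL⟩ := conn_of_mem_comps hC hx hv
      exact ⟨L, fun _ => hL⟩
    · exact ⟨[], fun h' => absurd h' hv⟩
  choose W hW using h1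
  refine ⟨fun v => FreeGroup.mk (W v), ?_⟩
  intro u s v he hu
  have hv : v ∈ C := (mem_of_edge hC he).1 hu
  have h2 : Γ.Walk x (W u ++ [(s, true)] ++ FreeGroup.invRev (W v)) x := by
    rw [walk_append]
    refine ⟨v, ?_, walk_symm (hW v hv)⟩
    rw [walk_append]
    exact ⟨u, hW u hu, walk_singleton.2 (step_true.2 he)⟩
  have h3 := h _ h2
  rw [mk_append, mk_append, ← FreeGroup.inv_mk] at h3
  have h4 : FreeGroup.mk [(s, true)] = FreeGroup.of s := rfl
  rw [h4, mul_inv_eq_one] at h3
  exact h3.symm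

theorem cut_comps_le [Fintype V] (O : EOrd S) (Γ : LG V S) {C : Finset V}
    (hC : C ∈ (Γ.cut O).comps) : ((Γ.cut O).edges C).card ≤ C.card := by
  by_cases hpot : (Γ.cut O).Pot C
  · exact pot_card_le _ hC hpot
  set D := Γ.cut O with hD
  have hstart : ∀ u ∈ C, ∃ m, D.L2Start O u m := by
    intro u hu
    by_contra hno
    apply hpot
    refine pot_of_closed D hC hu ?_
    intro L hL
    by_contra hne
    exact hno (exists_start hL hne)
  let f : V × S × V → V := fun e => if D.L2Start O e.1 (e.2.1, true) then e.1 else e.2.2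
  have hf : ∀ u s v, (u, s, v) ∈ D.edges C →
      (f (u, s, v) = u ∧ D.L2Start O u (s, true)) ∨
      (f (u, s, v) = v ∧ D.L2Start O v (s, false)) := by
    intro u s v he
    obtain ⟨h1, h2⟩ := mem_edges.1 he
    by_cases h3 : D.L2Start O u (s, true)
    · left
      exact ⟨if_pos h3, h3⟩
    · right
      refine ⟨if_neg h3, ?_⟩
      rcases start_or (step_true.2 h1) (hstart u h2) with h4 | h4
      · exact absurd h4 h3
      · exact h4
  refine Finset.card_le_card_of_injOn f ?_ ?_
  · rintro ⟨u, s, v⟩ he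
    have he' : (u, s, v) ∈ D.edges C := he
    obtain ⟨h1, h2⟩ := mem_edges.1 he'
    rcases hf u s v he' with ⟨h3, -⟩ | ⟨h3, -⟩
    · rw [h3]
      exact h2
    · rw [h3]
      exact (mem_of_edge hC h1).1 h2
  · rintro ⟨u, s, v⟩ he ⟨u', s', v'⟩ he' hff
    have hE : (u, s, v) ∈ D.edges C := he
    have hE' : (u', s', v') ∈ D.edges C := he'
    have h1 := (mem_edges.1 hE).1
    have h1' := (mem_edges.1 hE').1
    rcases hf u s v hE with ⟨h3, h4⟩ | ⟨h3, h4⟩ <;> rcases hf u' s' v' hE' with ⟨h5, h6⟩ | ⟨h5, h6⟩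
    · rw [h3, h5] at hff
      subst hff
      have h7 := start_unique h4 h6
      simp only [Prod.mk.injEq, and_true] at h7
      subst h7
      obtain rfl := D.det h1 h1'
      rfl
    · rw [h3, h5] at hff
      subst hff
      have h7 := start_unique h4 h6
      simp at h7
    · rw [h3, h5] at hff
      subst hff
      have h7 := start_unique h4 h6
      simp at h7
    · rw [h3, h5] at hff
      subst hff
      have h7 := start_unique h4 h6
      simp only [Prod.mk.injEq, and_true] at h7
      subst h7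
      obtain rfl := D.cod h1 h1'
      rfl

end LG

end Pool.Agent.LIA
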