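import Pool.Agent.Lib.MP_cf50d6_gt.Basic

/-!
# The reduced rank of a disjoint union

(helper98, problem MP_cf50d6_gt)
-/

set_option autoImplicit false

open scoped Classical

namespace Pool.Agent.LIA

namespace LG

section

variable {ι Ω R : Type*} {V' S' : ι → Type*} {Γ : LG Ω R} {Γ' : ∀ i, LG (V' i) (S' i)}
  {f : ∀ i, V' i → Ω} {g : ∀ i, S' i → R}

theorem sig_step (hf : ∀ i, Function.Injective (f i))
    (hdis : ∀ i j u v, f i u = f j v → i = j)
    (hF : ∀ u s v, (u, s, v) ∈ Γ.F ↔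
      ∃ i u' s' v', f i u' = u ∧ g i s' = s ∧ f i v' = v ∧ (u', s', v') ∈ (Γ' i).F)
    {i : ι} {u : V' i} {l : R × Bool} {w : Ω} (h : Γ.Step (f i u) l w) :
    ∃ l' v, f i v = w ∧ (Γ' i).Step u l' v := by
  obtain ⟨s, b⟩ := l
  cases b
  · rw [step_false, hF] at h
    obtain ⟨j, u', s', v', h1, h2, h3, h4⟩ := h
    obtain rfl := hdis _ _ _ _ h3
    obtain rfl := hf _ h3
    exact ⟨(s', false), u', h1, step_false.2 h4⟩
  · rw [step_true, hF] at h
    obtain ⟨j, u', s', v', h1, h2, h3, h4⟩ := h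
    obtain rfl := hdis _ _ _ _ h1
    obtain rfl := hf _ h1
    exact ⟨(s', true), v', h3, step_true.2 h4⟩

theorem sig_conn (hf : ∀ i, Function.Injective (f i))
    (hdis : ∀ i j u v, f i u = f j v → i = j)
    (hF : ∀ u s v, (u, s, v) ∈ Γ.F ↔
      ∃ i u' s' v', f i u' = u ∧ g i s' = s ∧ f i v' = v ∧ (u', s', v') ∈ (Γ' i).F)
    {i : ι} {u : V' i} {w : Ω} : Γ.Conn (f i u) w ↔ ∃ v, f i v = w ∧ (Γ' i).Conn u v := by
  constructor
  · intro h
    refine Conn.induction (p := fun w => ∃ v, f i v = w ∧ (Γ' i).Conn u v)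
      ⟨u, rfl, conn_refl u⟩ ?_ h
    rintro _ l b ⟨v, rfl, hv⟩ h2
    obtain ⟨l', v', h3, h4⟩ := sig_step hf hdis hF h2
    exact ⟨v', h3, hv.trans h4.conn⟩
  · rintro ⟨v, rfl, hv⟩
    refine Conn.induction (p := fun v => Γ.Conn (f i u) (f i v)) (conn_refl _) ?_ hv
    rintro a ⟨s, b⟩ c h1 h2
    refine h1.trans ?_
    cases b
    · rw [step_false] at h2
      exact (conn_of_mem (s := g i s) ((hF _ _ _).2 ⟨i, _, _, _, rfl, rfl, rfl, h2⟩)).symm
    · rw [step_true] at h2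
      exact conn_of_mem (s := g i s) ((hF _ _ _).2 ⟨i, _, _, _, rfl, rfl, rfl, h2⟩)

/-- walks of the disjoint union -/
theorem sig_walk (hf : ∀ i, Function.Injective (f i))
    (hdis : ∀ i j u v, f i u = f j v → i = j)
    (hF : ∀ u s v, (u, s, v) ∈ Γ.F ↔
      ∃ i u' s' v', f i u' = u ∧ g i s' = s ∧ f i v' = v ∧ (u', s', v') ∈ (Γ' i).F)
    {i : ι} {u : V' i} {L : List (R × Bool)} {w : Ω} (h : Γ.Walk (f i u) L w) :
    ∃ L' v, f i v = w ∧ L = L'.map (fun x => (g i x.1, x.2)) ∧ (Γ' i).Walk u L' v := by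
  induction L generalizing u with
  | nil => exact ⟨[], u, h, rfl, rfl⟩
  | cons l L ih =>
    obtain ⟨a, ha, ha'⟩ := h
    have key : ∃ (s' : S' i) (v : V' i), f i v = a ∧ l = (g i s', l.2) ∧
        (Γ' i).Step u (s', l.2) v := by
      obtain ⟨s, b⟩ := l
      cases b
      · rw [step_false, hF] at ha
        obtain ⟨j, u', s', v', h1, h2, h3, h4⟩ := ha
        obtain rfl := hdis _ _ _ _ h3
        obtain rfl := hf _ h3
        exact ⟨s', u', h1, by rw [h2], step_false.2 h4⟩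
      · rw [step_true, hF] at ha
        obtain ⟨j, u', s', v', h1, h2, h3, h4⟩ := ha
        obtain rfl := hdis _ _ _ _ h1
        obtain rfl := hf _ h1
        exact ⟨s', v', h3, by rw [h2], step_true.2 h4⟩
    obtain ⟨s', v, rfl, hl, hv⟩ := key
    obtain ⟨L', v', h1, rfl, h3⟩ := ih ha'
    refine ⟨(s', l.2) :: L', v', h1, ?_, v, hv, h3⟩
    rw [List.map_cons, ← hl]

theorem sig_walk_mk
    (hF : ∀ u s v, (u, s, v) ∈ Γ.F ↔
      ∃ i u' s' v', f i u' = u ∧ g i s' = s ∧ f i v' = v ∧ (u', s', v') ∈ (Γ' i).F)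
    {i : ι} {u v : V' i} {L : List (S' i × Bool)} (h : (Γ' i).Walk u L v) :
    Γ.Walk (f i u) (L.map fun x => (g i x.1, x.2)) (f i v) := by
  induction L generalizing u with
  | nil => exact congrArg (f i) h
  | cons l L ih =>
    obtain ⟨a, ha, ha'⟩ := h
    refine ⟨f i a, ?_, ih ha'⟩
    obtain ⟨s, b⟩ := l
    cases b
    · rw [step_false] at ha
      exact step_false.2 ((hF _ _ _).2 ⟨i, _, _, _, rfl, rfl, rfl, ha⟩)
    · rw [step_true] at ha
      exact step_true.2 ((hF _ _ _).2 ⟨i, _, _, _, rfl, rfl, rfl, ha⟩)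

theorem sig_comp [Fintype Ω] [∀ i, Fintype (V' i)] (hf : ∀ i, Function.Injective (f i))
    (hdis : ∀ i j u v, f i u = f j v → i = j)
    (hF : ∀ u s v, (u, s, v) ∈ Γ.F ↔
      ∃ i u' s' v', f i u' = u ∧ g i s' = s ∧ f i v' = v ∧ (u', s', v') ∈ (Γ' i).F)
    {i : ι} {u : V' i} : Γ.comp (f i u) = ((Γ' i).comp u).image (f i) := by
  ext w
  rw [mem_comp, sig_conn hf hdis hF, Finset.mem_image]
  constructor
  · rintro ⟨v, h1, h2⟩
    exact ⟨v, mem_comp.2 h2, h1⟩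
  · rintro ⟨v, h1, h2⟩
    exact ⟨v, h2, mem_comp.1 h1⟩

theorem sig_edges (hf : ∀ i, Function.Injective (f i))
    (hdis : ∀ i j u v, f i u = f j v → i = j) (hg : ∀ i, Function.Injective (g i))
    (hF : ∀ u s v, (u, s, v) ∈ Γ.F ↔
      ∃ i u' s' v', f i u' = u ∧ g i s' = s ∧ f i v' = v ∧ (u', s', v') ∈ (Γ' i).F)
    {i : ι} {C : Finset (V' i)} :
    (Γ.edges (C.image (f i))).card = ((Γ' i).edges C).card := by
  have h1 : Γ.edges (C.image (f i)) =
      ((Γ' i).edges C).image fun e => (f i e.1, g i e.2.1, f i e.2.2) := by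
    ext ⟨u, s, v⟩
    rw [mem_edges, hF, Finset.mem_image, Finset.mem_image]
    constructor
    · rintro ⟨⟨j, u', s', v', h1, h2, h3, h4⟩, c, hc, hc'⟩
      obtain rfl := hdis _ _ _ _ (h1.trans hc'.symm)
      obtain rfl := hf _ (h1.trans hc'.symm)
      exact ⟨(u', s', v'), mem_edges.2 ⟨h4, hc⟩, by simp only [h1, h2, h3]⟩
    · rintro ⟨⟨u', s', v'⟩, h1, h2⟩
      rw [mem_edges] at h1
      simp only [Prod.mk.injEq] at h2
      obtain ⟨rfl, rfl, rfl⟩ := h2
      exact ⟨⟨i, u', s', v', rfl, rfl, rfl, h1.1⟩, u', h1.2, rfl⟩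
  rw [h1, Finset.card_image_of_injective]
  rintro ⟨u, s, v⟩ ⟨u', s', v'⟩ h
  simp only [Prod.mk.injEq] at h
  obtain ⟨h1, h2, h3⟩ := h
  rw [hf _ h1, hg _ h2, hf _ h3]

/-- the reduced rank of a disjoint union (with some additional isolated vertices) -/
theorem rr_sum [Fintype ι] [Fintype Ω] [∀ i, Fintype (V' i)]
    (hf : ∀ i, Function.Injective (f i))
    (hdis : ∀ i j u v, f i u = f j v → i = j) (hg : ∀ i, Function.Injective (g i))
    (hF : ∀ u s v, (u, s, v) ∈ Γ.F ↔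
      ∃ i u' s' v', f i u' = u ∧ g i s' = s ∧ f i v' = v ∧ (u', s', v') ∈ (Γ' i).F) :
    Γ.rr = ∑ i, (Γ' i).rr := by
  unfold rr
  rw [Finset.sum_sigma']
  have h1 : Set.InjOn (fun x : Σ i, Finset (V' i) => x.2.image (f x.1))
      (Finset.univ.sigma fun i => (Γ' i).comps : Finset (Σ i, Finset (V' i))) := by
    rintro ⟨i, C⟩ hC ⟨j, D⟩ hD h
    rw [Finset.mem_coe, Finset.mem_sigma] at hC hD
    change C.image (f i) = D.image (f j) at h
    obtain ⟨c, hc⟩ := nonempty_of_mem_comps hC.2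
    have h2 : f i c ∈ D.image (f j) := h ▸ Finset.mem_image_of_mem _ hc
    obtain ⟨d, hd, hd'⟩ := Finset.mem_image.1 h2
    obtain rfl := hdis _ _ _ _ hd'
    rw [Finset.image_injective (hf j) h]
  have h2 : ∀ x : Σ i, Finset (V' i),
      ((Γ' x.1).edges x.2).card - x.2.card =
        (Γ.edges (x.2.image (f x.1))).card - (x.2.image (f x.1)).card := by
    rintro ⟨i, C⟩
    simp only
    rw [sig_edges hf hdis hg hF, Finset.card_image_of_injective _ (hf i)]
  rw [Finset.sum_congr rfl fun x _ => h2 x, ← Finset.sum_image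
    (f := fun C : Finset Ω => (Γ.edges C).card - C.card) h1]
  symm
  apply Finset.sum_subset
  · intro D hD
    rw [Finset.mem_image] at hD
    obtain ⟨⟨i, C⟩, hC, rfl⟩ := hD
    rw [Finset.mem_sigma] at hC
    obtain ⟨u, hu⟩ := mem_comps.1 hC.2
    simp only at hu ⊢
    rw [hu, ← sig_comp hf hdis hF]
    exact comp_mem_comps _
  · intro D hD hD'
    have h3 : Γ.edges D = ∅ := by
      rw [Finset.eq_empty_iff_forall_notMem]
      rintro ⟨u, s, v⟩ he
      rw [mem_edges, hF] at he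
      obtain ⟨⟨i, u', s', v', rfl, h2, h3, h4⟩, h5⟩ := he
      apply hD'
      rw [Finset.mem_image]
      refine ⟨⟨i, (Γ' i).comp u'⟩, Finset.mem_sigma.2 ⟨Finset.mem_univ _, comp_mem_comps u'⟩, ?_⟩
      rw [eq_comp_of_mem hD h5, sig_comp hf hdis hF]
    rw [h3]
    simp

/-- the disjoint union of a family of graphs -/
theorem exists_sum [Fintype ι] [Fintype Ω] [∀ i, Fintype (V' i)] (Γ' : ∀ i, LG (V' i) (S' i))
    (f : ∀ i, V' i → Ω) (g : ∀ i, S' i → R) (hf : ∀ i, Function.Injective (f i))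
    (hdis : ∀ i j u v, f i u = f j v → i = j) (hg : ∀ i, Function.Injective (g i)) :
    ∃ Γ : LG Ω R, (∀ u s v, (u, s, v) ∈ Γ.F ↔
      ∃ i u' s' v', f i u' = u ∧ g i s' = s ∧ f i v' = v ∧ (u', s', v') ∈ (Γ' i).F) ∧
      Γ.F.card = ∑ i, (Γ' i).F.card ∧ Γ.rr = ∑ i, (Γ' i).rr := by
  let F : Finset (Ω × R × Ω) := (Finset.univ.sigma fun i => (Γ' i).F).image
    fun e : Σ i, V' i × S' i × V' i => (f e.1 e.2.1, g e.1 e.2.2.1, f e.1 e.2.2.2)
  have hF : ∀ u s v, (u, s, v) ∈ F ↔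
      ∃ i u' s' v', f i u' = u ∧ g i s' = s ∧ f i v' = v ∧ (u', s', v') ∈ (Γ' i).F := by
    intro u s v
    rw [Finset.mem_image]
    constructor
    · rintro ⟨⟨i, u', s', v'⟩, h1, h2⟩
      rw [Finset.mem_sigma] at h1
      simp only [Prod.mk.injEq] at h2
      exact ⟨i, u', s', v', h2.1, h2.2.1, h2.2.2, h1.2⟩
    · rintro ⟨i, u', s', v', rfl, rfl, rfl, h⟩
      exact ⟨⟨i, u', s', v'⟩, Finset.mem_sigma.2 ⟨Finset.mem_univ _, h⟩, rfl⟩
  let Γ : LG Ω R :=
    { F := F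
      det := by
        intro u s v v' h h'
        rw [hF] at h h'
        obtain ⟨i, u1, s1, v1, h1, h2, rfl, h4⟩ := h
        obtain ⟨j, u2, s2, v2, h1', h2', rfl, h4'⟩ := h'
        obtain rfl := hdis _ _ _ _ (h1.trans h1'.symm)
        obtain rfl := hf _ (h1.trans h1'.symm)
        obtain rfl := hg _ (h2.trans h2'.symm)
        rw [(Γ' i).det h4 h4']
      cod := by
        intro u u' s v h h'
        rw [hF] at h h'
        obtain ⟨i, u1, s1, v1, rfl, h2, h3, h4⟩ := h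
        obtain ⟨j, u2, s2, v2, rfl, h2', h3', h4'⟩ := h'
        obtain rfl := hdis _ _ _ _ (h3.trans h3'.symm)
        obtain rfl := hf _ (h3.trans h3'.symm)
        obtain rfl := hg _ (h2.trans h2'.symm)
        rw [(Γ' i).cod h4 h4'] }
  refine ⟨Γ, hF, ?_, rr_sum hf hdis hg hF⟩
  change F.card = _
  rw [Finset.card_image_of_injOn, Finset.card_sigma]
  rintro ⟨i, u1, s1, v1⟩ _ ⟨j, u2, s2, v2⟩ _ h
  simp only [Prod.mk.injEq] at h
  obtain ⟨h1, h2, h3⟩ := h
  obtain rfl := hdis _ _ _ _ h1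
  rw [hf _ h1, hg _ h2, hf _ h3]

end

end LG

end Pool.Agent.LIA
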