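import Pool.Agent.Lib.MP_cf50d6_gt.Defs

/-!
# Bi-order of the free group (Magnus expansion)

(helper8, problem MP_cf50d6_gt)

Noncommutative formal power series over `ℤ` are functions on lists; the generator `s` is sent to
the series `1 + s`. The sign of the first nonzero coefficient (for an order of the lists which
refines the length) of a nonconstant word is a bi-order of the free group.
-/

set_option autoImplicit false

open scoped Classical

namespace Pool.Agent.LIA

namespace OrdAux

/-- formal power series in noncommuting variables -/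
def Mag (S : Type*) : Type _ := List S → ℤ

variable {S : Type*}

/-- the product of power series -/
def mmul : (List S → ℤ) → (List S → ℤ) → List S → ℤ
  | f, g, [] => f [] * g []
  | f, g, x :: l => f [] * g (x :: l) + mmul (fun t => f (x :: t)) g l

/-- the unit -/
def mone : List S → ℤ
  | [] => 1
  | _ :: _ => 0

private theorem mmul_zero_left (g : List S → ℤ) (l : List S) : mmul (fun _ => 0) g l = 0 := by
  induction l with
  | nil => simp [mmul]
  | cons x l ih => simp [mmul, ih]

private theorem mmul_lin (a : ℤ) (f f' g : List S → ℤ) (l : List S) :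
    mmul (fun t => a * f t + f' t) g l = a * mmul f g l + mmul f' g l := by
  induction l generalizing f f' with
  | nil => simp only [mmul]; ring
  | cons x l ih => simp only [mmul, ih]; ring

private theorem mmul_assoc (f g h : List S → ℤ) (l : List S) :
    mmul (mmul f g) h l = mmul f (mmul g h) l := by
  induction l generalizing f with
  | nil => simp only [mmul]; ring
  | cons x l ih =>
    have e : (fun t => mmul f g (x :: t)) =
        fun t => f [] * (fun t => g (x :: t)) t + mmul (fun t => f (x :: t)) g t := by
      funext t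
      simp only [mmul]
    rw [mmul, e, mmul_lin, ih, mmul, mmul, mmul]
    ring

private theorem mone_mmul (g : List S → ℤ) (l : List S) : mmul mone g l = g l := by
  cases l with
  | nil => simp [mmul, mone]
  | cons x l =>
    have e : (fun t : List S => mone (x :: t)) = fun _ => (0 : ℤ) := rfl
    rw [mmul, e, mmul_zero_left]
    simp [mone]

private theorem mmul_mone (f : List S → ℤ) (l : List S) : mmul f mone l = f l := by
  induction l generalizing f with
  | nil => simp [mmul, mone]
  | cons x l ih => rw [mmul, ih]; simp [mone]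

instance : Monoid (Mag S) where
  mul f g := mmul f g
  one := mone
  mul_assoc f g h := funext fun l => mmul_assoc f g h l
  one_mul f := funext fun l => mone_mmul f l
  mul_one f := funext fun l => mmul_mone f l

/-- the series `1 + s` -/
noncomputable def ug (s : S) : Mag S
  | [] => 1
  | x :: l => if x = s ∧ l = [] then 1 else 0

/-- the series `1 - s + s ^ 2 - ...` -/
noncomputable def ui (s : S) : Mag S
  | [] => 1
  | x :: l => if x = s then - ui s l else 0

private theorem ug_mul (s : S) (f : List S → ℤ) (x : S) (l : List S) :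
    mmul (ug s) f (x :: l) = f (x :: l) + if x = s then f l else 0 := by
  have e : (fun t : List S => ug s (x :: t)) = if x = s then mone else fun _ => 0 := by
    funext t
    by_cases h : x = s
    · cases t <;> simp [ug, mone, h]
    · simp [ug, h]
  rw [mmul, e]
  split_ifs with h
  · rw [mone_mmul]; simp [ug]
  · rw [mmul_zero_left]; simp [ug]

private theorem ug_ui (s : S) (l : List S) : mmul (ug s) (ui s) l = mone l := by
  cases l with
  | nil => simp [mmul, ug, ui, mone]
  | cons x l =>
    rw [ug_mul, ui, mone]
    split_ifs <;> simp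

private theorem ui_ug (s : S) (l : List S) : mmul (ui s) (ug s) l = mone l := by
  induction l with
  | nil => simp [mmul, ug, ui, mone]
  | cons x l ih =>
    by_cases h : x = s
    · have e : (fun t : List S => ui s (x :: t)) = fun t => (-1) * ui s t + (fun _ => 0) t := by
        funext t
        simp [ui, h]
      rw [mmul, e, mmul_lin, ih, mmul_zero_left]
      cases l <;> simp [ui, ug, mone, h]
    · have e : (fun t : List S => ui s (x :: t)) = fun _ => 0 := by
        funext t
        simp [ui, h]
      rw [mmul, e, mmul_zero_left]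
      simp [ug, mone, h]

/-- the Magnus representation -/
noncomputable def mag : FreeGroup S →* (Mag S)ˣ :=
  FreeGroup.lift fun s => ⟨ug s, ui s, funext (ug_ui s), funext (ui_ug s)⟩

/-- the Magnus coefficients -/
noncomputable def mu (g : FreeGroup S) (l : List S) : ℤ := (mag g : Mag S) l

private theorem mu_mul (g h : FreeGroup S) (l : List S) : mu (g * h) l = mmul (mu g) (mu h) l := by
  unfold mu
  rw [map_mul, Units.val_mul]
  rfl

private theorem mu_one (l : List S) : mu (1 : FreeGroup S) l = mone l := by
  unfold mu
  rw [map_one]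
  rfl

private theorem mu_nil (g : FreeGroup S) : mu g [] = 1 := by
  induction g using FreeGroup.induction_on with
  | C1 => rw [mu_one]; rfl
  | of s => unfold mu mag; rw [FreeGroup.lift_apply_of]; rfl
  | inv_of s _ => unfold mu mag; rw [map_inv, FreeGroup.lift_apply_of]; rfl
  | mul x y hx hy => rw [mu_mul, mmul, hx, hy, one_mul]

private theorem mmul_low (h g : List S → ℤ) (l : List S)
    (hh : ∀ l' : List S, l'.length < l.length → h l' = 0) : mmul h g l = h l * g [] := by
  induction l generalizing h with
  | nil => simp [mmul]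
  | cons x l ih =>
    rw [mmul, hh [] (by simp), ih (fun t => h (x :: t)) (fun l' hl' => hh _ (by simpa using hl'))]
    ring

private theorem mmul_high (h f : List S → ℤ) (l : List S)
    (hf : ∀ l' : List S, l' ≠ [] → l'.length ≤ l.length → f l' = 0) :
    mmul h f l = h l * f [] := by
  induction l generalizing h with
  | nil => simp [mmul]
  | cons x l ih =>
    rw [mmul, hf (x :: l) (by simp) le_rfl,
      ih (fun t => h (x :: t)) (fun l' h1 h2 => hf _ h1 (by simp; omega))]
    ring

private theorem mu_add_left (g h : FreeGroup S) (l : List S) (hl : l ≠ [])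
    (hg : ∀ l' : List S, l' ≠ [] → l'.length < l.length → mu g l' = 0) :
    mu (g * h) l = mu g l + mu h l := by
  cases l with
  | nil => exact absurd rfl hl
  | cons x l =>
    rw [mu_mul, mmul, mmul_low _ _ _ (fun l' hl' => hg _ (by simp) (by simpa using hl')),
      mu_nil, mu_nil]
    ring

private theorem mu_add_right (g h : FreeGroup S) (l : List S) (hl : l ≠ [])
    (hh : ∀ l' : List S, l' ≠ [] → l'.length < l.length → mu h l' = 0) :
    mu (g * h) l = mu g l + mu h l := by
  cases l with
  | nil => exact absurd rfl hl
  | cons x l =>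
    rw [mu_mul, mmul, mmul_high _ _ _ (fun l' h1 hl' => hh _ h1 (by simp; omega)),
      mu_nil, mu_nil]
    ring

/-! ### faithfulness -/

/-- sign of a letter -/
def sg (b : Bool) : ℤ := if b then 1 else -1

/-- no two consecutive letters are equal -/
def Alt (l : List S) : Prop := l.IsChain (· ≠ ·)

private theorem alt_tail {x : S} {l : List S} (h : Alt (x :: l)) : Alt l := by
  unfold Alt at *
  exact h.tail

private theorem alt_head {x : S} {l : List S} (h : Alt (x :: l)) : l.head? ≠ some x := by
  unfold Alt at *
  cases l with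
  | nil => simp
  | cons y l =>
    rw [List.isChain_cons_cons] at h
    simp only [List.head?_cons, ne_eq, Option.some.injEq]
    exact fun e => h.1 e.symm

private theorem alt_cons {x : S} {l : List S} (h : Alt l) (h' : l.head? ≠ some x) :
    Alt (x :: l) := by
  unfold Alt at *
  cases l with
  | nil => simp
  | cons y l =>
    rw [List.isChain_cons_cons]
    simp only [List.head?_cons, ne_eq, Option.some.injEq] at h'
    exact ⟨fun e => h' e.symm, h⟩

private theorem mu_lv_mul (x : S) (b : Bool) (g : FreeGroup S) (l : List S)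
    (hl : l.head? ≠ some x) : mu (lv (x, b) * g) l = mu g l := by
  cases l with
  | nil => rw [mu_nil, mu_nil]
  | cons y l =>
    have hy : y ≠ x := by simpa using hl
    have key : ∀ g : FreeGroup S, mu (FreeGroup.of x * g) (y :: l) = mu g (y :: l) := by
      intro g
      rw [mu_mul]
      have e : mu (FreeGroup.of x) = ug x := by
        unfold mu mag; rw [FreeGroup.lift_apply_of]
      rw [e, ug_mul, if_neg hy, add_zero]
    cases b
    · have e : lv (x, false) = (FreeGroup.of x)⁻¹ := by
        simp [lv, FreeGroup.of, FreeGroup.inv_mk, FreeGroup.invRev]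
      rw [e, ← key ((FreeGroup.of x)⁻¹ * g), mul_inv_cancel_left]
    · exact key g

private theorem mu_lv_mul_cons (x : S) (b : Bool) (g : FreeGroup S) (l : List S)
    (hl : l.head? ≠ some x) :
    mu (lv (x, b) * g) (x :: l) = mu g (x :: l) + sg b * mu g l := by
  have key : ∀ g : FreeGroup S,
      mu (FreeGroup.of x * g) (x :: l) = mu g (x :: l) + mu g l := by
    intro g
    rw [mu_mul]
    have e : mu (FreeGroup.of x) = ug x := by
      unfold mu mag; rw [FreeGroup.lift_apply_of]
    rw [e, ug_mul, if_pos rfl]
  cases b
  · have e : lv (x, false) = (FreeGroup.of x)⁻¹ := by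
      simp [lv, FreeGroup.of, FreeGroup.inv_mk, FreeGroup.invRev]
    have h1 := key ((FreeGroup.of x)⁻¹ * g)
    rw [mul_inv_cancel_left] at h1
    have h2 := mu_lv_mul x false g l hl
    rw [e] at h2 ⊢
    rw [h2] at h1
    simp only [sg]
    simp
    linarith
  · rw [show lv (x, true) = FreeGroup.of x from rfl, key g]
    simp [sg]

/-- the leading alternating word of a reduced word -/
private theorem lead (L : List (S × Bool)) (x : S) (b : Bool)
    (hL : ((x, b) :: L).IsChain (fun p q => p.1 = q.1 → p.2 = q.2)) :
    ∃ (t : List S) (k : ℤ), Alt (x :: t) ∧ mu (FreeGroup.mk ((x, b) :: L)) t ≠ 0 ∧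
      mu (FreeGroup.mk ((x, b) :: L)) (x :: t) = k * mu (FreeGroup.mk ((x, b) :: L)) t ∧
      0 < k * sg b ∧
      (∀ l : List S, Alt l → l.head? ≠ some x → t.length ≤ l.length → l ≠ t →
        mu (FreeGroup.mk ((x, b) :: L)) l = 0) ∧
      (∀ l : List S, Alt l → t.length + 1 ≤ l.length → l ≠ x :: t →
        mu (FreeGroup.mk ((x, b) :: L)) l = 0) := by
  induction L generalizing x b with
  | nil =>
    have e : FreeGroup.mk [(x, b)] = lv (x, b) * (1 : FreeGroup S) := by simp [lv]
    have m1 : ∀ l : List S, l ≠ [] → mu (1 : FreeGroup S) l = 0 := by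
      intro l hl
      rw [mu_one]
      cases l with
      | nil => exact absurd rfl hl
      | cons y l => rfl
    rw [e]
    refine ⟨[], sg b, ?_, ?_, ?_, ?_, ?_, ?_⟩
    · simp [Alt]
    · rw [mu_nil]; norm_num
    · rw [mu_lv_mul_cons x b 1 [] (by simp), m1 [x] (by simp), mu_nil, mu_nil]
      ring
    · cases b <;> simp [sg]
    · intro l _ hl1 _ hl2
      rw [mu_lv_mul x b 1 l hl1]
      exact m1 l hl2
    · intro l hl hlen hne
      by_cases hx : l.head? = some x
      · cases l with
        | nil => simp at hx
        | cons y l =>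
          obtain rfl : y = x := by simpa using hx
          rw [mu_lv_mul_cons y b 1 l (alt_head hl), m1 _ (by simp), m1 l (by
            intro h; exact hne (by rw [h]))]
          ring
      · rw [mu_lv_mul x b 1 l hx]
        exact m1 l (by rintro rfl; simp at hlen)
  | cons p L ih =>
    obtain ⟨y, c⟩ := p
    rw [List.isChain_cons_cons] at hL
    obtain ⟨t, k, h1, h2, h3, h4, h5, h6⟩ := ih y c hL.2
    have e : FreeGroup.mk ((x, b) :: (y, c) :: L) =
        lv (x, b) * FreeGroup.mk ((y, c) :: L) := by
      simp [lv, FreeGroup.mul_mk]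
    rw [e]
    generalize FreeGroup.mk ((y, c) :: L) = g at *
    have hk : k ≠ 0 := by
      rintro rfl
      simp at h4
    by_cases hxy : y = x
    · subst hxy
      have hbc : b = c := hL.1 rfl
      subst hbc
      have ht := alt_head h1
      refine ⟨t, k + sg b, h1, ?_, ?_, ?_, ?_, ?_⟩
      · rwa [mu_lv_mul y b g t ht]
      · rw [mu_lv_mul_cons y b g t ht, mu_lv_mul y b g t ht, h3]
        ring
      · have : sg b * sg b = 1 := by cases b <;> simp [sg]
        nlinarith
      · intro l a1 a2 a3 a4
        rw [mu_lv_mul y b g l a2]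
        exact h5 l a1 a2 a3 a4
      · intro l a1 a2 a3
        by_cases hx : l.head? = some y
        · cases l with
          | nil => simp at hx
          | cons z l =>
            obtain rfl : z = y := by simpa using hx
            rw [mu_lv_mul_cons z b g l (alt_head a1), h6 _ a1 a2 a3,
              h5 l (alt_tail a1) (alt_head a1) (by simp at a2; omega)
                (by intro h; exact a3 (by rw [h]))]
            ring
        · rw [mu_lv_mul y b g l hx]
          exact h6 l a1 a2 a3
    · have hhd : (y :: t).head? ≠ some x := by simpa using hxy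
      have hne : mu g (y :: t) ≠ 0 := by
        rw [h3]; exact mul_ne_zero hk h2
      refine ⟨y :: t, sg b, alt_cons h1 hhd, ?_, ?_, ?_, ?_, ?_⟩
      · rwa [mu_lv_mul x b g _ hhd]
      · rw [mu_lv_mul_cons x b g _ hhd, mu_lv_mul x b g _ hhd,
          h6 _ (alt_cons h1 hhd) (by simp) (by
            intro h
            have := congrArg List.length h
            simp at this)]
        ring
      · cases b <;> simp [sg]
      · intro l a1 a2 a3 a4
        rw [mu_lv_mul x b g l a2]
        exact h6 l a1 (by simpa using a3) a4
      · intro l a1 a2 a3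
        by_cases hx : l.head? = some x
        · cases l with
          | nil => simp at hx
          | cons z l =>
            obtain rfl : z = x := by simpa using hx
            rw [mu_lv_mul_cons z b g l (alt_head a1), h6 _ a1 (by simp at a2 ⊢; omega) (by
                intro h
                have h' := congrArg List.head? h
                simp only [List.head?_cons, Option.some.injEq] at h'
                exact hxy h'.symm),
              h6 l (alt_tail a1) (by simp at a2 ⊢; omega)
                (by intro h; exact a3 (by rw [h]))]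
            ring
        · rw [mu_lv_mul x b g l hx]
          refine h6 l a1 (by simp at a2 ⊢; omega) ?_
          intro h
          have := congrArg List.length h
          simp at this a2
          omega

private theorem faithful (g : FreeGroup S) (hg : g ≠ 1) : ∃ l : List S, l ≠ [] ∧ mu g l ≠ 0 := by
  have hr : g.toWord.IsChain (fun p q => p.1 = q.1 → p.2 = q.2) := FreeGroup.isReduced_toWord
  have hm : FreeGroup.mk g.toWord = g := FreeGroup.mk_toWord
  cases hL : g.toWord with
  | nil => exact absurd (FreeGroup.toWord_eq_nil_iff.1 hL) hg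
  | cons p L =>
    obtain ⟨x, b⟩ := p
    rw [hL] at hr hm
    obtain ⟨t, k, -, h2, h3, h4, -, -⟩ := lead L x b hr
    rw [hm] at h2 h3
    refine ⟨x :: t, by simp, ?_⟩
    rw [h3]
    refine mul_ne_zero ?_ h2
    rintro rfl
    simp at h4

/-! ### positive elements -/

/-- a well order of the lists which refines the length -/
def LR (a b : List S) : Prop := a.length < b.length ∨ (a.length = b.length ∧ WellOrderingRel a b)

private theorem LR_len {a b : List S} (h : LR a b) : a.length ≤ b.length := by
  rcases h with h | h
  · exact h.le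
  · exact h.1.le

private theorem LR_tri (a b : List S) : LR a b ∨ a = b ∨ LR b a := by
  unfold LR
  rcases lt_trichotomy a.length b.length with h | h | h
  · exact Or.inl (Or.inl h)
  · rcases trichotomous_of WellOrderingRel a b with h' | h' | h'
    · exact Or.inl (Or.inr ⟨h, h'⟩)
    · exact Or.inr (Or.inl h')
    · exact Or.inr (Or.inr (Or.inr ⟨h.symm, h'⟩))
  · exact Or.inr (Or.inr (Or.inl h))

private theorem LR_wf : WellFounded (LR : List S → List S → Prop) := by
  have h : WellFounded (InvImage (Prod.Lex (· < ·) WellOrderingRel)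
      (fun a : List S => (a.length, a))) :=
    InvImage.wf _ (WellFounded.prod_lex wellFounded_lt WellOrderingRel.isWellOrder.wf)
  refine Subrelation.wf ?_ h
  intro a b hab
  show Prod.Lex (· < ·) WellOrderingRel (a.length, a) (b.length, b)
  rcases hab with h | ⟨h, h'⟩
  · exact Prod.Lex.left _ _ h
  · rw [h]; exact Prod.Lex.right _ h'

private theorem LR_trans {a b c : List S} (h : LR a b) (h' : LR b c) : LR a c := by
  rcases h with h | ⟨h, h1⟩ <;> rcases h' with h' | ⟨h', h2⟩
  · exact Or.inl (h.trans h')
  · exact Or.inl (h' ▸ h)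
  · exact Or.inl (h.symm ▸ h')
  · exact Or.inr ⟨h.trans h', _root_.trans h1 h2⟩

/-- the first nonzero coefficient is positive -/
def Pos (g : FreeGroup S) : Prop :=
  ∃ l : List S, l ≠ [] ∧ 0 < mu g l ∧ ∀ l' : List S, l' ≠ [] → LR l' l → mu g l' = 0

private theorem pos_mul {g h : FreeGroup S} (hg : Pos g) (hh : Pos h) : Pos (g * h) := by
  obtain ⟨l, a1, a2, a3⟩ := hg
  obtain ⟨m, b1, b2, b3⟩ := hh
  have hgl : ∀ l' : List S, l' ≠ [] → l'.length ≤ l.length → mu (g * h) l' = mu g l' + mu h l' :=
    fun l' h1 h2 => mu_add_left g h l' h1 fun l'' h3 h4 => a3 l'' h3 (Or.inl (by omega))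
  have hhm : ∀ l' : List S, l' ≠ [] → l'.length ≤ m.length → mu (g * h) l' = mu g l' + mu h l' :=
    fun l' h1 h2 => mu_add_right g h l' h1 fun l'' h3 h4 => b3 l'' h3 (Or.inl (by omega))
  rcases LR_tri l m with h | h | h
  · refine ⟨l, a1, ?_, fun l' h1 h2 => ?_⟩
    · rw [hgl l a1 le_rfl, b3 l a1 h]; omega
    · rw [hgl l' h1 (LR_len h2), a3 l' h1 h2, b3 l' h1 (LR_trans h2 h)]; rfl
  · subst h
    refine ⟨l, a1, ?_, fun l' h1 h2 => ?_⟩
    · rw [hgl l a1 le_rfl]; omega
    · rw [hgl l' h1 (LR_len h2), a3 l' h1 h2, b3 l' h1 h2]; rfl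
  · refine ⟨m, b1, ?_, fun l' h1 h2 => ?_⟩
    · rw [hhm m b1 le_rfl, a3 m b1 h]; omega
    · rw [hhm l' h1 (LR_len h2), b3 l' h1 h2, a3 l' h1 (LR_trans h2 h)]; rfl

private theorem mu_one_ne (l : List S) (hl : l ≠ []) : mu (1 : FreeGroup S) l = 0 := by
  rw [mu_one]
  cases l with
  | nil => exact absurd rfl hl
  | cons y l => rfl

private theorem not_pos_one : ¬ Pos (1 : FreeGroup S) := by
  rintro ⟨l, h1, h2, -⟩
  rw [mu_one_ne l h1] at h2
  exact lt_irrefl _ h2

private theorem pos_conj {f : FreeGroup S} (g : FreeGroup S) (hf : Pos f) :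
    Pos (g * f * g⁻¹) := by
  obtain ⟨l, a1, a2, a3⟩ := hf
  have key : ∀ n, ∀ l' : List S, l'.length = n → l' ≠ [] → l'.length ≤ l.length →
      mu (g * f * g⁻¹) l' = mu f l' := by
    intro n
    induction n using Nat.strong_induction_on with
    | _ n ih =>
      intro l' hn h1 h2
      have e1 : mu (g * f) l' = mu g l' + mu f l' :=
        mu_add_right g f l' h1 fun l'' h3 h4 => a3 l'' h3 (Or.inl (by omega))
      have e2 : mu (g * f * g⁻¹ * g) l' = mu (g * f * g⁻¹) l' + mu g l' :=
        mu_add_left _ g l' h1 fun l'' h3 h4 => by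
          rw [ih l''.length (by omega) l'' rfl h3 (by omega)]
          exact a3 l'' h3 (Or.inl (by omega))
      rw [inv_mul_cancel_right] at e2
      omega
  refine ⟨l, a1, ?_, fun l' h1 h2 => ?_⟩
  · rw [key _ l rfl a1 le_rfl]; exact a2
  · rw [key _ l' rfl h1 (LR_len h2)]; exact a3 l' h1 h2

private theorem pos_or (g : FreeGroup S) (hg : g ≠ 1) : Pos g ∨ Pos g⁻¹ := by
  obtain ⟨l, ⟨h1, h2⟩, h3⟩ := LR_wf.has_min {l : List S | l ≠ [] ∧ mu g l ≠ 0} (faithful g hg)
  have h3' : ∀ l' : List S, l' ≠ [] → LR l' l → mu g l' = 0 := by
    intro l' a b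
    by_contra hne
    exact h3 l' ⟨a, hne⟩ b
  have hinv : ∀ l' : List S, l' ≠ [] → l'.length ≤ l.length → mu g⁻¹ l' = - mu g l' := by
    intro l' a b
    have e := mu_add_left g g⁻¹ l' a fun l'' h3 h4 => h3' l'' h3 (Or.inl (by omega))
    rw [mul_inv_cancel, mu_one_ne l' a] at e
    omega
  rcases lt_or_gt_of_ne h2 with h | h
  · refine Or.inr ⟨l, h1, ?_, fun l' a b => ?_⟩
    · rw [hinv l h1 le_rfl]; omega
    · rw [hinv l' a (LR_len b), h3' l' a b]; rfl
  · exact Or.inl ⟨l, h1, h, h3'⟩

/-- the strict order of the edges -/
def R (x y : FreeGroup S × S) : Prop :=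
  Pos (x.1⁻¹ * y.1) ∨ (x.1 = y.1 ∧ WellOrderingRel x.2 y.2)

private theorem R_sto : IsStrictTotalOrder (FreeGroup S × S) R where
  irrefl := by
    rintro ⟨a, s⟩ (h | h)
    · simp only [inv_mul_cancel] at h
      exact not_pos_one h
    · exact irrefl_of WellOrderingRel _ h.2
  trans := by
    rintro ⟨a, s⟩ ⟨b, t⟩ ⟨c, r⟩ h h'
    unfold R at *
    simp only at *
    rcases h with h | ⟨rfl, h1⟩ <;> rcases h' with h' | ⟨rfl, h2⟩
    · left
      have := pos_mul h h'
      rwa [mul_assoc, mul_inv_cancel_left] at this
    · exact Or.inl h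
    · exact Or.inl h'
    · exact Or.inr ⟨rfl, _root_.trans h1 h2⟩
  trichotomous := by
    rintro ⟨a, s⟩ ⟨b, t⟩
    unfold R
    simp only [Prod.mk.injEq]
    by_cases hab : a = b
    · subst hab
      rcases trichotomous_of WellOrderingRel s t with h | h | h
      · tauto
      · tauto
      · tauto
    · have hne : a⁻¹ * b ≠ 1 := fun h => hab (inv_mul_eq_one.1 h)
      rcases pos_or _ hne with h | h
      · tauto
      · rw [mul_inv_rev, inv_inv] at h
        tauto

end OrdAux

open OrdAux

theorem exists_eord (S : Type*) : Nonempty (EOrd S) := by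
  haveI : IsStrictTotalOrder (FreeGroup S × S) R := R_sto
  letI lo : LinearOrder (FreeGroup S × S) := linearOrderOfSTO R
  refine ⟨⟨lo, ?_, ?_⟩⟩
  · intro g a b s t
    show ((g * a, s) = (g * b, t) ∨ R (g * a, s) (g * b, t)) ↔ ((a, s) = (b, t) ∨ R (a, s) (b, t))
    unfold R
    simp [mul_assoc]
  · intro g hg
    rcases pos_or g hg with h | h
    · right
      intro a s
      left
      have := pos_conj a⁻¹ h
      rw [inv_inv, mul_assoc] at this
      exact this
    · left
      intro a s
      left
      have := pos_conj a⁻¹ h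
      rw [inv_inv] at this
      simpa [mul_assoc] using this

end Pool.Agent.LIA
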