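import Pool.Agent.Lib.MP_cf50d6_gt.Cnt
import Pool.Agent.Lib.MP_cf50d6_gt.L1
import Pool.Agent.Lib.MP_cf50d6_gt.L2
import Pool.Agent.Lib.MP_cf50d6_gt.Ord

/-!
# The strengthened Hanna Neumann inequality

(helper98, problem MP_cf50d6_gt)
-/

set_option autoImplicit false

open scoped Classical

namespace Pool.Agent.LIA

namespace LG

variable {V W S : Type*}

/-- the number of bridges is the reduced rank -/
theorem card_br [Fintype V] (O : EOrd S) (Γ : LG V S) : (Γ.br O).card = Γ.rr := by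
  have h1 := card_eq Γ
  have h2 := card_eq (Γ.cut O)
  have h3 : (Γ.cut O).rr = 0 := by
    unfold rr
    refine Finset.sum_eq_zero fun C hC => ?_
    exact Nat.sub_eq_zero_of_le (cut_comps_le O Γ hC)
  have h4 := tr_cut O Γ
  have h5 : (Γ.cut O).F.card + (Γ.br O).card = Γ.F.card := by
    change (Γ.F \ Γ.br O).card + _ = _
    exact Finset.card_sdiff_add_card_eq_card (br_sub O)
  omega

theorem ray_fst {Γ : LG V S} {Δ : LG W S} {p : ℕ → V × W} {w : ℕ → S × Bool}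
    (h : (Γ.prod Δ).Ray p w) : Γ.Ray (fun n => (p n).1) w :=
  ⟨h.1, fun n => (prod_step.1 (h.2 n)).1⟩

theorem ray_snd {Γ : LG V S} {Δ : LG W S} {p : ℕ → V × W} {w : ℕ → S × Bool}
    (h : (Γ.prod Δ).Ray p w) : Δ.Ray (fun n => (p n).2) w :=
  ⟨h.1, fun n => (prod_step.1 (h.2 n)).2⟩

theorem good_fst {O : EOrd S} {Γ : LG V S} {Δ : LG W S} {v : V × W} {l : S × Bool}
    (h : (Γ.prod Δ).Good O v l) : Γ.Good O v.1 l := by
  obtain ⟨w, p, h1, h2, h3, h4⟩ := h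
  exact ⟨w, fun n => (p n).1, h1, congrArg Prod.fst h2, ray_fst h3, h4⟩

theorem good_snd {O : EOrd S} {Γ : LG V S} {Δ : LG W S} {v : V × W} {l : S × Bool}
    (h : (Γ.prod Δ).Good O v l) : Δ.Good O v.2 l := by
  obtain ⟨w, p, h1, h2, h3, h4⟩ := h
  exact ⟨w, fun n => (p n).2, h1, congrArg Prod.snd h2, ray_snd h3, h4⟩

/-- the strengthened Hanna Neumann inequality -/
theorem shn [Fintype V] [Fintype W] (Γ : LG V S) (Δ : LG W S) :
    (Γ.prod Δ).rr ≤ Γ.rr * Δ.rr := by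
  obtain ⟨O⟩ := exists_eord S
  rw [← card_br O, ← card_br O Γ, ← card_br O Δ, ← Finset.card_product]
  refine Finset.card_le_card_of_injOn
    (fun e => ((e.1.1, e.2.1, e.2.2.1), (e.1.2, e.2.1, e.2.2.2))) ?_ ?_
  · rintro ⟨u, s, v⟩ he
    rw [Finset.mem_coe, mem_br] at he
    obtain ⟨h1, h2, h3⟩ := he
    rw [mem_prod] at h1
    rw [Finset.mem_coe, Finset.mem_product]
    exact ⟨mem_br.2 ⟨h1.1, good_fst h2, good_fst h3⟩, mem_br.2 ⟨h1.2, good_snd h2, good_snd h3⟩⟩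
  · rintro ⟨⟨u₁, u₂⟩, s, ⟨v₁, v₂⟩⟩ _ ⟨⟨u₁', u₂'⟩, s', ⟨v₁', v₂'⟩⟩ _ h
    simp only [Prod.mk.injEq] at h
    obtain ⟨⟨rfl, rfl, rfl⟩, rfl, _, rfl⟩ := h
    rfl

end LG

end Pool.Agent.LIA
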