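import Pool.Agent.Lib.MP_cf50d6_gt.Basic
import Pool.Agent.Lib.MP_cf50d6_gt.Coc
import Pool.Agent.Lib.MP_cf50d6_gt.Cnt
import Pool.Agent.Lib.MP_cf50d6_gt.Core
import Pool.Agent.Lib.MP_cf50d6_gt.Shn

/-!
# Transfer of the reduced rank to the fibre product (module TR)

(helper41, problem MP_cf50d6_gt)

Cohomological counting: the restriction of the first cohomology of the fibre product to the graph
`P` is onto, component by component.
-/

set_option autoImplicit false

open scoped Classical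

namespace Pool.Agent.LIA

universe u

namespace LG

section wsum

variable {V S : Type*}

/-- the sum of the cochain `F` along the word `L`, read from `u` -/
noncomputable def trSum (Γ : LG V S) (F : V × S × V → ℚ) : V → List (S × Bool) → ℚ
  | _, [] => 0
  | u, l :: L => if h : ∃ v, Γ.Step u l v then
      (if l.2 then F (u, l.1, h.choose) else - F (h.choose, l.1, u)) + trSum Γ F h.choose L
    else 0

theorem trSum_nil (Γ : LG V S) (F : V × S × V → ℚ) (u : V) : Γ.trSum F u [] = 0 := by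
  simp [trSum]

theorem trSum_cons (Γ : LG V S) (F : V × S × V → ℚ) {u v : V} {l : S × Bool}
    (L : List (S × Bool)) (h : Γ.Step u l v) :
    Γ.trSum F u (l :: L) = (if l.2 then F (u, l.1, v) else - F (v, l.1, u)) + Γ.trSum F v L := by
  have h1 : ∃ v, Γ.Step u l v := ⟨v, h⟩
  have h2 : h1.choose = v := step_det h1.choose_spec h
  rw [trSum, dif_pos h1, h2]

theorem trSum_add (Γ : LG V S) (F G : V × S × V → ℚ) (u : V) (L : List (S × Bool)) :
    Γ.trSum (fun e => F e + G e) u L = Γ.trSum F u L + Γ.trSum G u L := by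
  induction L generalizing u with
  | nil => simp [trSum_nil]
  | cons l L ih =>
    by_cases h : ∃ v, Γ.Step u l v
    · obtain ⟨v, hv⟩ := h
      rw [trSum_cons _ _ _ hv, trSum_cons _ _ _ hv, trSum_cons _ _ _ hv, ih]
      split_ifs <;> ring
    · simp [trSum, h]

theorem trSum_smul (Γ : LG V S) (r : ℚ) (F : V × S × V → ℚ) (u : V) (L : List (S × Bool)) :
    Γ.trSum (fun e => r * F e) u L = r * Γ.trSum F u L := by
  induction L generalizing u with
  | nil => simp [trSum_nil]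
  | cons l L ih =>
    by_cases h : ∃ v, Γ.Step u l v
    · obtain ⟨v, hv⟩ := h
      rw [trSum_cons _ _ _ hv, trSum_cons _ _ _ hv, ih]
      split_ifs <;> ring
    · simp [trSum, h]

/-- cochains which agree on the edges of a closed set have the same sums -/
theorem trSum_congr (Γ : LG V S) (F G : V × S × V → ℚ) (C : Set V)
    (hC : ∀ u l v, u ∈ C → Γ.Step u l v → v ∈ C)
    (hFG : ∀ u s v, (u, s, v) ∈ Γ.F → u ∈ C → F (u, s, v) = G (u, s, v)) (u : V)
    (L : List (S × Bool)) (hu : u ∈ C) : Γ.trSum F u L = Γ.trSum G u L := by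
  induction L generalizing u with
  | nil => simp [trSum_nil]
  | cons l L ih =>
    by_cases h : ∃ v, Γ.Step u l v
    · obtain ⟨v, hv⟩ := h
      have hvC := hC u l v hu hv
      rw [trSum_cons _ _ _ hv, trSum_cons _ _ _ hv, ih v hvC]
      obtain ⟨s, b⟩ := l
      cases b
      · rw [step_false] at hv
        simp [hFG _ _ _ hv hvC]
      · rw [step_true] at hv
        simp [hFG _ _ _ hv hu]
    · simp [trSum, h]

/-- the sum of a coboundary -/
theorem trSum_coboundary (Γ : LG V S) (F : V × S × V → ℚ) (h : V → ℚ) (C : Set V)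
    (hC : ∀ u l v, u ∈ C → Γ.Step u l v → v ∈ C)
    (hF : ∀ u s v, (u, s, v) ∈ Γ.F → u ∈ C → F (u, s, v) = h v - h u) {u v : V}
    {L : List (S × Bool)} (hu : u ∈ C) (hL : Γ.Walk u L v) : Γ.trSum F u L = h v - h u := by
  induction L generalizing u with
  | nil =>
    rw [walk_nil] at hL
    rw [trSum_nil, hL, sub_self]
  | cons l L ih =>
    obtain ⟨a, ha, ha'⟩ := hL
    have haC := hC u l a hu ha
    rw [trSum_cons _ _ _ ha, ih haC ha']
    obtain ⟨s, b⟩ := l
    cases b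
    · rw [step_false] at ha
      simp only [Bool.false_eq_true, if_false, hF _ _ _ ha haC]
      ring
    · rw [step_true] at ha
      simp only [if_true, hF _ _ _ ha hu]
      ring

end wsum

section count

variable {V T X Z : Type*} [Fintype V] [Fintype T]

omit [Fintype V] [Fintype T] in
theorem tr_conn_map (Γ : LG V X) (P : LG T Z) (m : T → V) (ω : Z → List (X × Bool))
    (hm : ∀ t z t', (t, z, t') ∈ P.F → Γ.Walk (m t) (ω z) (m t')) {t t' : T}
    (h : P.Conn t t') : Γ.Conn (m t) (m t') := by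
  refine Conn.induction (p := fun x => Γ.Conn (m t) (m x)) (conn_refl _) ?_ h
  rintro a ⟨z, b⟩ c ha hs
  cases b
  · rw [step_false] at hs
    exact ha.trans (Conn.symm ⟨_, hm _ _ _ hs⟩)
  · rw [step_true] at hs
    exact ha.trans ⟨_, hm _ _ _ hs⟩

/-- counting in a component -/
theorem tr_count (Γ : LG V X) (P : LG T Z) (m : T → V) (ω : Z → List (X × Bool))
    (hm : ∀ t z t', (t, z, t') ∈ P.F → Γ.Walk (m t) (ω z) (m t'))
    (hsurj : ∀ c : T × Z × T → ℚ, ∃ f : V × X × V → ℚ, ∀ t z t', (t, z, t') ∈ P.F →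
      Γ.trSum f (m t) (ω z) = c (t, z, t')) (D : Finset V) (hD : D ∈ Γ.comps) :
    ∑ Q ∈ P.comps with (∃ t ∈ Q, m t ∈ D), ((P.edges Q).card + 1) + D.card ≤
      (Γ.edges D).card + 1 + ∑ Q ∈ P.comps with (∃ t ∈ Q, m t ∈ D), Q.card := by
  set 𝒬 : Finset (Finset T) := P.comps.filter fun Q => ∃ t ∈ Q, m t ∈ D with h𝒬
  set EQ : Finset (T × Z × T) := P.F.filter fun e => m e.1 ∈ D with hEQ
  set TD : Finset T := Finset.univ.filter fun t => m t ∈ D with hTD
  have hDcl : ∀ u l v, u ∈ (D : Set V) → Γ.Step u l v → v ∈ (D : Set V) :=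
    fun u l v hu h => mem_of_step hD hu h
  have hcm : ∀ {t t' : T}, P.Conn t t' → m t ∈ D → m t' ∈ D := by
    intro t t' h ht
    have h1 := tr_conn_map Γ P m ω hm h
    rw [eq_comp_of_mem hD ht]
    exact mem_comp.2 h1
  have hQ𝒬 : ∀ t, m t ∈ D → P.comp t ∈ 𝒬 := by
    intro t ht
    rw [h𝒬, Finset.mem_filter]
    exact ⟨comp_mem_comps t, t, self_mem_comp t, ht⟩
  have hmemQ : ∀ Q ∈ 𝒬, ∀ t ∈ Q, m t ∈ D := by
    intro Q hQ t ht
    rw [h𝒬, Finset.mem_filter] at hQ
    obtain ⟨hQ1, t0, ht0, ht0'⟩ := hQ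
    exact hcm (conn_of_mem_comps hQ1 ht0 ht) ht0'
  -- cardinalities
  have hcE : EQ.card = ∑ Q ∈ 𝒬, (P.edges Q).card := by
    rw [Finset.card_eq_sum_card_fiberwise (f := fun e : T × Z × T => P.comp e.1) (t := 𝒬)]
    · refine Finset.sum_congr rfl fun Q hQ => ?_
      congr 1
      have hQ1 := (Finset.mem_filter.1 hQ).1
      ext e
      simp only [hEQ, edges, Finset.mem_filter]
      constructor
      · rintro ⟨⟨h1, _⟩, h3⟩
        exact ⟨h1, h3 ▸ self_mem_comp e.1⟩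
      · rintro ⟨h1, h2⟩
        exact ⟨⟨h1, hmemQ Q hQ _ h2⟩, (eq_comp_of_mem hQ1 h2).symm⟩
    · intro e he
      rw [hEQ, Finset.mem_coe, Finset.mem_filter] at he
      exact hQ𝒬 _ he.2
  have hcT : TD.card = ∑ Q ∈ 𝒬, Q.card := by
    rw [Finset.card_eq_sum_card_fiberwise (f := fun t : T => P.comp t) (t := 𝒬)]
    · refine Finset.sum_congr rfl fun Q hQ => ?_
      congr 1
      have hQ1 := (Finset.mem_filter.1 hQ).1
      ext t
      simp only [hTD, Finset.mem_filter, Finset.mem_univ, true_and]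
      constructor
      · rintro ⟨_, h3⟩
        exact h3 ▸ self_mem_comp t
      · intro h2
        exact ⟨hmemQ Q hQ _ h2, (eq_comp_of_mem hQ1 h2).symm⟩
    · intro t ht
      rw [hTD, Finset.mem_coe, Finset.mem_filter] at ht
      exact hQ𝒬 _ ht.2
  -- the base point
  obtain ⟨d0, hd0⟩ := nonempty_of_mem_comps hD
  -- extension of cochains
  let ext : ({e // e ∈ Γ.edges D} → ℚ) → V × X × V → ℚ := fun f e =>
    if h : e ∈ Γ.edges D then f ⟨e, h⟩ else 0
  have hEQ1 : ∀ e : {e // e ∈ EQ}, m e.1.1 ∈ D := fun e => (Finset.mem_filter.1 e.2).2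
  have hEQ2 : ∀ e : {e // e ∈ EQ}, Γ.Walk (m e.1.1) (ω e.1.2.1) (m e.1.2.2) := fun e =>
    hm _ _ _ (Finset.mem_filter.1 e.2).1
  have hEQ3 : ∀ e : {e // e ∈ EQ}, m e.1.2.2 ∈ D := fun e =>
    hcm (conn_of_mem (Finset.mem_filter.1 e.2).1) (hEQ1 e)
  have hTD1 : ∀ t, m t ∈ D → t ∈ TD := fun t ht => by
    rw [hTD, Finset.mem_filter]
    exact ⟨Finset.mem_univ _, ht⟩
  have hTD2 : ∀ t : {t // t ∈ TD}, m t.1 ∈ D := fun t => (Finset.mem_filter.1 t.2).2
  have hE1 : ∀ e : {e // e ∈ Γ.edges D}, e.1.1 ∈ D := fun e => (Finset.mem_filter.1 e.2).2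
  have hE2 : ∀ e : {e // e ∈ Γ.edges D}, e.1.2.2 ∈ D := fun e => by
    obtain ⟨⟨a, s, b⟩, he⟩ := e
    rw [mem_edges] at he
    exact (mem_of_edge hD he.1).1 he.2
  let M : (({e // e ∈ Γ.edges D} → ℚ) × ({t // t ∈ TD} → ℚ)) →ₗ[ℚ] ({e // e ∈ EQ} → ℚ) :=
    { toFun := fun p e => Γ.trSum (ext p.1) (m e.1.1) (ω e.1.2.1) +
        (p.2 ⟨e.1.2.2, hTD1 _ (hEQ3 e)⟩ - p.2 ⟨e.1.1, hTD1 _ (hEQ1 e)⟩)
      map_add' := by
        intro p q
        funext e
        have h1 : ext (p + q).1 = fun x => ext p.1 x + ext q.1 x := by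
          funext x
          by_cases h : x ∈ Γ.edges D
          · simp [ext, h]
          · simp [ext, h]
        simp only [Pi.add_apply, h1, trSum_add, Prod.snd_add]
        ring
      map_smul' := by
        intro r p
        funext e
        have h1 : ext (r • p).1 = fun x => r * ext p.1 x := by
          funext x
          by_cases h : x ∈ Γ.edges D
          · simp [ext, h]
          · simp [ext, h]
        simp only [Pi.smul_apply, h1, trSum_smul, Prod.smul_snd, smul_eq_mul, RingHom.id_apply]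
        ring }
  let N : (({v // v ∈ D} → ℚ) × ({Q // Q ∈ 𝒬} → ℚ)) →ₗ[ℚ]
      (({e // e ∈ Γ.edges D} → ℚ) × ({t // t ∈ TD} → ℚ)) :=
    { toFun := fun p => (fun e => p.1 ⟨e.1.2.2, hE2 e⟩ - p.1 ⟨e.1.1, hE1 e⟩,
        fun t => - p.1 ⟨m t.1, hTD2 t⟩ - p.2 ⟨P.comp t.1, hQ𝒬 _ (hTD2 t)⟩)
      map_add' := by
        intro p q
        ext e
        · simp only [Prod.fst_add, Pi.add_apply]
          ring
        · simp only [Prod.fst_add, Prod.snd_add, Pi.add_apply]
          ring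
      map_smul' := by
        intro r p
        ext e
        · simp only [Prod.smul_fst, Pi.smul_apply, smul_eq_mul, RingHom.id_apply]
          ring
        · simp only [Prod.smul_fst, Prod.smul_snd, Pi.smul_apply, smul_eq_mul, RingHom.id_apply]
          ring }
  have hMN : ∀ p, M (N p) = 0 := by
    intro p
    funext e
    let h : V → ℚ := fun v => if hv : v ∈ D then p.1 ⟨v, hv⟩ else 0
    have h1 : Γ.trSum (ext (N p).1) (m e.1.1) (ω e.1.2.1) = h (m e.1.2.2) - h (m e.1.1) := by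
      refine trSum_coboundary Γ _ h (D : Set V) hDcl ?_ (hEQ1 e) (hEQ2 e)
      intro u s v huv hu
      have h2 : (u, s, v) ∈ Γ.edges D := mem_edges.2 ⟨huv, hu⟩
      have h3 : v ∈ D := (mem_of_edge hD huv).1 hu
      have h4 : u ∈ D := hu
      simp only [ext, h, N, h2, h3, h4, dif_pos, LinearMap.coe_mk, AddHom.coe_mk]
    have h5 : P.comp e.1.2.2 = P.comp e.1.1 :=
      (comp_eq_iff.2 (conn_of_mem (Finset.mem_filter.1 e.2).1)).symm
    change Γ.trSum (ext (N p).1) (m e.1.1) (ω e.1.2.1) +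
        ((N p).2 ⟨e.1.2.2, hTD1 _ (hEQ3 e)⟩ - (N p).2 ⟨e.1.1, hTD1 _ (hEQ1 e)⟩) = 0
    rw [h1]
    have h6 : (N p).2 ⟨e.1.2.2, hTD1 _ (hEQ3 e)⟩ = - h (m e.1.2.2) -
        p.2 ⟨P.comp e.1.2.2, hQ𝒬 _ (hEQ3 e)⟩ := by
      simp only [N, h, hEQ3 e, dif_pos, LinearMap.coe_mk, AddHom.coe_mk]
    have h7 : (N p).2 ⟨e.1.1, hTD1 _ (hEQ1 e)⟩ = - h (m e.1.1) -
        p.2 ⟨P.comp e.1.1, hQ𝒬 _ (hEQ1 e)⟩ := by
      simp only [N, h, hEQ1 e, dif_pos, LinearMap.coe_mk, AddHom.coe_mk]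
    have h8 : (⟨P.comp e.1.2.2, hQ𝒬 _ (hEQ3 e)⟩ : {Q // Q ∈ 𝒬}) =
        ⟨P.comp e.1.1, hQ𝒬 _ (hEQ1 e)⟩ := Subtype.ext h5
    rw [h6, h7, h8]
    ring
  have hMs : Function.Surjective M := by
    intro c
    obtain ⟨f, hf⟩ := hsurj fun e => if h : e ∈ EQ then c ⟨e, h⟩ else 0
    refine ⟨(fun e => f e.1, 0), ?_⟩
    funext e
    have h1 : Γ.trSum (ext fun e => f e.1) (m e.1.1) (ω e.1.2.1) =
        Γ.trSum f (m e.1.1) (ω e.1.2.1) := by
      refine trSum_congr Γ _ _ (D : Set V) hDcl ?_ _ _ (hEQ1 e)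
      intro u s v huv hu
      have h2 : (u, s, v) ∈ Γ.edges D := mem_edges.2 ⟨huv, hu⟩
      simp only [ext, h2, dif_pos]
    change Γ.trSum (ext fun e => f e.1) (m e.1.1) (ω e.1.2.1) + ((0 : ℚ) - 0) = c e
    rw [h1, hf _ _ _ (Finset.mem_filter.1 e.2).1, sub_zero, add_zero]
    have h3 : (e.1.1, e.1.2.1, e.1.2.2) ∈ EQ := e.2
    rw [dif_pos h3]
  have hNk : Module.finrank ℚ (LinearMap.ker N) ≤ 1 := by
    have h0 : ∀ p ∈ LinearMap.ker N, ∀ v : {v // v ∈ D}, p.1 v = p.1 ⟨d0, hd0⟩ := by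
      intro p hp v
      rw [LinearMap.mem_ker] at hp
      have h1 : ∀ e : {e // e ∈ Γ.edges D}, p.1 ⟨e.1.2.2, hE2 e⟩ = p.1 ⟨e.1.1, hE1 e⟩ := by
        intro e
        have := congrFun (congrArg Prod.fst hp) e
        simp only [N, LinearMap.coe_mk, AddHom.coe_mk, Prod.fst_zero, Pi.zero_apply] at this
        linarith
      have h2 : Γ.Conn d0 v.1 := conn_of_mem_comps hD hd0 v.2
      have h3 : ∃ hv : v.1 ∈ D, p.1 ⟨v.1, hv⟩ = p.1 ⟨d0, hd0⟩ := by
        refine Conn.induction (p := fun x => ∃ hx : x ∈ D, p.1 ⟨x, hx⟩ = p.1 ⟨d0, hd0⟩)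
          ⟨hd0, rfl⟩ ?_ h2
        rintro a ⟨s, b⟩ c ⟨ha, ha'⟩ hs
        have hc : c ∈ D := mem_of_step hD ha hs
        refine ⟨hc, ?_⟩
        cases b
        · rw [step_false] at hs
          have := h1 ⟨(c, s, a), mem_edges.2 ⟨hs, hc⟩⟩
          rw [← ha', this]
        · rw [step_true] at hs
          have := h1 ⟨(a, s, c), mem_edges.2 ⟨hs, ha⟩⟩
          rw [← ha', this]
      obtain ⟨_, h4⟩ := h3
      exact h4
    let ev : LinearMap.ker N →ₗ[ℚ] ℚ :=
      { toFun := fun p => p.1.1 ⟨d0, hd0⟩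
        map_add' := fun p q => rfl
        map_smul' := fun r p => rfl }
    have hev : Function.Injective ev := by
      rw [← LinearMap.ker_eq_bot, LinearMap.ker_eq_bot']
      rintro ⟨p, hp⟩ h1
      have h2 : p.1 ⟨d0, hd0⟩ = 0 := h1
      have h3 : p.1 = 0 := by
        funext v
        rw [h0 p hp v, h2]
        rfl
      have h4 : p.2 = 0 := by
        funext Q
        obtain ⟨Q, hQ⟩ := Q
        have hQ' := hQ
        rw [h𝒬, Finset.mem_filter] at hQ'
        obtain ⟨hQ1, t0, ht0, ht0'⟩ := hQ'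
        have h5 := congrFun (congrArg Prod.snd (LinearMap.mem_ker.1 hp)) ⟨t0, hTD1 _ ht0'⟩
        simp only [N, LinearMap.coe_mk, AddHom.coe_mk, Prod.snd_zero, Pi.zero_apply, h3] at h5
        have h6 : (⟨Q, hQ⟩ : {Q // Q ∈ 𝒬}) = ⟨P.comp t0, hQ𝒬 _ ht0'⟩ :=
          Subtype.ext (eq_comp_of_mem hQ1 ht0)
        rw [h6]
        change p.2 ⟨P.comp t0, hQ𝒬 _ ht0'⟩ = 0
        linarith
      exact Subtype.ext (Prod.ext h3 h4)
    have := LinearMap.finrank_le_finrank_of_injective hev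
    simpa using this
  have hr1 := LinearMap.finrank_range_add_finrank_ker N
  have hr2 := LinearMap.finrank_range_add_finrank_ker M
  rw [LinearMap.range_eq_top.2 hMs, finrank_top] at hr2
  have hle : Module.finrank ℚ (LinearMap.range N) ≤ Module.finrank ℚ (LinearMap.ker M) := by
    refine Submodule.finrank_mono ?_
    rintro _ ⟨p, rfl⟩
    exact LinearMap.mem_ker.2 (hMN p)
  simp only [Module.finrank_prod, Module.finrank_fintype_fun_eq_card, Fintype.card_coe] at hr1 hr2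
  rw [Finset.sum_add_distrib, ← hcE, ← hcT, Finset.sum_const, smul_eq_mul, mul_one]
  omega

/-- the reduced rank, from the surjectivity on cochains -/
theorem tr_rr_le (Γ : LG V X) (P : LG T Z) (m : T → V) (ω : Z → List (X × Bool))
    (hm : ∀ t z t', (t, z, t') ∈ P.F → Γ.Walk (m t) (ω z) (m t'))
    (hsurj : ∀ c : T × Z × T → ℚ, ∃ f : V × X × V → ℚ, ∀ t z t', (t, z, t') ∈ P.F →
      Γ.trSum f (m t) (ω z) = c (t, z, t')) : P.rr ≤ Γ.rr := by
  let Fm : Finset T → Finset V := fun Q => if h : Q.Nonempty then Γ.comp (m h.choose) else ∅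
  have hFm : ∀ Q ∈ P.comps, ∀ t ∈ Q, Fm Q = Γ.comp (m t) := by
    intro Q hQ t ht
    have h : Q.Nonempty := ⟨t, ht⟩
    simp only [Fm, dif_pos h]
    exact comp_eq_iff.2 (tr_conn_map Γ P m ω hm (conn_of_mem_comps hQ h.choose_spec ht))
  have h1 : P.rr = ∑ D ∈ Γ.comps, ∑ Q ∈ P.comps with Fm Q = D, ((P.edges Q).card - Q.card) := by
    rw [Finset.sum_fiberwise_of_maps_to]
    · rfl
    · intro Q hQ
      obtain ⟨t, ht⟩ := nonempty_of_mem_comps hQ
      rw [hFm Q hQ t ht]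
      exact comp_mem_comps _
  rw [h1, rr]
  refine Finset.sum_le_sum fun D hD => ?_
  have h2 : (P.comps.filter fun Q => Fm Q = D) =
      P.comps.filter fun Q => ∃ t ∈ Q, m t ∈ D := by
    ext Q
    simp only [Finset.mem_filter, and_congr_right_iff]
    intro hQ
    constructor
    · intro h
      obtain ⟨t, ht⟩ := nonempty_of_mem_comps hQ
      refine ⟨t, ht, ?_⟩
      rw [← h, hFm Q hQ t ht]
      exact self_mem_comp _
    · rintro ⟨t, ht, htD⟩
      rw [hFm Q hQ t ht]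
      exact (eq_comp_of_mem hD htD).symm
  rw [h2]
  have h3 := tr_count Γ P m ω hm hsurj D hD
  set 𝒬 : Finset (Finset T) := P.comps.filter fun Q => ∃ t ∈ Q, m t ∈ D with h𝒬
  have h4 : ∀ Q ∈ 𝒬, Q.card ≤ (P.edges Q).card + 1 := by
    intro Q hQ
    obtain ⟨T', hT1, hT2, _, _⟩ := P.exists_tree (Finset.mem_filter.1 hQ).1
    have := Finset.card_le_card hT1
    omega
  by_cases h5 : ∃ Q ∈ 𝒬, Q.card ≤ (P.edges Q).card
  · obtain ⟨Q0, hQ0, hQ0'⟩ := h5
    -- sum over 𝒬 of (|E_Q| - |Q|) + 1 <= sum of (|E_Q| + 1 - |Q|)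
    have h6 : ∑ Q ∈ 𝒬, ((P.edges Q).card - Q.card) + 1 + ∑ Q ∈ 𝒬, Q.card ≤
        ∑ Q ∈ 𝒬, ((P.edges Q).card + 1) := by
      rw [← Finset.add_sum_erase 𝒬 _ hQ0, ← Finset.add_sum_erase 𝒬 (fun Q => Q.card) hQ0,
        ← Finset.add_sum_erase 𝒬 (fun Q => (P.edges Q).card + 1) hQ0]
      have h7 : ∑ Q ∈ 𝒬.erase Q0, ((P.edges Q).card - Q.card) + ∑ Q ∈ 𝒬.erase Q0, Q.card ≤
          ∑ Q ∈ 𝒬.erase Q0, ((P.edges Q).card + 1) := by
        rw [← Finset.sum_add_distrib]
        refine Finset.sum_le_sum fun Q hQ => ?_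
        have := h4 Q (Finset.mem_of_mem_erase hQ)
        omega
      omega
    omega
  · push Not at h5
    have h6 : ∑ Q ∈ 𝒬, ((P.edges Q).card - Q.card) = 0 := by
      refine Finset.sum_eq_zero fun Q hQ => ?_
      have := h5 Q hQ
      omega
    rw [h6]
    exact Nat.zero_le _

end count

end LG

/-! ## module TR (Tr.lean) -/

/-- transfer of the reduced rank to the fibre product -/
theorem transfer {V W T X Z : Type*} [Fintype V] [Fintype W] [Fintype T]
    (α : FreeGroup Z →* FreeGroup X) (hα : Function.Injective α) (Γ : LG V X) (Δ : LG W X) (o : W)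
    (hconn : ∀ w, Δ.Conn o w) (hwalk : ∀ z, Δ.Walk o (α (FreeGroup.of z)).toWord o)
    (hrange : ∀ L, Δ.Walk o L o → FreeGroup.mk L ∈ α.range) (P : LG T Z) (a : T → V)
    (ha : Function.Injective a)
    (hP : ∀ t z t', (t, z, t') ∈ P.F → Γ.Walk (a t) (α (FreeGroup.of z)).toWord (a t')) :
    P.rr ≤ (Γ.prod Δ).rr := by
  refine LG.tr_rr_le (Γ.prod Δ) P (fun t => (a t, o)) (fun z => (α (FreeGroup.of z)).toWord)
    (fun t z t' h => LG.prod_walk.2 ⟨hP t z t' h, hwalk z⟩) ?_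
  intro c
  obtain ⟨Φ, hΦ⟩ := exists_perm Γ
  -- the values on the vertices
  let c' : V → Z → ℚ := fun v z =>
    if h : ∃ p : T × T, a p.1 = v ∧ (p.1, z, p.2) ∈ P.F then
      c (h.choose.1, z, h.choose.2) else 0
  have hc' : ∀ t z t', (t, z, t') ∈ P.F → c' (a t) z = c (t, z, t') := by
    intro t z t' h
    have h1 : ∃ p : T × T, a p.1 = a t ∧ (p.1, z, p.2) ∈ P.F := ⟨(t, t'), rfl, h⟩
    have h2 : h1.choose.1 = t := ha h1.choose_spec.1
    have h4 := h1.choose_spec.2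
    rw [h2] at h4
    have h3 : h1.choose.2 = t' := P.det h4 h
    simp only [c', dif_pos h1, h2, h3]
  obtain ⟨κ, hκ1, hκ2⟩ := exists_coc (Φ.comp α) c'
  have hκ0 : ∀ x, κ 1 x = 0 := by
    intro x
    have := hκ1 1 1 x
    simp only [mul_one, inv_one, map_one, Equiv.Perm.coe_one, id_eq] at this
    linarith
  -- representatives
  let Lw : W → List (X × Bool) := fun w => if w = o then [] else (hconn w).choose
  have hLw : ∀ w, Δ.Walk o (Lw w) w := by
    intro w
    by_cases h : w = o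
    · simp only [Lw, if_pos h]
      exact h.symm
    · simp only [Lw, if_neg h]
      exact (hconn w).choose_spec
  let g : W → FreeGroup X := fun w => FreeGroup.mk (Lw w)
  have hgo : g o = 1 := by
    simp only [g, Lw, if_true]
    rfl
  let β : FreeGroup X → FreeGroup Z := fun y => if h : ∃ z, α z = y then h.choose else 1
  have hβ : ∀ z, β (α z) = z := by
    intro z
    have h : ∃ z', α z' = α z := ⟨z, rfl⟩
    simp only [β, dif_pos h]
    exact hα h.choose_spec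
  have hαβ : ∀ y, (∃ z, α z = y) → α (β y) = y := by
    intro y h
    simp only [β, dif_pos h]
    exact h.choose_spec
  have hrng : ∀ w L w', Δ.Walk w L w' → ∃ z, α z = g w * FreeGroup.mk L * (g w')⁻¹ := by
    intro w L w' h
    have h1 : Δ.Walk o (Lw w ++ L ++ FreeGroup.invRev (Lw w')) o :=
      LG.walk_append.2 ⟨w', LG.walk_append.2 ⟨w, hLw w, h⟩, LG.walk_symm (hLw w')⟩
    obtain ⟨z, hz⟩ := hrange _ h1
    refine ⟨z, ?_⟩
    rw [hz, mk_append, mk_append]
    simp only [g, FreeGroup.inv_mk]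
  let f : (V × W) × X × (V × W) → ℚ := fun e =>
    κ (β (g e.1.2 * FreeGroup.of e.2.1 * (g e.2.2.2)⁻¹)) (Φ (g e.1.2) e.1.1)
  -- the sums of f
  have key : ∀ L u v, (Γ.prod Δ).Walk u L v →
      (Γ.prod Δ).trSum f u L = κ (β (g u.2 * FreeGroup.mk L * (g v.2)⁻¹)) (Φ (g u.2) u.1) := by
    intro L
    induction L with
    | nil =>
      intro u v h
      rw [LG.walk_nil] at h
      subst h
      have h1 : g u.2 * FreeGroup.mk [] * (g u.2)⁻¹ = α 1 := by
        rw [map_one, ← FreeGroup.one_eq_mk, mul_one, mul_inv_cancel]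
      rw [LG.trSum_nil, h1, hβ, hκ0]
    | cons l L ih =>
      intro u v h
      obtain ⟨x, hx, hx'⟩ := h
      rw [LG.trSum_cons _ _ _ hx, ih x v hx']
      have hs := LG.prod_step.1 hx
      obtain ⟨b1, hb1⟩ := hrng u.2 [l] x.2 (LG.walk_singleton.2 hs.2)
      obtain ⟨b2, hb2⟩ := hrng x.2 L v.2 (LG.prod_walk.1 hx').2
      have hb1' : α b1 = g u.2 * lv l * (g x.2)⁻¹ := hb1
      have h1 : g u.2 * FreeGroup.mk (l :: L) * (g v.2)⁻¹ = α (b1 * b2) := by
        rw [map_mul, hb1', hb2, mk_cons]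
        group
      have h2 : x.1 = Φ (lv l)⁻¹ u.1 := hΦ u.1 [l] x.1 (LG.walk_singleton.2 hs.1)
      have h3 : Φ (α b1⁻¹) (Φ (g u.2) u.1) = Φ (g x.2) x.1 := by
        rw [map_inv, hb1', h2, ← Equiv.Perm.mul_apply, ← Equiv.Perm.mul_apply, ← map_mul,
          ← map_mul]
        congr 2
        group
      rw [h1, hβ, ← hb2, hβ, hκ1]
      have h4 : (Φ.comp α) b1⁻¹ (Φ (g u.2) u.1) = Φ (g x.2) x.1 := h3
      rw [h4]
      congr 1
      obtain ⟨s, b⟩ := l
      cases b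
      · simp only [Bool.false_eq_true, if_false, f]
        have h5 : g x.2 * FreeGroup.of s * (g u.2)⁻¹ = α b1⁻¹ := by
          rw [map_inv, hb1', lv_false]
          group
        rw [h5, hβ]
        have h6 := hκ1 b1 b1⁻¹ (Φ (g u.2) u.1)
        rw [mul_inv_cancel, hκ0, h4] at h6
        linarith
      · simp only [if_true, f]
        have h5 : g u.2 * FreeGroup.of s * (g x.2)⁻¹ = α b1 := by
          rw [hb1', lv_true]
        rw [h5, hβ]
  refine ⟨f, fun t z t' h => ?_⟩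
  have h1 : (Γ.prod Δ).Walk (a t, o) (α (FreeGroup.of z)).toWord (a t', o) :=
    LG.prod_walk.2 ⟨hP t z t' h, hwalk z⟩
  change (Γ.prod Δ).trSum f (a t, o) (α (FreeGroup.of z)).toWord = _
  rw [key _ _ _ h1]
  simp only [hgo, FreeGroup.mk_toWord, one_mul, inv_one, mul_one, hβ, map_one,
    Equiv.Perm.coe_one, id_eq]
  rw [hκ2, hc' t z t' h]

/-- the strengthened Hanna Neumann inequality, for a graph over a free subgroup -/
theorem shn_sub {V T X Z : Type*} [Fintype V] [Fintype T] [Fintype Z]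
    (α : FreeGroup Z →* FreeGroup X) (hα : Function.Injective α) (Γ : LG V X) (P : LG T Z)
    (a : T → V) (ha : Function.Injective a)
    (hP : ∀ t z t', (t, z, t') ∈ P.F → Γ.Walk (a t) (α (FreeGroup.of z)).toWord (a t')) :
    P.rr ≤ (Fintype.card Z - 1) * Γ.rr := by
  obtain ⟨W, _, Δ, o, h1, h2, h3, h4⟩ := exists_core α
  calc P.rr ≤ (Γ.prod Δ).rr := transfer α hα Γ Δ o h1 h2 h3 P a ha hP
    _ ≤ Γ.rr * Δ.rr := LG.shn Γ Δ
    _ ≤ Γ.rr * (Fintype.card Z - 1) := Nat.mul_le_mul_left _ h4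
    _ = (Fintype.card Z - 1) * Γ.rr := Nat.mul_comm _ _

end Pool.Agent.LIA
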