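import Pool.Agent.Lib.MP_cf50d6_gt.GDefs
import Pool.Agent.Lib.MP_cf50d6_gt.Sig
import Pool.Agent.Lib.MP_cf50d6_gt.Tr
import Pool.Agent.Lib.MP_cf50d6_gt.Ex
import Pool.Agent.Lib.MP_cf50d6_gt.Fin

/-!
# Graphs of free groups with light edge groups are locally indicable

(helper98, problem MP_cf50d6_gt)
-/

set_option autoImplicit false

open scoped Classical

namespace Pool.Agent.LIA

universe u

namespace LG

variable {V R S : Type*}

/-- relabelling of edges -/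
def relab (g : S → R) (e : V × S × V) : V × R × V := (e.1, g e.2.1, e.2.2)

theorem relab_inj {g : S → R} (hg : Function.Injective g) :
    Function.Injective (relab g : V × S × V → V × R × V) := by
  rintro ⟨u, s, v⟩ ⟨u', s', v'⟩ h
  simp only [relab, Prod.mk.injEq] at h
  obtain ⟨rfl, h2, rfl⟩ := h
  rw [hg h2]

/-- the edges with labels in the image of `g` -/
noncomputable def pullF (Γ : LG V R) (g : S → R) (hg : Function.Injective g) :
    Finset (V × S × V) := Γ.F.preimage (relab g) (relab_inj hg).injOn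

theorem mem_pullF {Γ : LG V R} {g : S → R} {hg : Function.Injective g} {u v : V} {s : S} :
    (u, s, v) ∈ Γ.pullF g hg ↔ (u, g s, v) ∈ Γ.F := by
  unfold pullF
  rw [Finset.mem_preimage]
  rfl

/-- the graph of the edges with labels in the image of `g` -/
noncomputable def pull (Γ : LG V R) (g : S → R) (hg : Function.Injective g) : LG V S where
  F := Γ.pullF g hg
  det := by
    intro u s v v' h h'
    exact Γ.det (mem_pullF.1 h) (mem_pullF.1 h')
  cod := by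
    intro u u' s v h h'
    exact Γ.cod (mem_pullF.1 h) (mem_pullF.1 h')

theorem mem_pull {Γ : LG V R} {g : S → R} {hg : Function.Injective g} {u v : V} {s : S} :
    (u, s, v) ∈ (Γ.pull g hg).F ↔ (u, g s, v) ∈ Γ.F := mem_pullF (hg := hg)

theorem walk_pull {Γ : LG V R} {g : S → R} {hg : Function.Injective g} {u v : V}
    {L : List (S × Bool)} :
    (Γ.pull g hg).Walk u L v ↔ Γ.Walk u (L.map fun x => (g x.1, x.2)) v := by
  induction L generalizing u with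
  | nil => rfl
  | cons l L ih =>
    simp only [walk_cons, List.map_cons, ih]
    refine exists_congr fun a => and_congr_left fun _ => ?_
    obtain ⟨s, b⟩ := l
    cases b
    · simp only [step_false, mem_pull]
    · simp only [step_true, mem_pull]

end LG

namespace GFG

variable (A : GFG.{u})

/-- the word of the upper end of the edge `j` -/
noncomputable def wB (p : Σ j, Fin (A.r j)) : List (((Σ i, A.X i) ⊕ A.J) × Bool) :=
  (A.β p.1 (FreeGroup.of p.2)).toWord.map fun x => (Sum.inl ⟨A.t p.1, x.1⟩, x.2)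

/-- the word of the lower end of the edge `j` -/
noncomputable def wA (p : Σ j, Fin (A.r j)) : List (((Σ i, A.X i) ⊕ A.J) × Bool) :=
  (A.α p.1 (FreeGroup.of p.2)).toWord.map fun x => (Sum.inl ⟨A.s p.1, x.1⟩, x.2)

/-- the relator as a word -/
noncomputable def relw (p : Σ j, Fin (A.r j)) : List (((Σ i, A.X i) ⊕ A.J) × Bool) :=
  [(Sum.inr p.1, true)] ++ A.wB p ++ [(Sum.inr p.1, false)] ++ FreeGroup.invRev (A.wA p)

theorem mk_wB (p : Σ j, Fin (A.r j)) : FreeGroup.mk (A.wB p) =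
    FreeGroup.map (fun x => Sum.inl ⟨A.t p.1, x⟩) (A.β p.1 (FreeGroup.of p.2)) := by
  conv_rhs => rw [← FreeGroup.mk_toWord (x := A.β p.1 (FreeGroup.of p.2))]
  rw [FreeGroup.map.mk]
  rfl

theorem mk_wA (p : Σ j, Fin (A.r j)) : FreeGroup.mk (A.wA p) =
    FreeGroup.map (fun x => Sum.inl ⟨A.s p.1, x⟩) (A.α p.1 (FreeGroup.of p.2)) := by
  conv_rhs => rw [← FreeGroup.mk_toWord (x := A.α p.1 (FreeGroup.of p.2))]
  rw [FreeGroup.map.mk]
  rfl

theorem mk_relw (p : Σ j, Fin (A.r j)) : FreeGroup.mk (A.relw p) =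
    FreeGroup.of (Sum.inr p.1) *
      FreeGroup.map (fun x => Sum.inl ⟨A.t p.1, x⟩) (A.β p.1 (FreeGroup.of p.2)) *
      (FreeGroup.of (Sum.inr p.1))⁻¹ *
      (FreeGroup.map (fun x => Sum.inl ⟨A.s p.1, x⟩) (A.α p.1 (FreeGroup.of p.2)))⁻¹ := by
  rw [relw, mk_append, mk_append, mk_append, mk_wB, ← FreeGroup.inv_mk, mk_wA]
  congr 3

theorem rels_eq : A.rels = Set.range fun p => FreeGroup.mk (A.relw p) := by
  unfold rels
  congr 1
  funext p
  exact (A.mk_relw p).symm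

/-- the walk of the relator -/
theorem walk_relw {V : Type*} {Γ : LG V ((Σ i, A.X i) ⊕ A.J)} {p : Σ j, Fin (A.r j)} {v : V}
    (h : Γ.Walk v (A.relw p) v) : ∃ v1 v2 v3, (v, Sum.inr p.1, v1) ∈ Γ.F ∧
      (v3, Sum.inr p.1, v2) ∈ Γ.F ∧ Γ.Walk v1 (A.wB p) v2 ∧ Γ.Walk v (A.wA p) v3 := by
  unfold relw at h
  rw [LG.walk_append] at h
  obtain ⟨v3, h, h4⟩ := h
  rw [LG.walk_append] at h
  obtain ⟨v2, h, h3⟩ := h
  rw [LG.walk_append] at h
  obtain ⟨v1, h1, h2⟩ := h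
  rw [LG.walk_singleton, LG.step_true] at h1
  rw [LG.walk_singleton, LG.step_false] at h3
  refine ⟨v1, v2, v3, h1, h3, h2, ?_⟩
  have := LG.walk_symm h4
  rwa [FreeGroup.invRev_invRev] at this

/-- the edges of type `j` -/
def TT {V : Type u} (Γ : LG V ((Σ i, A.X i) ⊕ A.J)) (j : A.J) : Type u :=
  {p : V × V // (p.1, Sum.inr j, p.2) ∈ Γ.F}

noncomputable instance instTT {V : Type u} [Fintype V] (Γ : LG V ((Σ i, A.X i) ⊕ A.J))
    (j : A.J) : Fintype (A.TT Γ j) :=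
  inferInstanceAs (Fintype {p : V × V // (p.1, Sum.inr j, p.2) ∈ Γ.F})

/-- the graph of the edge group `j` -/
noncomputable def PP {V : Type u} [Fintype V] (Γ : LG V ((Σ i, A.X i) ⊕ A.J)) (j : A.J) :
    LG (A.TT Γ j) (Fin (A.r j)) where
  F := Finset.univ.filter fun e : A.TT Γ j × Fin (A.r j) × A.TT Γ j =>
    Γ.Walk e.1.1.1 (A.wA ⟨j, e.2.1⟩) e.2.2.1.1 ∧ Γ.Walk e.1.1.2 (A.wB ⟨j, e.2.1⟩) e.2.2.1.2
  det := by
    intro u s v v' h h'
    rw [Finset.mem_filter] at h h'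
    exact Subtype.ext (Prod.ext (LG.walk_det h.2.1 h'.2.1) (LG.walk_det h.2.2 h'.2.2))
  cod := by
    intro u u' s v h h'
    rw [Finset.mem_filter] at h h'
    exact Subtype.ext (Prod.ext (LG.walk_det (LG.walk_symm h.2.1) (LG.walk_symm h'.2.1))
      (LG.walk_det (LG.walk_symm h.2.2) (LG.walk_symm h'.2.2)))

theorem mem_PP {V : Type u} [Fintype V] {Γ : LG V ((Σ i, A.X i) ⊕ A.J)} {j : A.J}
    {t t' : A.TT Γ j} {z : Fin (A.r j)} : (t, z, t') ∈ (A.PP Γ j).F ↔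
      Γ.Walk t.1.1 (A.wA ⟨j, z⟩) t'.1.1 ∧ Γ.Walk t.1.2 (A.wB ⟨j, z⟩) t'.1.2 := by
  simp [PP]

theorem inl_inj (i : A.I) : Function.Injective fun x : A.X i =>
    (Sum.inl ⟨i, x⟩ : (Σ i, A.X i) ⊕ A.J) := by
  intro x y h
  simpa using h

/-- the graph of the vertex group `i` -/
noncomputable def GG {V : Type u} (Γ : LG V ((Σ i, A.X i) ⊕ A.J)) (i : A.I) : LG V (A.X i) :=
  Γ.pull (fun x => Sum.inl ⟨i, x⟩) (A.inl_inj i)

theorem PP_le_a {V : Type u} [Fintype V] (Γ : LG V ((Σ i, A.X i) ⊕ A.J)) (j : A.J) {κ : ℚ}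
    (h : HNBound.{u} (A.α j) κ) : ((A.PP Γ j).rr : ℚ) ≤ κ * (A.GG Γ (A.s j)).rr := by
  refine h V (A.TT Γ j) _ _ (fun t => t.1.1) ?_ ?_
  · rintro ⟨⟨u, v⟩, h1⟩ ⟨⟨u', v'⟩, h2⟩ h3
    simp only at h3 h1 h2
    subst h3
    obtain rfl := Γ.det h1 h2
    rfl
  · intro t z t' h1
    rw [mem_PP] at h1
    exact LG.walk_pull.2 h1.1

theorem PP_le_b {V : Type u} [Fintype V] (Γ : LG V ((Σ i, A.X i) ⊕ A.J)) (j : A.J) {κ : ℚ}
    (h : HNBound.{u} (A.β j) κ) : ((A.PP Γ j).rr : ℚ) ≤ κ * (A.GG Γ (A.t j)).rr := by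
  refine h V (A.TT Γ j) _ _ (fun t => t.1.2) ?_ ?_
  · rintro ⟨⟨u, v⟩, h1⟩ ⟨⟨u', v'⟩, h2⟩ h3
    simp only at h3 h1 h2
    subst h3
    obtain rfl := Γ.cod h1 h2
    rfl
  · intro t z t' h1
    rw [mem_PP] at h1
    exact LG.walk_pull.2 h1.2

/-- the inequality of the reduced ranks -/
theorem sum_rr_le {V : Type u} [Fintype V] (Γ : LG V ((Σ i, A.X i) ⊕ A.J)) {κ κ' : A.J → ℚ}
    (hκ : ∀ j, HNBound.{u} (A.α j) (κ j)) (hκ' : ∀ j, HNBound.{u} (A.β j) (κ' j))
    (hL : A.LightFor κ κ') (I0 : Finset A.I) (J0 : Finset A.J) (hs : ∀ j ∈ J0, A.s j ∈ I0)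
    (ht : ∀ j ∈ J0, A.t j ∈ I0) :
    ∑ j ∈ J0, (A.PP Γ j).rr ≤ ∑ i ∈ I0, (A.GG Γ i).rr := by
  obtain ⟨w, hw, hB⟩ := hL
  have h1 : ∀ j ∈ J0, ((A.PP Γ j).rr : ℚ) ≤ w j * κ j * (A.GG Γ (A.s j)).rr +
      (1 - w j) * κ' j * (A.GG Γ (A.t j)).rr := by
    intro j _
    have h2 := A.PP_le_a Γ j (hκ j)
    have h3 := A.PP_le_b Γ j (hκ' j)
    have h4 := mul_le_mul_of_nonneg_left h2 (hw j).1
    have h5 := mul_le_mul_of_nonneg_left h3 (sub_nonneg.2 (hw j).2)
    nlinarith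
  have h2 : ∑ j ∈ J0, w j * κ j * ((A.GG Γ (A.s j)).rr : ℚ) =
      ∑ i ∈ I0, (∑ j ∈ J0 with A.s j = i, w j * κ j) * ((A.GG Γ i).rr : ℚ) := by
    rw [← Finset.sum_fiberwise_of_maps_to hs]
    refine Finset.sum_congr rfl fun i _ => ?_
    rw [Finset.sum_mul]
    refine Finset.sum_congr rfl fun j hj => ?_
    rw [(Finset.mem_filter.1 hj).2]
  have h3 : ∑ j ∈ J0, (1 - w j) * κ' j * ((A.GG Γ (A.t j)).rr : ℚ) =
      ∑ i ∈ I0, (∑ j ∈ J0 with A.t j = i, (1 - w j) * κ' j) * ((A.GG Γ i).rr : ℚ) := by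
    rw [← Finset.sum_fiberwise_of_maps_to ht]
    refine Finset.sum_congr rfl fun i _ => ?_
    rw [Finset.sum_mul]
    refine Finset.sum_congr rfl fun j hj => ?_
    rw [(Finset.mem_filter.1 hj).2]
  have h4 : (∑ j ∈ J0, ((A.PP Γ j).rr : ℚ)) ≤ ∑ i ∈ I0, ((A.GG Γ i).rr : ℚ) := by
    refine (Finset.sum_le_sum h1).trans ?_
    rw [Finset.sum_add_distrib, h2, h3, ← Finset.sum_add_distrib]
    refine Finset.sum_le_sum fun i _ => ?_
    rw [← add_mul]
    calc _ ≤ 1 * ((A.GG Γ i).rr : ℚ) :=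
          mul_le_mul_of_nonneg_right (hB i J0) (Nat.cast_nonneg _)
      _ = _ := one_mul _
  exact_mod_cast h4

/-- counting the edges -/
theorem card_F {V : Type u} [Fintype V] (Γ : LG V ((Σ i, A.X i) ⊕ A.J)) (I0 : Finset A.I)
    (J0 : Finset A.J) : ∑ i : I0, (A.GG Γ i).F.card + ∑ j : J0, Fintype.card (A.TT Γ j) ≤
      Γ.F.card := by
  let F1 : Finset (V × ((Σ i, A.X i) ⊕ A.J) × V) :=
    (Finset.univ.sigma fun i : I0 => (A.GG Γ i).F).image
      fun e : Σ i : I0, V × A.X i × V => (e.2.1, Sum.inl ⟨e.1, e.2.2.1⟩, e.2.2.2)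
  let F2 : Finset (V × ((Σ i, A.X i) ⊕ A.J) × V) :=
    (Finset.univ : Finset (Σ j : J0, A.TT Γ j)).image
      fun e : Σ j : J0, A.TT Γ j => (e.2.1.1, Sum.inr e.1.1, e.2.1.2)
  have h1 : F1.card = ∑ i : I0, (A.GG Γ i).F.card := by
    change (Finset.image _ _).card = _
    rw [Finset.card_image_of_injective, Finset.card_sigma]
    rintro ⟨⟨i, hi⟩, u, x, v⟩ ⟨⟨i', hi'⟩, u', x', v'⟩ h
    simp only [Prod.mk.injEq, Sum.inl.injEq, Sigma.mk.injEq] at h
    obtain ⟨rfl, ⟨rfl, h2⟩, rfl⟩ := h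
    obtain rfl := eq_of_heq h2
    rfl
  have h2 : F2.card = ∑ j : J0, Fintype.card (A.TT Γ j) := by
    change (Finset.image _ _).card = _
    rw [Finset.card_image_of_injective, Finset.card_univ, Fintype.card_sigma]
    rintro ⟨⟨j, hj⟩, ⟨u, v⟩, h1⟩ ⟨⟨j', hj'⟩, ⟨u', v'⟩, h1'⟩ h
    simp only [Prod.mk.injEq, Sum.inr.injEq] at h
    obtain ⟨rfl, rfl, rfl⟩ := h
    rfl
  have h3 : Disjoint F1 F2 := by
    rw [Finset.disjoint_left]
    intro e he he'
    obtain ⟨a, _, rfl⟩ := Finset.mem_image.1 he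
    obtain ⟨b, _, hb⟩ := Finset.mem_image.1 he'
    simp only [Prod.mk.injEq] at hb
    exact absurd hb.2.1 (by simp)
  have h4 : F1 ∪ F2 ⊆ Γ.F := by
    refine Finset.union_subset ?_ ?_
    · intro e he
      obtain ⟨⟨i, u, x, v⟩, h5, rfl⟩ := Finset.mem_image.1 he
      exact (LG.mem_pull (hg := A.inl_inj i)).1 (Finset.mem_sigma.1 h5).2
    · intro e he
      obtain ⟨⟨j, t⟩, _, rfl⟩ := Finset.mem_image.1 he
      exact t.2
  calc _ = (F1 ∪ F2).card := by rw [Finset.card_union_of_disjoint h3, h1, h2]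
    _ ≤ _ := Finset.card_le_card h4

/-- counting the relators -/
theorem card_P {V : Type u} [Fintype V] (Γ : LG V ((Σ i, A.X i) ⊕ A.J)) (J0 : Finset A.J)
    (hJ : ∀ u j v, (u, Sum.inr j, v) ∈ Γ.F → j ∈ J0) (P0 : Finset (V × Σ j, Fin (A.r j)))
    (hP : ∀ p ∈ P0, Γ.Walk p.1 (A.relw p.2) p.1) :
    P0.card ≤ ∑ j : J0, (A.PP Γ j).F.card := by
  have h1 : P0 ⊆ (Finset.univ.sigma fun j : J0 => (A.PP Γ j).F).image
      fun e : Σ j : J0, A.TT Γ j × Fin (A.r j) × A.TT Γ j =>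
        ((e.2.1.1.1, ⟨e.1.1, e.2.2.1⟩) : V × Σ j, Fin (A.r j)) := by
    rintro ⟨v, j, z⟩ hp
    obtain ⟨v1, v2, v3, h1, h2, h3, h4⟩ := A.walk_relw (hP _ hp)
    rw [Finset.mem_image]
    refine ⟨⟨⟨j, hJ _ _ _ h1⟩, ⟨(v, v1), h1⟩, z, ⟨(v3, v2), h2⟩⟩, ?_, rfl⟩
    rw [Finset.mem_sigma]
    exact ⟨Finset.mem_univ _, A.mem_PP.2 ⟨h4, h3⟩⟩
  refine (Finset.card_le_card h1).trans (Finset.card_image_le.trans ?_)
  rw [Finset.card_sigma]

/-- the relation of the edge group `j` in the group -/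
theorem rel_eq (j : A.J) (z : Fin (A.r j)) :
    PresentedGroup.of (rels := A.rels) (Sum.inr j) * PresentedGroup.mk A.rels (FreeGroup.map
      (fun x => Sum.inl ⟨A.t j, x⟩) (A.β j (FreeGroup.of z))) =
    PresentedGroup.mk A.rels (FreeGroup.map
      (fun x => Sum.inl ⟨A.s j, x⟩) (A.α j (FreeGroup.of z))) *
      PresentedGroup.of (Sum.inr j) := by
  have h : PresentedGroup.mk A.rels (FreeGroup.of (Sum.inr j) *
      FreeGroup.map (fun x => Sum.inl ⟨A.t j, x⟩) (A.β j (FreeGroup.of z)) *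
      (FreeGroup.of (Sum.inr j))⁻¹ *
      (FreeGroup.map (fun x => Sum.inl ⟨A.s j, x⟩) (A.α j (FreeGroup.of z)))⁻¹) = 1 :=
    PresentedGroup.one_of_mem ⟨⟨j, z⟩, rfl⟩
  rw [map_mul, map_mul, map_mul, map_inv, map_inv, mul_inv_eq_one, mul_inv_eq_iff_eq_mul] at h
  exact h

/-- the main argument: a finite graph with many relators has a potential -/
theorem key {V : Type u} [Fintype V] (Γ : LG V ((Σ i, A.X i) ⊕ A.J)) (o : V)
    (hc : ∀ x, Γ.Conn o x) {κ κ' : A.J → ℚ}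
    (hκ : ∀ j, HNBound.{u} (A.α j) (κ j)) (hκ' : ∀ j, HNBound.{u} (A.β j) (κ' j))
    (hL : A.LightFor κ κ') (P0 : Finset (V × Σ j, Fin (A.r j)))
    (hP : ∀ p ∈ P0, Γ.Walk p.1 (A.relw p.2) p.1)
    (hcard : Γ.F.card + 1 ≤ Fintype.card V + P0.card) :
    ∃ φ : V → A.Grp, ∀ u s v, (u, s, v) ∈ Γ.F → φ v = φ u * PresentedGroup.of s := by
  -- the finite sets of the used vertices and edges
  let J0 : Finset A.J := Γ.F.biUnion fun e => Sum.elim (fun _ => ∅) (fun j => {j}) e.2.1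
  let I0 : Finset A.I := (Γ.F.biUnion fun e => Sum.elim (fun x => {x.1}) (fun _ => ∅) e.2.1) ∪
    J0.image A.s ∪ J0.image A.t
  have hJ : ∀ u j v, (u, Sum.inr j, v) ∈ Γ.F → j ∈ J0 := by
    intro u j v h
    exact Finset.mem_biUnion.2 ⟨_, h, by simp⟩
  have hI : ∀ u i x v, (u, Sum.inl ⟨i, x⟩, v) ∈ Γ.F → i ∈ I0 := by
    intro u i x v h
    refine Finset.mem_union_left _ (Finset.mem_union_left _ ?_)
    exact Finset.mem_biUnion.2 ⟨_, h, by simp⟩
  have hs : ∀ j ∈ J0, A.s j ∈ I0 := fun j hj =>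
    Finset.mem_union_left _ (Finset.mem_union_right _ (Finset.mem_image_of_mem _ hj))
  have ht : ∀ j ∈ J0, A.t j ∈ I0 := fun j hj =>
    Finset.mem_union_right _ (Finset.mem_image_of_mem _ hj)
  -- the graph of the vertex groups
  obtain ⟨Γ', hF, hFc, hFr⟩ := LG.exists_sum (ι := I0) (Ω := V × Option I0)
    (R := Σ i, A.X i) (V' := fun _ => V) (S' := fun i => A.X i) (fun i => A.GG Γ i)
    (fun i v => (v, some i)) (fun i x => ⟨i.1, x⟩)
    (fun i v v' h => (Prod.mk.inj h).1) (fun i j u v h => Option.some_injective _ (Prod.mk.inj h).2)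
    (fun i x y h => eq_of_heq (Sigma.mk.inj h).2)
  -- the graph of the edge groups
  obtain ⟨P, hPF, hPc, hPr⟩ := LG.exists_sum (ι := J0) (Ω := (Σ j : J0, A.TT Γ j) ⊕ (V × I0))
    (R := Σ j, Fin (A.r j)) (V' := fun j => A.TT Γ j) (S' := fun j => Fin (A.r j))
    (fun j => A.PP Γ j) (fun j t => Sum.inl ⟨j, t⟩) (fun j z => ⟨j.1, z⟩)
    (fun j t t' h => eq_of_heq (Sigma.mk.inj (Sum.inl_injective h)).2)
    (fun i j u v h => (Sigma.mk.inj (Sum.inl_injective h)).1)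
    (fun j z z' h => eq_of_heq (Sigma.mk.inj h).2)
  let a : (Σ j : J0, A.TT Γ j) ⊕ (V × I0) → V × Option I0 :=
    Sum.elim (fun t => (t.2.1.1, some ⟨A.s t.1, hs _ t.1.2⟩)) fun p => (p.1, none)
  let b : (Σ j : J0, A.TT Γ j) ⊕ (V × I0) → V × Option I0 :=
    Sum.elim (fun t => (t.2.1.2, some ⟨A.t t.1, ht _ t.1.2⟩)) fun p => (p.1, some p.2)
  let α' : FreeGroup (Σ j, Fin (A.r j)) →* FreeGroup (Σ i, A.X i) :=
    FreeGroup.lift fun p => FreeGroup.map (fun x => ⟨A.s p.1, x⟩) (A.α p.1 (FreeGroup.of p.2))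
  let β' : FreeGroup (Σ j, Fin (A.r j)) →* FreeGroup (Σ i, A.X i) :=
    FreeGroup.lift fun p => FreeGroup.map (fun x => ⟨A.t p.1, x⟩) (A.β p.1 (FreeGroup.of p.2))
  let i : FreeGroup (Σ i, A.X i) →* A.Grp := (PresentedGroup.mk A.rels).comp
    (FreeGroup.map Sum.inl)
  let τ : (Σ j : J0, A.TT Γ j) ⊕ (V × I0) → A.Grp :=
    Sum.elim (fun t => PresentedGroup.of (Sum.inr t.1)) fun _ => 1
  -- walks in `P`
  have hα' : ∀ (j : A.J) (g : FreeGroup (Fin (A.r j))),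
      α' (FreeGroup.map (fun z => ⟨j, z⟩) g) = FreeGroup.map (fun x => ⟨A.s j, x⟩) (A.α j g) := by
    intro j g
    have : α'.comp (FreeGroup.map fun z => ⟨j, z⟩) =
        (FreeGroup.map fun x => ⟨A.s j, x⟩).comp (A.α j) := by
      ext z
      simp [α']
    exact DFunLike.congr_fun this g
  have hβ' : ∀ (j : A.J) (g : FreeGroup (Fin (A.r j))),
      β' (FreeGroup.map (fun z => ⟨j, z⟩) g) = FreeGroup.map (fun x => ⟨A.t j, x⟩) (A.β j g) := by
    intro j g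
    have : β'.comp (FreeGroup.map fun z => ⟨j, z⟩) =
        (FreeGroup.map fun x => ⟨A.t j, x⟩).comp (A.β j) := by
      ext z
      simp [β']
    exact DFunLike.congr_fun this g
  have hloop : ∀ t L, P.Walk t L t → FreeGroup.mk L = 1 ∨
      ∃ (j : A.J) (g : FreeGroup (Fin (A.r j))),
        FreeGroup.mk L = FreeGroup.map (fun z => ⟨j, z⟩) g := by
    intro t L h
    obtain ⟨j, t⟩ | p := t
    · obtain ⟨L', v, h1, h2, h3⟩ := LG.sig_walk
        (f := fun (j : J0) (t : A.TT Γ j) => (Sum.inl ⟨j, t⟩ : (Σ j : J0, A.TT Γ j) ⊕ (V × I0)))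
        (g := fun (j : J0) (z : Fin (A.r j)) => (⟨j.1, z⟩ : Σ j, Fin (A.r j)))
        (fun j t t' h => eq_of_heq (Sigma.mk.inj (Sum.inl_injective h)).2)
        (fun i j u v h => (Sigma.mk.inj (Sum.inl_injective h)).1) hPF h
      exact Or.inr ⟨j, FreeGroup.mk L', by rw [h2, FreeGroup.map.mk]⟩
    · left
      obtain _ | ⟨⟨s, c⟩, L⟩ := L
      · rfl
      · exfalso
        obtain ⟨v, hv, _⟩ := h
        cases c
        · rw [LG.step_false, hPF] at hv
          obtain ⟨_, _, _, _, _, _, h3, _⟩ := hv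
          exact Sum.inl_ne_inr h3
        · rw [LG.step_true, hPF] at hv
          obtain ⟨_, _, _, _, h1, _⟩ := hv
          exact Sum.inl_ne_inr h1
  -- the hypotheses of `exists_potential`
  have h1 : ∀ t L, P.Walk t L t → α' (FreeGroup.mk L) = 1 → FreeGroup.mk L = 1 := by
    intro t L h h'
    obtain h1 | ⟨j, g, h1⟩ := hloop t L h
    · exact h1
    · rw [h1, hα'] at h'
      rw [h1, A.hα j (FreeGroup.map_injective
        (f := fun x : A.X (A.s j) => (⟨A.s j, x⟩ : Σ i, A.X i))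
        (fun x y h => eq_of_heq (Sigma.mk.inj h).2) (h'.trans (map_one _).symm) |>.trans
        (map_one _).symm), map_one]
  have h2 : ∀ t L, P.Walk t L t → β' (FreeGroup.mk L) = 1 → FreeGroup.mk L = 1 := by
    intro t L h h'
    obtain h1 | ⟨j, g, h1⟩ := hloop t L h
    · exact h1
    · rw [h1, hβ'] at h'
      rw [h1, A.hβ j (FreeGroup.map_injective
        (f := fun x : A.X (A.t j) => (⟨A.t j, x⟩ : Σ i, A.X i))
        (fun x y h => eq_of_heq (Sigma.mk.inj h).2) (h'.trans (map_one _).symm) |>.trans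
        (map_one _).symm), map_one]
  have h3 : ∀ t z t', (t, z, t') ∈ P.F →
      Γ'.Walk (a t) (@FreeGroup.toWord _ (fun a b => Classical.propDecidable (a = b))
        (α' (FreeGroup.of z))) (a t') := by
    intro t z t' h
    rw [hPF] at h
    obtain ⟨j, u, z', v, rfl, rfl, rfl, h4⟩ := h
    rw [mem_PP] at h4
    have h5 := LG.sig_walk_mk (f := fun (i : I0) (v : V) => (v, some i))
      (g := fun (i : I0) (x : A.X i) => (⟨i.1, x⟩ : Σ i, A.X i)) hF
      (i := ⟨A.s j, hs _ j.2⟩) ((LG.walk_pull (hg := A.inl_inj (A.s j))).2 h4.1)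
    have h6 := LG.walk_toWord h5
    have h7 : FreeGroup.mk (((A.α j (FreeGroup.of z')).toWord).map
        fun x => ((⟨A.s j, x.1⟩ : Σ i, A.X i), x.2)) = α' (FreeGroup.of ⟨j.1, z'⟩) := by
      rw [← FreeGroup.map.of (f := fun z : Fin (A.r j) => (⟨j.1, z⟩ : Σ j, Fin (A.r j))), hα',
        ← FreeGroup.map.mk (f := fun x : A.X (A.s j) => (⟨A.s j, x⟩ : Σ i, A.X i)),
        FreeGroup.mk_toWord]
    rw [← h7]
    exact h6
  have h4 : ∀ t z t', (t, z, t') ∈ P.F →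
      Γ'.Walk (b t) (@FreeGroup.toWord _ (fun a b => Classical.propDecidable (a = b))
        (β' (FreeGroup.of z))) (b t') := by
    intro t z t' h
    rw [hPF] at h
    obtain ⟨j, u, z', v, rfl, rfl, rfl, h4⟩ := h
    rw [mem_PP] at h4
    have h5 := LG.sig_walk_mk (f := fun (i : I0) (v : V) => (v, some i))
      (g := fun (i : I0) (x : A.X i) => (⟨i.1, x⟩ : Σ i, A.X i)) hF
      (i := ⟨A.t j, ht _ j.2⟩) ((LG.walk_pull (hg := A.inl_inj (A.t j))).2 h4.2)
    have h6 := LG.walk_toWord h5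
    have h7 : FreeGroup.mk (((A.β j (FreeGroup.of z')).toWord).map
        fun x => ((⟨A.t j, x.1⟩ : Σ i, A.X i), x.2)) = β' (FreeGroup.of ⟨j.1, z'⟩) := by
      rw [← FreeGroup.map.of (f := fun z : Fin (A.r j) => (⟨j.1, z⟩ : Σ j, Fin (A.r j))), hβ',
        ← FreeGroup.map.mk (f := fun x : A.X (A.t j) => (⟨A.t j, x⟩ : Σ i, A.X i)),
        FreeGroup.mk_toWord]
    rw [← h7]
    exact h6
  have h5 : ∀ x y, Relation.EqvGen (fun x y => Γ'.Conn x y ∨ ∃ t, a t = x ∧ b t = y) x y := by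
    have e1 : ∀ v (k : Option I0), Relation.EqvGen
        (fun x y => Γ'.Conn x y ∨ ∃ t, a t = x ∧ b t = y) (v, none) (v, k) := by
      rintro v (_ | k)
      · exact Relation.EqvGen.refl _
      · exact Relation.EqvGen.rel _ _ (Or.inr ⟨Sum.inr (v, k), rfl, rfl⟩)
    have e3 : ∀ u s v, (u, s, v) ∈ Γ.F → Relation.EqvGen
        (fun x y => Γ'.Conn x y ∨ ∃ t, a t = x ∧ b t = y) (u, none) (v, none) := by
      rintro u (⟨i, x⟩ | j) v h
      · refine (e1 u (some ⟨i, hI _ _ _ _ h⟩)).trans _ _ _ (Relation.EqvGen.trans _ _ _ ?_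
          (e1 v (some ⟨i, hI _ _ _ _ h⟩)).symm)
        refine Relation.EqvGen.rel _ _ (Or.inl ?_)
        refine LG.conn_of_mem (s := ⟨i, x⟩) ((hF _ _ _).2 ⟨⟨i, hI _ _ _ _ h⟩, u, x, v,
          rfl, rfl, rfl, ?_⟩)
        exact (LG.mem_pull (hg := A.inl_inj i)).2 h
      · refine (e1 u (some ⟨A.s j, hs _ (hJ _ _ _ h)⟩)).trans _ _ _
          (Relation.EqvGen.trans _ _ _ ?_ (e1 v (some ⟨A.t j, ht _ (hJ _ _ _ h)⟩)).symm)
        exact Relation.EqvGen.rel _ _ (Or.inr ⟨Sum.inl ⟨⟨j, hJ _ _ _ h⟩, ⟨(u, v), h⟩⟩, rfl, rfl⟩)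
    have e2 : ∀ v, Relation.EqvGen
        (fun x y => Γ'.Conn x y ∨ ∃ t, a t = x ∧ b t = y) (o, none) (v, none) := by
      intro v
      refine LG.Conn.induction (Γ := Γ) (p := fun v => Relation.EqvGen
        (fun x y => Γ'.Conn x y ∨ ∃ t, a t = x ∧ b t = y) (o, none) (v, none))
        (Relation.EqvGen.refl _) ?_ (hc v)
      rintro u ⟨s, c⟩ v hu h
      refine hu.trans _ _ _ ?_
      cases c
      · rw [LG.step_false] at h
        exact (e3 _ _ _ h).symm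
      · rw [LG.step_true] at h
        exact e3 _ _ _ h
    rintro ⟨u, k⟩ ⟨v, l⟩
    exact ((e2 u).trans _ _ _ (e1 u k)).symm.trans _ _ _ ((e2 v).trans _ _ _ (e1 v l))
  have h6 : P.rr ≤ Γ'.rr := by
    rw [hPr, hFr]
    have := A.sum_rr_le Γ hκ hκ' hL I0 J0 hs ht
    rw [← Finset.sum_coe_sort J0, ← Finset.sum_coe_sort I0] at this
    exact this
  have h7 : Γ'.F.card + Fintype.card ((Σ j : J0, A.TT Γ j) ⊕ (V × I0)) + 1 ≤
      Fintype.card (V × Option I0) + P.F.card := by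
    have e1 := A.card_F Γ I0 J0
    have e2 := A.card_P Γ J0 hJ P0 hP
    rw [hFc, hPc, Fintype.card_sum, Fintype.card_sigma, Fintype.card_prod, Fintype.card_prod,
      Fintype.card_option, mul_add, mul_one]
    omega
  have h8 : ∀ t z t', (t, z, t') ∈ P.F →
      τ t * i (β' (FreeGroup.of z)) = i (α' (FreeGroup.of z)) * τ t' := by
    intro t z t' h
    rw [hPF] at h
    obtain ⟨j, u, z', v, rfl, rfl, rfl, _⟩ := h
    have e1 : FreeGroup.of (⟨j.1, z'⟩ : Σ j, Fin (A.r j)) =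
        FreeGroup.map (fun z : Fin (A.r j) => (⟨j.1, z⟩ : Σ j, Fin (A.r j))) (FreeGroup.of z') :=
      (FreeGroup.map.of).symm
    rw [e1, hα', hβ']
    have e2 := A.rel_eq j z'
    change PresentedGroup.of (Sum.inr j.1) * PresentedGroup.mk A.rels (FreeGroup.map Sum.inl _) =
      PresentedGroup.mk A.rels (FreeGroup.map Sum.inl _) * PresentedGroup.of (Sum.inr j.1)
    rw [FreeGroup.map.comp, FreeGroup.map.comp]
    exact e2
  obtain ⟨φ, hφ1, hφ2⟩ := exists_potential Γ' P a b α' β' h1 h2 h3 h4 h5 h6 h7 i τ h8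
  refine ⟨fun v => φ (v, none), ?_⟩
  have e1 : ∀ v (k : I0), φ (v, some k) = φ (v, none) := by
    intro v k
    have := hφ2 (Sum.inr (v, k))
    simpa [a, b, τ] using this
  rintro u (⟨k, x⟩ | j) v h
  · have hk := hI _ _ _ _ h
    have e2 := hφ1 (u, some ⟨k, hk⟩) ⟨k, x⟩ (v, some ⟨k, hk⟩)
      ((hF _ _ _).2 ⟨⟨k, hk⟩, u, x, v, rfl, rfl, rfl, (LG.mem_pull (hg := A.inl_inj k)).2 h⟩)
    rw [e1, e1] at e2
    change φ (v, none) = φ (u, none) * PresentedGroup.of (Sum.inl ⟨k, x⟩)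
    rw [e2]
    simp [i, PresentedGroup.of]
  · have e2 := hφ2 (Sum.inl ⟨⟨j, hJ _ _ _ h⟩, ⟨(u, v), h⟩⟩)
    change φ (v, some ⟨A.t j, _⟩) = φ (u, some ⟨A.s j, _⟩) * PresentedGroup.of (Sum.inr j) at e2
    rw [e1, e1] at e2
    exact e2

/-- a graph of free groups whose edge groups satisfy the weight condition for some strengthened
Hanna Neumann constants has a locally indicable group -/
theorem li_of_bound {κ κ' : A.J → ℚ} (hκ : ∀ j, HNBound.{u} (A.α j) (κ j))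
    (hκ' : ∀ j, HNBound.{u} (A.β j) (κ' j)) (hL : A.LightFor κ κ') :
    LocallyIndicable A.Grp := by
  intro H hH hne
  by_contra hno
  obtain ⟨V, _, Γ, o, P, hc, hP, hcard, hw⟩ := exists_graph (PresentedGroup.mk A.rels)
    (PresentedGroup.mk_surjective _) A.relw
    (fun z => PresentedGroup.one_of_mem (by rw [rels_eq]; exact ⟨z, rfl⟩))
    (by
      rw [← rels_eq]
      intro x hx
      exact PresentedGroup.mk_eq_one_iff.1 hx) H hH hno
  obtain ⟨φ, hφ⟩ := A.key Γ o hc hκ hκ' hL P hP hcard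
  have h1 : ∀ (L : List (((Σ i, A.X i) ⊕ A.J) × Bool)) (u v : V), Γ.Walk u L v →
      φ v = φ u * PresentedGroup.mk A.rels (FreeGroup.mk L) := by
    intro L
    induction L with
    | nil =>
      intro u v h
      obtain rfl := h
      rw [← FreeGroup.one_eq_mk, map_one, mul_one]
    | cons l L ih =>
      intro u v h
      obtain ⟨c, h1, h2⟩ := h
      rw [ih c v h2, mk_cons, map_mul, ← mul_assoc]
      congr 1
      obtain ⟨s, b⟩ := l
      cases b
      · rw [LG.step_false] at h1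
        rw [lv_false, map_inv, eq_mul_inv_iff_mul_eq]
        exact (hφ _ _ _ h1).symm
      · rw [LG.step_true] at h1
        exact hφ _ _ _ h1
  apply hne
  rw [Subgroup.eq_bot_iff_forall]
  intro h hh
  obtain ⟨L, hL, rfl⟩ := hw h hh
  exact left_eq_mul.1 (h1 L o o hL)

end GFG

/-- the strengthened Hanna Neumann theorem gives the constant `rank - 1` -/
theorem hnBound_rank {Z X : Type*} [Fintype Z] (α : FreeGroup Z →* FreeGroup X)
    (hα : Function.Injective α) : HNBound.{u} α ((Fintype.card Z - 1 : ℕ) : ℚ) := by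
  intro V T _ _ Γ P a ha hP
  exact_mod_cast shn_sub α hα Γ P a ha hP

/-- a graph of free groups with light edge groups has a locally indicable group -/
theorem GFG.li (A : GFG.{u}) (h : A.Light) : LocallyIndicable A.Grp := by
  refine A.li_of_bound (κ := fun j => ((A.r j - 1 : ℕ) : ℚ))
    (κ' := fun j => ((A.r j - 1 : ℕ) : ℚ)) (fun j => ?_) (fun j => ?_) h
  · have := hnBound_rank.{u} (A.α j) (A.hα j)
    rwa [Fintype.card_fin] at this
  · have := hnBound_rank.{u} (A.β j) (A.hβ j)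
    rwa [Fintype.card_fin] at this

end Pool.Agent.LIA
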