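import Pool.Agent.Lib.MP_cf50d6_gt.Basic

/-!
# An amalgam of two free groups of rank two over a free group of rank four which is not locally
indicable

(helper36, problem MP_cf50d6_gt, module RK4)
-/

set_option autoImplicit false

open scoped Classical

namespace Pool.Agent.LIA

/-- the cyclic shift of the three levels, with `p` on one arrow -/
private def rk4Shift (p : FreeGroup (Fin 4)) : Equiv.Perm (Fin 3 × FreeGroup (Fin 4)) where
  toFun x := match x with
    | (0, g) => (2, p * g)
    | (1, g) => (0, g)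
    | (2, g) => (1, g)
  invFun x := match x with
    | (0, g) => (1, g)
    | (1, g) => (2, g)
    | (2, g) => (0, p⁻¹ * g)
  left_inv := by
    rintro ⟨i, g⟩
    fin_cases i <;> simp
  right_inv := by
    rintro ⟨i, g⟩
    fin_cases i <;> simp

private theorem rk4Shift_zero (p g : FreeGroup (Fin 4)) : rk4Shift p (0, g) = (2, p * g) := rfl

private theorem rk4Shift_one (p g : FreeGroup (Fin 4)) : rk4Shift p (1, g) = (0, g) := rfl

private theorem rk4Shift_two (p g : FreeGroup (Fin 4)) : rk4Shift p (2, g) = (1, g) := rfl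

private theorem rk4Shift_inv_zero (p g : FreeGroup (Fin 4)) : (rk4Shift p)⁻¹ (0, g) = (1, g) := rfl

private theorem rk4Shift_inv_one (p g : FreeGroup (Fin 4)) : (rk4Shift p)⁻¹ (1, g) = (2, g) := rfl

/-- multiplication on each level -/
private def rk4Lev (q : Fin 3 → FreeGroup (Fin 4)) : Equiv.Perm (Fin 3 × FreeGroup (Fin 4)) where
  toFun x := (x.1, q x.1 * x.2)
  invFun x := (x.1, (q x.1)⁻¹ * x.2)
  left_inv := by
    rintro ⟨i, g⟩
    simp
  right_inv := by
    rintro ⟨i, g⟩
    simp

private theorem rk4Lev_apply (q : Fin 3 → FreeGroup (Fin 4)) (i : Fin 3) (g : FreeGroup (Fin 4)) :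
    rk4Lev q (i, g) = (i, q i * g) := rfl

private theorem rk4_inj (ρ : FreeGroup (Fin 2) →* Equiv.Perm (Fin 3 × FreeGroup (Fin 4)))
    (ψ : FreeGroup (Fin 4) →* FreeGroup (Fin 2))
    (h : ∀ i g, ρ (ψ (FreeGroup.of i)) (0, g) = (0, FreeGroup.of i * g)) :
    Function.Injective ψ := by
  have h1 : ∀ w g, ρ (ψ w) (0, g) = (0, w * g) := by
    intro w
    induction w using FreeGroup.induction_on with
    | C1 => intro g; simp
    | of i => intro g; exact h i g
    | inv_of i _ =>
      intro g
      rw [map_inv, map_inv, Equiv.Perm.inv_eq_iff_eq, h i]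
      simp
    | mul x y hx hy =>
      intro g
      rw [map_mul, map_mul, Equiv.Perm.mul_apply, hy, hx, mul_assoc]
  rw [injective_iff_map_eq_one]
  intro w hw
  have h2 := h1 w 1
  rw [hw, map_one, Equiv.Perm.one_apply, mul_one] at h2
  exact (congrArg Prod.snd h2).symm

/-- the two embeddings -/
private def rk4Phi : ∀ _ : Bool, FreeGroup (Fin 4) →* FreeGroup (Fin 2)
  | false => FreeGroup.lift ![FreeGroup.of 0 ^ 3, FreeGroup.of 1,
      FreeGroup.of 0 * FreeGroup.of 1 * (FreeGroup.of 0)⁻¹,
      FreeGroup.of 0 * FreeGroup.of 0 * FreeGroup.of 1 * (FreeGroup.of 0)⁻¹ * (FreeGroup.of 0)⁻¹]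
  | true => FreeGroup.lift ![FreeGroup.of 1, FreeGroup.of 0 ^ 3,
      FreeGroup.of 0 * FreeGroup.of 1 * (FreeGroup.of 0)⁻¹ * FreeGroup.of 0 ^ 3,
      FreeGroup.of 0 * FreeGroup.of 0 * FreeGroup.of 1 * (FreeGroup.of 0)⁻¹ * (FreeGroup.of 0)⁻¹]

private theorem rk4Phi_inj : ∀ i, Function.Injective (rk4Phi i) := by
  rintro (_ | _)
  · refine rk4_inj (FreeGroup.lift ![rk4Shift (FreeGroup.of 0),
      rk4Lev ![FreeGroup.of 1, FreeGroup.of 2, FreeGroup.of 3]]) _ fun i g => ?_
    fin_cases i <;>
      simp [rk4Phi, pow_succ, rk4Shift_zero, rk4Shift_one, rk4Shift_two, rk4Shift_inv_zero,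
        rk4Shift_inv_one, rk4Lev_apply, Equiv.Perm.mul_apply]
  · refine rk4_inj (FreeGroup.lift ![rk4Shift (FreeGroup.of 1),
      rk4Lev ![FreeGroup.of 0, FreeGroup.of 2 * (FreeGroup.of 1)⁻¹, FreeGroup.of 3]]) _
      fun i g => ?_
    fin_cases i <;>
      simp [rk4Phi, pow_succ, rk4Shift_zero, rk4Shift_one, rk4Shift_two, rk4Shift_inv_zero,
        rk4Shift_inv_one, rk4Lev_apply, Equiv.Perm.mul_apply, mul_assoc]

/-- the amalgam has no homomorphisms to the integers -/
private theorem rk4_trivial (f : Monoid.PushoutI rk4Phi →* Multiplicative ℤ) : f = 1 := by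
  have h1 : ∀ x, f (Monoid.PushoutI.of false (rk4Phi false x)) =
      f (Monoid.PushoutI.of true (rk4Phi true x)) := by
    intro x
    rw [Monoid.PushoutI.of_apply_eq_base, Monoid.PushoutI.of_apply_eq_base]
  have e0 := congrArg Multiplicative.toAdd (h1 (FreeGroup.of 0))
  have e1 := congrArg Multiplicative.toAdd (h1 (FreeGroup.of 1))
  have e2 := congrArg Multiplicative.toAdd (h1 (FreeGroup.of 2))
  have e3 := congrArg Multiplicative.toAdd (h1 (FreeGroup.of 3))
  simp [rk4Phi] at e0 e1 e2 e3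
  set a := (f (Monoid.PushoutI.of false (FreeGroup.of 0))).toAdd with ha
  set b := (f (Monoid.PushoutI.of false (FreeGroup.of 1))).toAdd with hb
  set c := (f (Monoid.PushoutI.of true (FreeGroup.of 0))).toAdd with hc
  set d := (f (Monoid.PushoutI.of true (FreeGroup.of 1))).toAdd with hd
  have a0 : a = 0 := by omega
  have b0 : b = 0 := by omega
  have c0 : c = 0 := by omega
  have d0 : d = 0 := by omega
  refine Monoid.PushoutI.hom_ext_nonempty fun i => FreeGroup.ext_hom _ _ fun j => ?_
  cases i <;> fin_cases j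
  · exact Multiplicative.toAdd.injective a0
  · exact Multiplicative.toAdd.injective b0
  · exact Multiplicative.toAdd.injective c0
  · exact Multiplicative.toAdd.injective d0

private theorem rk4_fg : (⊤ : Subgroup (Monoid.PushoutI rk4Phi)).FG := by
  refine ⟨Finset.univ.image fun p : Bool × Fin 2 => Monoid.PushoutI.of p.1 (FreeGroup.of p.2), ?_⟩
  set K := Subgroup.closure ((Finset.univ.image fun p : Bool × Fin 2 =>
    (Monoid.PushoutI.of p.1 (FreeGroup.of p.2) : Monoid.PushoutI rk4Phi) : Finset _) :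
      Set (Monoid.PushoutI rk4Phi)) with hK
  have h1 : ∀ (i : Bool) (g : FreeGroup (Fin 2)), Monoid.PushoutI.of i g ∈ K := by
    intro i g
    induction g using FreeGroup.induction_on with
    | C1 => rw [map_one]; exact one_mem K
    | of j => exact Subgroup.subset_closure (Finset.mem_coe.2 (Finset.mem_image.2
        ⟨(i, j), Finset.mem_univ _, rfl⟩))
    | inv_of j hj => rw [map_inv]; exact inv_mem hj
    | mul x y hx hy => rw [map_mul]; exact mul_mem hx hy
  rw [eq_top_iff]
  intro x _
  induction x using Monoid.PushoutI.induction_on with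
  | of i g => exact h1 i g
  | base h => rw [← Monoid.PushoutI.of_apply_eq_base rk4Phi true]; exact h1 _ _
  | mul x y hx hy => exact mul_mem (hx trivial) (hy trivial)

theorem exists_rank_four : ∃ φ : ∀ _ : Bool, FreeGroup (Fin 4) →* FreeGroup (Fin 2),
    (∀ i, Function.Injective (φ i)) ∧ ¬ LocallyIndicable (Monoid.PushoutI φ) := by
  refine ⟨rk4Phi, rk4Phi_inj, fun hli => ?_⟩
  have hne : (⊤ : Subgroup (Monoid.PushoutI rk4Phi)) ≠ ⊥ := by
    intro h
    have h1 : Monoid.PushoutI.of (φ := rk4Phi) true (FreeGroup.of 0) = 1 := by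
      have h2 : Monoid.PushoutI.of (φ := rk4Phi) true (FreeGroup.of 0) ∈
        (⊤ : Subgroup (Monoid.PushoutI rk4Phi)) := trivial
      rw [h] at h2
      exact h2
    rw [← map_one (Monoid.PushoutI.of (φ := rk4Phi) true)] at h1
    exact FreeGroup.of_ne_one _ (Monoid.PushoutI.of_injective rk4Phi_inj true h1)
  obtain ⟨f, hf⟩ := hli ⊤ rk4_fg hne
  obtain ⟨x, hx⟩ := hf (Multiplicative.ofAdd 1)
  have h1 := rk4_trivial (f.comp (Subgroup.topEquiv.symm.toMonoidHom))
  have h2 := DFunLike.congr_fun h1 x.1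
  have h3 : f x = 1 := h2
  rw [h3] at hx
  have h4 := congrArg Multiplicative.toAdd hx
  simp at h4

end Pool.Agent.LIA
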