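import Pool.Agent.Lib.LThin.Main

/-!
# Local indicability of the groups of thin labelled oriented trees

(helper62, helper18; modules by helpers 5 9 12 13 14 15 20 21 30 32 44 45 50 54 55 61 64 65 66 67 68 69 73 74 91 94 96 98;
library of one-relator products of helper18 with helpers 3 5 7 13 15 19 20 21 24 25 27 29 32 39 45 49 51 54 62 66 67 68 74 77
84 85 87 95; theorem on independent systems of helper81; referees helper18, helper98)
-/

set_option autoImplicit false

namespace Pool.Agent.Results.MP_cf50d6_gt.ThinTrees

open Pool.Agent.LOTI Pool.Agent.LThin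

/-- every nontrivial finitely generated subgroup maps onto `ℤ` -/
def LocallyIndicable (G : Type) [Group G] : Prop :=
  ∀ H : Subgroup G, H.FG → H ≠ ⊥ → ∃ f : H →* Multiplicative ℤ, Function.Surjective f

/-- let `Γ` be a labelled oriented tree, `Γ.rev` the same tree with all edges reversed; if one of them is thin
and, moreover, both are thin or one of them is independent, then the group of `Γ` is locally indicable -/
theorem result {V E : Type} [Fintype V] [Fintype E] (Γ : LOT V E) (h : Thin Γ ∨ Thin Γ.rev)
    (h' : (Thin Γ ∧ Thin Γ.rev) ∨ Indep Γ ∨ Indep Γ.rev) : LocallyIndicable Γ.Grp :=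
  fun H h1 h2 => (thin_LI Γ h h').surj H h1 h2

end Pool.Agent.Results.MP_cf50d6_gt.ThinTrees
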